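import Pool.Agent.Helper47.PTwo.Aut0

/-!
Centralizers and conjugates of unipotent elements of `PSL_2(F)`.
-/

namespace Pool.Agent.Helper47.PTwo

open Matrix CosetT

variable {F : Type*} [Field F]

theorem cent_U {b : F} (hb : b ≠ 0) (g : SL2 F)
    (h : mk g * mk (U b) = mk (U b) * mk g) : ∃ c, mk g = mk (U c) := by
  obtain ⟨p, hp⟩ : ∃ p, (g : M2 F) 0 0 = p := ⟨_, rfl⟩
  obtain ⟨q, hq⟩ : ∃ q, (g : M2 F) 0 1 = q := ⟨_, rfl⟩
  obtain ⟨r, hr⟩ : ∃ r, (g : M2 F) 1 0 = r := ⟨_, rfl⟩
  obtain ⟨s, hs⟩ : ∃ s, (g : M2 F) 1 1 = s := ⟨_, rfl⟩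
  have hdet : p * s - q * r = 1 := by
    have h1 := g.2
    rw [Matrix.det_fin_two, hp, hq, hr, hs] at h1
    exact h1
  rw [← mk_mul, ← mk_mul, mk_eq_iff] at h
  have key : ∀ ε : F, ((g * U b : SL2 F) : M2 F) = ε • ((U b * g : SL2 F) : M2 F) →
      p = ε * (p + b * r) ∧ p * b + q = ε * (q + b * s) ∧ r = ε * r ∧ r * b + s = ε * s := by
    intro ε h1
    rw [Matrix.SpecialLinearGroup.coe_mul, Matrix.SpecialLinearGroup.coe_mul, U_coe] at h1
    have e00 := congrFun (congrFun h1 0) 0
    have e01 := congrFun (congrFun h1 0) 1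
    have e10 := congrFun (congrFun h1 1) 0
    have e11 := congrFun (congrFun h1 1) 1
    simp only [Matrix.mul_apply, Matrix.smul_apply, Fin.sum_univ_two, Matrix.of_apply,
      Matrix.cons_val', Matrix.cons_val_zero, Matrix.cons_val_one, Matrix.cons_val_fin_one,
      smul_eq_mul, hp, hq, hr, hs] at e00 e01 e10 e11
    refine ⟨?_, ?_, ?_, ?_⟩
    · linear_combination e00
    · linear_combination e01
    · linear_combination e10
    · linear_combination e11
  have main : p = p + b * r ∧ p * b + q = q + b * s := by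
    rcases h with h | h
    · have h1 := key 1 (by rw [one_smul]; exact h)
      exact ⟨by linear_combination h1.1, by linear_combination h1.2.1⟩
    · have h1 := key (-1) (by rw [neg_smul, one_smul]; exact h)
      obtain ⟨h2, h3, h4, h5⟩ := h1
      have h6 : 2 * r = 0 := by linear_combination h4
      rcases mul_eq_zero.1 h6 with h7 | h7
      · exact ⟨by linear_combination h2 - (p + b * r) * h7,
          by linear_combination h3 - (q + b * s) * h7⟩
      · have h8 : 2 * p = 0 := by rw [h7] at h2; linear_combination h2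
        rcases mul_eq_zero.1 h8 with h9 | h9
        · exact ⟨by linear_combination h2 - (p + b * r) * h9,
            by linear_combination h3 - (q + b * s) * h9⟩
        · rw [h7, h9] at hdet
          simp at hdet
  have hr0 : r = 0 := by
    have h1 : b * r = 0 := by linear_combination (-1 : F) * main.1
    rcases mul_eq_zero.1 h1 with h2 | h2
    · exact absurd h2 hb
    · exact h2
  have hps : p = s := by
    have h1 : b * (p - s) = 0 := by linear_combination main.2
    rcases mul_eq_zero.1 h1 with h2 | h2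
    · exact absurd h2 hb
    · exact sub_eq_zero.1 h2
  have hp2 : (p - 1) * (p + 1) = 0 := by
    rw [hr0, ← hps] at hdet
    linear_combination hdet
  refine ⟨p * q, (mk_eq_iff _ _).2 ?_⟩
  rcases mul_eq_zero.1 hp2 with h1 | h1
  · left
    have hp1 : p = 1 := by linear_combination h1
    ext i j
    fin_cases i <;> fin_cases j
    · simp [hp, hp1]
    · simp [hq, hp1]
    · simp [hr, hr0]
    · simp [hs, ← hps, hp1]
  · right
    have hp1 : p = -1 := by linear_combination h1
    ext i j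
    fin_cases i <;> fin_cases j
    · simp [hp, hp1]
    · simp [hq, hp1]
    · simp [hr, hr0]
    · simp [hs, ← hps, hp1]

theorem U_inj {a b : F} (h : mk (U a) = mk (U b)) : a = b := by
  rcases (mk_eq_iff _ _).1 h with h | h
  · have h1 := congrFun (congrFun h 0) 1
    simpa using h1
  · have h1 := congrFun (congrFun h 0) 1
    have h2 := congrFun (congrFun h 0) 0
    simp at h1 h2
    have h3 : (2 : F) = 0 := by linear_combination h2
    linear_combination h1 + (-b) * h3

theorem L_inj {a b : F} (h : mk (L a) = mk (L b)) : a = b := by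
  rcases (mk_eq_iff _ _).1 h with h | h
  · have h1 := congrFun (congrFun h 1) 0
    simpa using h1
  · have h1 := congrFun (congrFun h 1) 0
    have h2 := congrFun (congrFun h 0) 0
    simp at h1 h2
    have h3 : (2 : F) = 0 := by linear_combination h2
    linear_combination h1 + (-b) * h3

theorem U_ne_L {a b : F} (hb : b ≠ 0) : mk (U a) ≠ mk (L b) := by
  intro h
  rcases (mk_eq_iff _ _).1 h with h | h
  · have h1 := congrFun (congrFun h 1) 0
    simp at h1
    exact hb h1.symm
  · have h1 := congrFun (congrFun h 1) 0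
    simp at h1
    exact hb h1

theorem conj_U_aux (m : SL2 F) (c : F) : ((m * U c * m⁻¹ : SL2 F) : M2 F) =
    !![1 - (m : M2 F) 0 0 * (m : M2 F) 1 0 * c, (m : M2 F) 0 0 ^ 2 * c;
      -((m : M2 F) 1 0 ^ 2 * c), 1 + (m : M2 F) 0 0 * (m : M2 F) 1 0 * c] := by
  obtain ⟨p, hp⟩ : ∃ p, (m : M2 F) 0 0 = p := ⟨_, rfl⟩
  obtain ⟨q, hq⟩ : ∃ q, (m : M2 F) 0 1 = q := ⟨_, rfl⟩
  obtain ⟨r, hr⟩ : ∃ r, (m : M2 F) 1 0 = r := ⟨_, rfl⟩
  obtain ⟨s, hs⟩ : ∃ s, (m : M2 F) 1 1 = s := ⟨_, rfl⟩
  have hdet : p * s - q * r = 1 := by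
    have h1 := m.2
    rw [Matrix.det_fin_two, hp, hq, hr, hs] at h1
    exact h1
  have hinv : ((m⁻¹ : SL2 F) : M2 F) = !![s, -q; -r, p] := by
    rw [Matrix.SpecialLinearGroup.coe_inv, Matrix.adjugate_fin_two, hp, hq, hr, hs]
  rw [Matrix.SpecialLinearGroup.coe_mul, Matrix.SpecialLinearGroup.coe_mul, U_coe, hinv, hp, hr]
  ext i j
  rw [Matrix.mul_apply, Fin.sum_univ_two, Matrix.mul_apply, Fin.sum_univ_two, Matrix.mul_apply,
    Fin.sum_univ_two]
  fin_cases i <;> fin_cases j
  · simp [hp, hq]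
    linear_combination hdet
  · simp [hp, hq]
    ring
  · simp [hr, hs]
    ring
  · simp [hr, hs]
    linear_combination hdet

theorem conj_L (m : SL2 F) (hm : (m : M2 F) 1 0 ≠ 0) : ∃ (x r : F), r ≠ 0 ∧
    ∀ c, m * U c * m⁻¹ = U x * L (r * c) * (U x)⁻¹ := by
  refine ⟨(m : M2 F) 0 0 / (m : M2 F) 1 0, -((m : M2 F) 1 0 ^ 2),
    neg_ne_zero.2 (pow_ne_zero 2 hm), fun c => ?_⟩
  apply SL_ext
  rw [conj_U_aux]
  generalize (m : M2 F) 0 0 = p
  revert hm
  generalize (m : M2 F) 1 0 = r
  intro hm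
  rw [Matrix.SpecialLinearGroup.coe_mul, Matrix.SpecialLinearGroup.coe_mul,
    Matrix.SpecialLinearGroup.coe_inv, U_coe, L_coe, Matrix.adjugate_fin_two]
  ext i j
  rw [Matrix.mul_apply, Fin.sum_univ_two, Matrix.mul_apply, Fin.sum_univ_two, Matrix.mul_apply,
    Fin.sum_univ_two]
  fin_cases i <;> fin_cases j
  · simp
    field_simp
    ring
  · simp
    field_simp
    ring
  · simp
  · simp
    field_simp
    ring

theorem L_eq : ∃ w : SL2 F, ∀ b : F, L b = w * U (-b) * w⁻¹ := by
  refine ⟨⟨!![0, 1; -1, 0], by rw [det_fin_two_of]; ring⟩, fun b => ?_⟩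
  apply SL_ext
  rw [conj_U_aux, L_coe]
  ext i j
  fin_cases i <;> fin_cases j <;> simp

end Pool.Agent.Helper47.PTwo
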