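import Pool.Agent.Helper47.PTwo.Aut0

/-!
The field automorphism of an automorphism of `PSL_2(F)` which preserves both unipotent subgroups.
-/

namespace Pool.Agent.Helper47.PTwo

open Matrix CosetT

variable {F : Type*} [Field F]

private theorem mkeq {g h : SL2 F} (H : mk g = mk h) : ∃ ε : F, (ε = 1 ∨ ε = -1) ∧
    ∀ i j, (g : M2 F) i j = ε * (h : M2 F) i j := by
  rcases (mk_eq_iff g h).1 H with h1 | h1
  · exact ⟨1, Or.inl rfl, fun i j => by rw [h1, one_mul]⟩
  · exact ⟨-1, Or.inr rfl, fun i j => by rw [h1, Matrix.neg_apply, neg_one_mul]⟩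

private theorem U_inj' {a b : F} (h : mk (U a) = mk (U b)) : a = b := by
  obtain ⟨ε, -, he⟩ := mkeq h
  have h0 : (1 : F) = ε * 1 := by simpa using he 0 0
  have h1 : a = ε * b := by simpa using he 0 1
  rw [h1, ← mul_one ε, ← h0, one_mul]

private theorem L_inj' {a b : F} (h : mk (L a) = mk (L b)) : a = b := by
  obtain ⟨ε, -, he⟩ := mkeq h
  have h0 : (1 : F) = ε * 1 := by simpa using he 0 0
  have h1 : a = ε * b := by simpa using he 1 0
  rw [h1, ← mul_one ε, ← h0, one_mul]

private theorem coe_mul' (g h : SL2 F) (i j : Fin 2) : ((g * h : SL2 F) : M2 F) i j =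
    (g : M2 F) i 0 * (h : M2 F) 0 j + (g : M2 F) i 1 * (h : M2 F) 1 j := by
  rw [Matrix.SpecialLinearGroup.coe_mul, Matrix.mul_apply, Fin.sum_univ_two]

/-- the product `U u * L s * U u` -/
private theorem x_coe (u s : F) : ((U u * L s * U u : SL2 F) : M2 F) =
    !![1 + u * s, (1 + u * s) * u + u; s, s * u + 1] := by
  ext i j
  rw [coe_mul', coe_mul', coe_mul']
  fin_cases i <;> fin_cases j <;> simp

private theorem xu_coe (u s e : F) : ((U u * L s * U u * U e : SL2 F) : M2 F) =
    !![1 + u * s, (1 + u * s) * e + ((1 + u * s) * u + u); s, s * e + (s * u + 1)] := by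
  rw [Matrix.SpecialLinearGroup.coe_mul, x_coe, U_coe, Matrix.mul_fin_two]
  congr 1
  simp

private theorem lx_coe (u s r : F) : ((L r * (U u * L s * U u) : SL2 F) : M2 F) =
    !![1 + u * s, (1 + u * s) * u + u; r * (1 + u * s) + s,
      r * ((1 + u * s) * u + u) + (s * u + 1)] := by
  rw [Matrix.SpecialLinearGroup.coe_mul, x_coe, L_coe, Matrix.mul_fin_two]
  simp

private theorem xl_coe (u s c : F) : ((U u * L s * U u * L c : SL2 F) : M2 F) =
    !![1 + u * s + ((1 + u * s) * u + u) * c, (1 + u * s) * u + u; s + (s * u + 1) * c,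
      s * u + 1] := by
  rw [Matrix.SpecialLinearGroup.coe_mul, x_coe, L_coe, Matrix.mul_fin_two]
  simp

private theorem ux_coe (u s c : F) : ((U c * (U u * L s * U u) : SL2 F) : M2 F) =
    !![1 + u * s + c * s, (1 + u * s) * u + u + c * (s * u + 1); s, s * u + 1] := by
  rw [Matrix.SpecialLinearGroup.coe_mul, x_coe, U_coe, Matrix.mul_fin_two]
  simp

private theorem w1 {u : F} (hu : u ≠ 0) : 1 + u * (-1 / u) = 0 := by field_simp; ring

private theorem w2 {u : F} (hu : u ≠ 0) : -1 / u * u + 1 = 0 := by field_simp; ring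

private theorem rel1 {b : F} (hb : b ≠ 0) :
    (U b * L (-1 / b) * U b) * U 1 = L (-1 / b ^ 2) * (U b * L (-1 / b) * U b) := by
  apply SL_ext
  rw [xu_coe, lx_coe, w1 hb, w2 hb]
  have : -1 / b ^ 2 * (0 * b + b) = -1 / b := by field_simp; ring
  rw [this]
  simp

private theorem rel2 {a : F} (ha : a ≠ 0) (b : F) :
    (U a * L (-1 / a) * U a) * (L (-b)) = U (a ^ 2 * b) * (U a * L (-1 / a) * U a) := by
  apply SL_ext
  rw [xl_coe, ux_coe, w1 ha, w2 ha]
  have : 0 + (0 * a + a) * -b = 0 + a ^ 2 * b * (-1 / a) := by field_simp; ring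
  rw [this]
  simp

theorem field_part [Finite F] (β : MulAut (PSLn 2 F)) (f g : F → F)
    (hf : ∀ b, β (mk (U b)) = mk (U (f b))) (hg : ∀ b, β (mk (L b)) = mk (L (g b))) :
    ∃ (d : F) (σ : F ≃+* F), d ≠ 0 ∧ (∀ b, f b = d * σ b) ∧ ∀ b, g b = σ b / d := by
  classical
  have fadd : ∀ a b, f (a + b) = f a + f b := by
    intro a b
    apply U_inj'
    rw [← hf, ← U_mul, ← U_mul, mk_mul, mk_mul, map_mul, hf, hf]
  have gadd : ∀ a b, g (a + b) = g a + g b := by
    intro a b
    apply L_inj'
    rw [← hg, ← L_mul, ← L_mul, mk_mul, mk_mul, map_mul, hg, hg]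
  have f0 : f 0 = 0 := by
    have := fadd 0 0
    rw [add_zero] at this
    exact left_eq_add.1 this
  have g0 : g 0 = 0 := by
    have := gadd 0 0
    rw [add_zero] at this
    exact left_eq_add.1 this
  have finj : ∀ a b, f a = f b → a = b := by
    intro a b h
    apply U_inj'
    apply β.injective
    rw [hf, hf, h]
  have fne : ∀ b, b ≠ 0 → f b ≠ 0 := fun b hb h => hb (finj b 0 (by rw [h, f0]))
  -- the Weyl elements
  have hwl : ∀ b, b ≠ 0 → g (-1 / b) = -1 / f b := by
    intro b hb
    have h1 := congrArg (fun x => β (mk x)) (rel1 hb)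
    simp only [mk_mul, map_mul, hf, hg] at h1
    simp only [← mk_mul] at h1
    obtain ⟨ε, hε, he⟩ := mkeq h1
    have e00 := he 0 0
    have e01 := he 0 1
    rw [xu_coe, lx_coe] at e00 e01
    simp only [Matrix.of_apply, Matrix.cons_val', Matrix.cons_val_zero,
      Matrix.cons_val_one, Matrix.cons_val_fin_one] at e00 e01
    have key : (1 + f b * g (-1 / b)) * f 1 = 0 := by
      rcases hε with rfl | rfl
      · linear_combination e01
      · have h2 : 2 * (1 + f b * g (-1 / b)) = 0 := by linear_combination e00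
        rcases mul_eq_zero.1 h2 with h3 | h3
        · linear_combination e01 - ((1 + f b * g (-1 / b)) * f b + f b) * h3
        · rw [h3, zero_mul]
    rcases mul_eq_zero.1 key with h3 | h3
    · have hfb := fne b hb
      rw [eq_div_iff hfb]
      linear_combination h3
    · exact absurd h3 (fne 1 one_ne_zero)
  -- the torus
  have htor : ∀ a, a ≠ 0 → ∀ b, f (a ^ 2 * b) = -(f a) ^ 2 * g (-b) := by
    intro a ha b
    have hfa := fne a ha
    have h1 := congrArg (fun x => β (mk x)) (rel2 ha b)
    simp only [mk_mul, map_mul, hf, hg, hwl a ha] at h1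
    simp only [← mk_mul] at h1
    obtain ⟨ε, hε, he⟩ := mkeq h1
    have e00 := he 0 0
    have e01 := he 0 1
    rw [xl_coe, ux_coe, w1 hfa, w2 hfa] at e00 e01
    simp only [Matrix.of_apply, Matrix.cons_val', Matrix.cons_val_zero,
      Matrix.cons_val_one, Matrix.cons_val_fin_one] at e00 e01
    have h2 : ε = 1 := by
      have h3 : f a * ε = f a * 1 := by linear_combination -e01
      exact mul_left_cancel₀ hfa h3
    rw [h2] at e00
    have h4 : (-1 / f a) * f a = -1 := by field_simp
    linear_combination f a * e00 + f (a ^ 2 * b) * h4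
  have hd : f 1 ≠ 0 := fne 1 one_ne_zero
  have hg1 : ∀ b, g (-b) = -(f b) / (f 1) ^ 2 := by
    intro b
    have := htor 1 one_ne_zero b
    rw [one_pow, one_mul] at this
    rw [this]
    field_simp
  have hsq : ∀ a b, f (a ^ 2 * b) * (f 1) ^ 2 = (f a) ^ 2 * f b := by
    intro a b
    by_cases ha : a = 0
    · rw [ha, zero_pow two_ne_zero, zero_mul, f0]; ring
    · rw [htor a ha b, hg1]
      field_simp
  set φ : F → F := fun b => f b / f 1 with hφ
  have φ1 : φ 1 = 1 := div_self hd
  have φ0 : φ 0 = 0 := by rw [hφ]; simp only; rw [f0, zero_div]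
  have φadd : ∀ a b, φ (a + b) = φ a + φ b := by
    intro a b; rw [hφ]; simp only; rw [fadd, add_div]
  have φneg : ∀ a, φ (-a) = -φ a := by
    intro a
    have := φadd a (-a)
    rw [add_neg_cancel, φ0] at this
    linear_combination -this
  have φsq : ∀ a b, φ (a ^ 2 * b) = φ a ^ 2 * φ b := by
    intro a b
    have := hsq a b
    rw [hφ]; simp only
    field_simp
    linear_combination this
  have φsq' : ∀ a b, φ (a ^ 2 * b) = φ (a ^ 2) * φ b := by
    intro a b
    have := φsq a 1
    rw [mul_one, φ1, mul_one] at this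
    rw [φsq, this]
  have φmul : ∀ a b, φ (a * b) = φ a * φ b := by
    intro a b
    by_cases h2 : (2 : F) = 0
    · have : Fintype F := Fintype.ofFinite F
      have hch : ringChar F = 2 := by
        have h3 : ringChar F ∣ 2 := (ringChar.spec F 2).1 (by exact_mod_cast h2)
        rcases (Nat.dvd_prime Nat.prime_two).1 h3 with h | h
        · exact absurd h CharP.ringChar_ne_one
        · exact h
      obtain ⟨r, hr⟩ := FiniteField.isSquare_of_char_two hch a
      rw [hr, ← pow_two, φsq']
    · have e : a = ((a + 1) / 2) ^ 2 - ((a - 1) / 2) ^ 2 := by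
        field_simp; ring
      have e1 : φ (a * b) = φ (((a + 1) / 2) ^ 2 * b) - φ (((a - 1) / 2) ^ 2 * b) := by
        rw [sub_eq_add_neg (φ (((a + 1) / 2) ^ 2 * b)), ← φneg, ← φadd]
        congr 1
        nth_rewrite 1 [e]
        ring
      have e2 : φ a = φ (((a + 1) / 2) ^ 2) - φ (((a - 1) / 2) ^ 2) := by
        rw [sub_eq_add_neg (φ (((a + 1) / 2) ^ 2)), ← φneg, ← φadd]
        congr 1
        nth_rewrite 1 [e]
        ring
      rw [e1, e2, φsq', φsq' ((a - 1) / 2)]
      ring
  let ψ : F →+* F :=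
    { toFun := φ, map_one' := φ1, map_mul' := φmul, map_zero' := φ0, map_add' := φadd }
  have hψ : Function.Bijective ψ := Finite.injective_iff_bijective.1 ψ.injective
  let σ : F ≃+* F := RingEquiv.ofBijective ψ hψ
  have hσ : ∀ b, σ b = f b / f 1 := fun b => rfl
  refine ⟨f 1, σ, hd, fun b => ?_, fun b => ?_⟩
  · rw [hσ]; field_simp
  · have h1 := hg1 (-b)
    rw [neg_neg] at h1
    have h2 : f (-b) = -f b := by
      have := fadd b (-b)
      rw [add_neg_cancel, f0] at this
      linear_combination -this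
    rw [h1, h2, hσ]
    field_simp

end Pool.Agent.Helper47.PTwo
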