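import Pool.Agent.Helper47.PTwo.Aut0

/-!
Generation of `SL_2(F)` and semilinear automorphisms.
-/

namespace Pool.Agent.Helper47.PTwo

open Matrix CosetT

variable {F : Type*} [Field F]

theorem ULU (g : SL2 F) (h : (g : M2 F) 1 0 ≠ 0) :
    g = U (((g : M2 F) 0 0 - 1) / (g : M2 F) 1 0) * L ((g : M2 F) 1 0) *
      U (((g : M2 F) 1 1 - 1) / (g : M2 F) 1 0) := by
  have hd := g.2
  rw [Matrix.det_fin_two] at hd
  apply SL_ext
  rw [Matrix.SpecialLinearGroup.coe_mul, Matrix.SpecialLinearGroup.coe_mul, U_coe, L_coe, U_coe]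
  ext i j
  rw [Matrix.mul_apply, Fin.sum_univ_two, Matrix.mul_apply, Matrix.mul_apply, Fin.sum_univ_two,
    Fin.sum_univ_two]
  fin_cases i <;> fin_cases j
  · simp
    field_simp
    ring
  · simp
    field_simp
    linear_combination -hd
  · simp
  · simp
    field_simp
    ring

theorem gen_SL (H : Subgroup (SL2 F)) (hU : ∀ b, U b ∈ H) (hL : ∀ b, L b ∈ H) : H = ⊤ := by
  rw [eq_top_iff]
  have key : ∀ g : SL2 F, (g : M2 F) 1 0 ≠ 0 → g ∈ H := by
    intro g hg
    rw [ULU g hg]
    exact H.mul_mem (H.mul_mem (hU _) (hL _)) (hU _)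
  intro g _
  by_cases h : (g : M2 F) 1 0 = 0
  · have hd := g.2
    rw [Matrix.det_fin_two, h, mul_zero, sub_zero] at hd
    have h11 : (g : M2 F) 1 1 ≠ 0 := by
      intro h0; rw [h0, mul_zero] at hd; exact zero_ne_one hd
    have h1 : g * L 1 ∈ H := by
      apply key
      rw [Matrix.SpecialLinearGroup.coe_mul, L_coe, Matrix.mul_apply, Fin.sum_univ_two]
      simpa [h] using h11
    have h2 := H.mul_mem h1 (H.inv_mem (hL 1))
    rwa [mul_inv_cancel_right] at h2
  · exact key g h

theorem ind_of_gen (α : MulAut (PSLn 2 F)) (A : M2 F) (hA : A.det ≠ 0) (σ : F ≃+* F)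
    (hU : ∀ b, ∃ g' : SL2 F, (g' : M2 F) * A = A * (U b : M2 F).map σ ∧ α (mk (U b)) = mk g')
    (hL : ∀ b, ∃ g' : SL2 F, (g' : M2 F) * A = A * (L b : M2 F).map σ ∧ α (mk (L b)) = mk g') :
    CosetT.Ind α A σ := by
  have huA : IsUnit A.det := isUnit_iff_ne_zero.2 hA
  have hinj : ∀ x y : SL2 F, (x : M2 F) * A = (y : M2 F) * A → x = y := by
    intro x y h
    apply SL_ext
    have : (x : M2 F) * A * A⁻¹ = (y : M2 F) * A * A⁻¹ := by rw [h]
    rwa [Matrix.mul_nonsing_inv_cancel_right _ _ huA,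
      Matrix.mul_nonsing_inv_cancel_right _ _ huA] at this
  -- it is enough to have one image
  let H : Subgroup (SL2 F) :=
    { carrier := {g | ∃ g' : SL2 F, (g' : M2 F) * A = A * (g : M2 F).map σ ∧ α (mk g) = mk g'}
      mul_mem' := by
        rintro a b ⟨a', ha, ha'⟩ ⟨b', hb, hb'⟩
        refine ⟨a' * b', ?_, ?_⟩
        · rw [Matrix.SpecialLinearGroup.coe_mul, mul_assoc, hb, ← mul_assoc, ha, mul_assoc,
            Matrix.SpecialLinearGroup.coe_mul, map_mul']
        · rw [mk_mul, map_mul, ha', hb', mk_mul]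
      one_mem' := by
        refine ⟨1, ?_, ?_⟩
        · rw [Matrix.SpecialLinearGroup.coe_one, one_mul,
            Matrix.map_one _ (map_zero σ) (map_one σ), mul_one]
        · have : (mk (1 : SL2 F)) = 1 := rfl
          rw [this, map_one]
      inv_mem' := by
        rintro a ⟨a', ha, ha'⟩
        refine ⟨a'⁻¹, ?_, ?_⟩
        · obtain ⟨b', hb⟩ := exists_image hA σ a⁻¹
          have h1 : b' * a' = 1 := by
            apply hinj
            rw [Matrix.SpecialLinearGroup.coe_mul, mul_assoc, ha, ← mul_assoc, hb, mul_assoc,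
              ← map_mul', ← Matrix.SpecialLinearGroup.coe_mul, inv_mul_cancel,
              Matrix.SpecialLinearGroup.coe_one, Matrix.map_one _ (map_zero σ) (map_one σ),
              mul_one, one_mul]
          rw [← eq_inv_of_mul_eq_one_left h1]
          exact hb
        · rw [mk_inv, map_inv, ha', mk_inv] }
  have hH : H = ⊤ := gen_SL H hU hL
  intro g g' hg
  have hm : g ∈ H := by rw [hH]; exact Subgroup.mem_top g
  obtain ⟨g'', h1, h2⟩ := hm
  have : g' = g'' := hinj _ _ (by rw [hg, h1])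
  rw [this, h2]

end Pool.Agent.Helper47.PTwo
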