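import Pool.Agent.Helper47.PTwo.AutA
import Pool.Agent.Helper47.PTwo.AutB
import Pool.Agent.Helper47.PTwo.AutC
import Pool.Agent.Helper47.PTwo.AutD

/-!
Every automorphism of `PSL_2(F)` is semilinear.
-/

namespace Pool.Agent.Helper47.PTwo

open Matrix CosetT

variable {F : Type*} [Field F]

theorem U_zero : (U 0 : SL2 F) = 1 := by
  apply SL_ext
  show (!![1, 0; 0, 1] : M2 F) = 1
  ext i j
  fin_cases i <;> fin_cases j <;> simp

theorem mk_one : (mk (1 : SL2 F)) = 1 := rfl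

theorem U_pow (b : F) (n : ℕ) : U b ^ n = U (n * b) := by
  induction n with
  | zero => rw [pow_zero, Nat.cast_zero, zero_mul, U_zero]
  | succ n ih => rw [pow_succ, ih, U_mul]; push_cast; congr 1; ring

theorem mk_pow (g : SL2 F) (n : ℕ) : mk (g ^ n) = mk g ^ n := rfl

/-- upper triangular elements normalize -/
theorem conj_upper (m : SL2 F) (hm : (m : M2 F) 1 0 = 0) (c : F) :
    ∃ c', m * U c * m⁻¹ = U c' := by
  have hd := m.2
  rw [Matrix.det_fin_two, hm, mul_zero, sub_zero] at hd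
  refine ⟨(m : M2 F) 0 0 * (m : M2 F) 0 0 * c, ?_⟩
  rw [mul_inv_eq_iff_eq_mul]
  apply SL_ext
  rw [Matrix.SpecialLinearGroup.coe_mul, Matrix.SpecialLinearGroup.coe_mul, U_coe, U_coe]
  ext i j
  rw [Matrix.mul_apply, Matrix.mul_apply, Fin.sum_univ_two, Fin.sum_univ_two]
  fin_cases i <;> fin_cases j
  · simp [hm]
  · simp
    linear_combination (-(m : M2 F) 0 0 * c) * hd
  · simp
  · simp [hm]

/-- **Every automorphism of `PSL_2(F)` is semilinear.** -/
theorem every_aut [Finite F] (α : MulAut (PSLn 2 F)) :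
    ∃ (A : M2 F) (σ : F ≃+* F), A.det ≠ 0 ∧ Ind α A σ := by
  obtain ⟨p, hp⟩ := CharP.exists F
  have hpp : p.Prime := (CharP.char_is_prime_or_zero F p).resolve_right (by
    rintro rfl
    have : CharZero F := CharP.charP_to_charZero F
    exact not_finite F)
  have : Fact p.Prime := ⟨hpp⟩
  obtain ⟨g0, hg0⟩ := mk_surj (α (mk (U 1)))
  have h1 : mk (U (1 : F)) ≠ 1 := by
    intro h
    rw [← mk_one, ← U_zero] at h
    exact one_ne_zero (U_inj h)
  obtain ⟨k, b0, hb0, hk⟩ := unip_of_order (p := p) g0 (by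
    rw [hg0]; intro h; exact h1 (α.injective (by rw [h, map_one]))) (by
    rw [hg0, ← map_pow, ← mk_pow, U_pow, CharP.cast_eq_zero, zero_mul, U_zero, mk_one, map_one])
  -- the map on the upper unitriangular elements
  have hf : ∀ b, ∃ c, α (mk (U b)) = mk k * mk (U c) * (mk k)⁻¹ := by
    intro b
    obtain ⟨g, hg⟩ := mk_surj ((mk k)⁻¹ * α (mk (U b)) * mk k)
    have hcomm : α (mk (U b)) * α (mk (U 1)) = α (mk (U 1)) * α (mk (U b)) := by
      rw [← map_mul, ← map_mul, ← mk_mul, ← mk_mul, U_mul, U_mul, add_comm]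
    rw [← hg0, hk, mk_mul, mk_mul, mk_inv] at hcomm
    obtain ⟨c, hc⟩ := cent_U hb0 g (by
      rw [hg]
      calc (mk k)⁻¹ * α (mk (U b)) * mk k * mk (U b0)
          = (mk k)⁻¹ * (α (mk (U b)) * (mk k * mk (U b0) * (mk k)⁻¹)) * mk k := by group
        _ = (mk k)⁻¹ * (mk k * mk (U b0) * (mk k)⁻¹ * α (mk (U b))) * mk k := by rw [hcomm]
        _ = _ := by group)
    refine ⟨c, ?_⟩
    rw [← hc, hg]; group
  choose f hf using hf
  have hfi : Function.Injective f := by
    intro a b hab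
    apply U_inj
    apply α.injective
    rw [hf, hf, hab]
  have hfs : Function.Surjective f := Finite.injective_iff_surjective.1 hfi
  -- the lower unitriangular elements
  obtain ⟨w, hw⟩ := L_eq (F := F)
  obtain ⟨m, hm⟩ := mk_surj (α (mk w))
  set n := k⁻¹ * m * k with hn
  have hL : ∀ b, α (mk (L b)) = mk k * mk (n * U (f (-b)) * n⁻¹) * (mk k)⁻¹ := by
    intro b
    rw [hw, mk_mul, mk_mul, mk_inv, map_mul, map_mul, map_inv, ← hm, hf, hn]
    simp only [mk_mul, mk_inv]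
    group
  have hn0 : (n : M2 F) 1 0 ≠ 0 := by
    intro h0
    obtain ⟨c', hc'⟩ := conj_upper n h0 (f (-1))
    obtain ⟨b', hb'⟩ := hfs c'
    apply U_ne_L (a := b') (one_ne_zero (α := F))
    apply α.injective
    rw [hf, hL, hc', hb']
  obtain ⟨x, r, hr, hx⟩ := conj_L n hn0
  obtain ⟨h, hh⟩ : ∃ h, h = k * U x := ⟨_, rfl⟩
  set β : MulAut (PSLn 2 F) := (MulAut.conj (mk h))⁻¹ * α with hβ
  have hβ' : ∀ y, β y = (mk h)⁻¹ * α y * mk h := by
    intro y
    rw [hβ, MulAut.mul_apply, MulAut.conj_inv_apply]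
  have hUU : ∀ c, (mk (U x))⁻¹ * mk (U c) * mk (U x) = mk (U c) := by
    intro c
    rw [mul_assoc, ← mk_mul, U_mul, add_comm c x, ← U_mul, mk_mul, inv_mul_cancel_left]
  have hβU : ∀ b, β (mk (U b)) = mk (U (f b)) := by
    intro b
    rw [hβ', hf, hh, mk_mul, ← hUU (f b)]
    nth_rewrite 2 [← hUU (f b)]
    rw [hUU]
    group
  have hβL : ∀ b, β (mk (L b)) = mk (L (r * f (-b))) := by
    intro b
    rw [hβ', hL, hx, hh]
    simp only [mk_mul, mk_inv]
    group
  obtain ⟨d, σ, hd, hfd, hgd⟩ := field_part β f (fun b => r * f (-b)) hβU hβL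
  have hαβ : ∀ y, α y = mk h * β y * (mk h)⁻¹ := by
    intro y; rw [hβ']; group
  set D : M2 F := !![d, 0; 0, 1] with hD
  have hdet : ((h : M2 F) * D).det ≠ 0 := by
    rw [Matrix.det_mul, h.2, hD, Matrix.det_fin_two_of]; simpa using hd
  refine ⟨(h : M2 F) * D, σ, hdet, ?_⟩
  apply ind_of_gen α _ hdet σ
  · intro b
    refine ⟨h * U (f b) * h⁻¹, ?_, ?_⟩
    · have e1 : ((U (f b) : SL2 F) : M2 F) * D = D * ((U b : SL2 F) : M2 F).map σ := by
        rw [U_coe, U_coe, hD, hfd]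
        ext i j
        rw [Matrix.mul_apply, Matrix.mul_apply, Fin.sum_univ_two, Fin.sum_univ_two]
        fin_cases i <;> fin_cases j <;> simp
      rw [← mul_assoc, ← Matrix.SpecialLinearGroup.coe_mul, inv_mul_cancel_right,
        Matrix.SpecialLinearGroup.coe_mul, mul_assoc, mul_assoc, e1]
    · rw [hαβ, hβU, mk_mul, mk_mul, mk_inv]
  · intro b
    refine ⟨h * L (r * f (-b)) * h⁻¹, ?_, ?_⟩
    · have e1 : ((L (r * f (-b)) : SL2 F) : M2 F) * D = D * ((L b : SL2 F) : M2 F).map σ := by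
        rw [L_coe, L_coe, hD, hgd b]
        ext i j
        rw [Matrix.mul_apply, Matrix.mul_apply, Fin.sum_univ_two, Fin.sum_univ_two]
        fin_cases i <;> fin_cases j <;> simp [hd]
      rw [← mul_assoc, ← Matrix.SpecialLinearGroup.coe_mul, inv_mul_cancel_right,
        Matrix.SpecialLinearGroup.coe_mul, mul_assoc, mul_assoc, e1]
    · rw [hαβ, hβL, mk_mul, mk_mul, mk_inv]

end Pool.Agent.Helper47.PTwo
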