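import Pool.Agent.Helper47.PTwo.Base

/-!
Unipotent elements of `SL_2(F)` and equality in `PSL_2(F)`.
-/

namespace Pool.Agent.Helper47.PTwo

open Matrix CosetT

variable {F : Type*} [Field F]

/-- upper unitriangular elements -/
def U (b : F) : SpecialLinearGroup (Fin 2) F := ⟨!![1, b; 0, 1], by rw [det_fin_two_of]; ring⟩

/-- lower unitriangular elements -/
def L (b : F) : SpecialLinearGroup (Fin 2) F := ⟨!![1, 0; b, 1], by rw [det_fin_two_of]; ring⟩

@[simp] theorem U_coe (b : F) : ((U b : SpecialLinearGroup (Fin 2) F) : M2 F) = !![1, b; 0, 1] := rfl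

@[simp] theorem L_coe (b : F) : ((L b : SpecialLinearGroup (Fin 2) F) : M2 F) = !![1, 0; b, 1] := rfl

abbrev SL2 (F : Type*) [Field F] := Matrix.SpecialLinearGroup (Fin 2) F

theorem SL_ext {g h : SL2 F} (h0 : (g : M2 F) = (h : M2 F)) : g = h := Subtype.ext h0

theorem U_mul (a b : F) : U a * U b = U (a + b) := by
  apply SL_ext
  show (!![1, a; 0, 1] : M2 F) * !![1, b; 0, 1] = !![1, a + b; 0, 1]
  ext i j
  rw [Matrix.mul_apply, Fin.sum_univ_two]
  fin_cases i <;> fin_cases j <;> simp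
  ring

theorem L_mul (a b : F) : L a * L b = L (a + b) := by
  apply SL_ext
  show (!![1, 0; a, 1] : M2 F) * !![1, 0; b, 1] = !![1, 0; a + b, 1]
  ext i j
  rw [Matrix.mul_apply, Fin.sum_univ_two]
  fin_cases i <;> fin_cases j <;> simp

/-- equality in `PSL_2(F)` -/
theorem mk_eq_iff (g h : SpecialLinearGroup (Fin 2) F) :
    mk g = mk h ↔ (g : M2 F) = h ∨ (g : M2 F) = -(h : M2 F) := by
  have e0 : mk g = mk h ↔ g⁻¹ * h ∈ Subgroup.center (SpecialLinearGroup (Fin 2) F) :=
    QuotientGroup.eq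
  rw [e0, Matrix.SpecialLinearGroup.mem_center_iff]
  constructor
  · rintro ⟨r, hr, hs⟩
    have h1 : (h : M2 F) = r • (g : M2 F) := by
      have h2 : (g : M2 F) * ((g⁻¹ * h : SpecialLinearGroup (Fin 2) F) : M2 F) = h := by
        rw [← Matrix.SpecialLinearGroup.coe_mul, mul_inv_cancel_left]
      rw [← h2, ← hs, Matrix.scalar_apply, ← Matrix.smul_one_eq_diagonal, Matrix.mul_smul, mul_one]
    rw [Fintype.card_fin] at hr
    have h3 : (r - 1) * (r + 1) = 0 := by linear_combination hr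
    rcases mul_eq_zero.1 h3 with h4 | h4
    · left; rw [h1, sub_eq_zero.1 h4, one_smul]
    · right
      rw [h1, eq_neg_of_add_eq_zero_left h4, neg_smul, one_smul, neg_neg]
  · rintro (h1 | h1)
    · have : g = h := SL_ext h1
      subst this
      refine ⟨1, by simp, ?_⟩
      rw [inv_mul_cancel]; simp
    · refine ⟨-1, by rw [Fintype.card_fin]; ring, ?_⟩
      have h2 : (h : M2 F) = -(g : M2 F) := by rw [h1, neg_neg]
      rw [Matrix.SpecialLinearGroup.coe_mul, h2, Matrix.mul_neg, ← Matrix.SpecialLinearGroup.coe_mul,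
        inv_mul_cancel]
      ext i j
      fin_cases i <;> fin_cases j <;> simp

end Pool.Agent.Helper47.PTwo
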