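import Pool.Agent.Helper47.PTwo.Aut0

/-!
Elements of order `p` of `PSL_2(F)`, `p` the characteristic, are conjugate to unitriangular ones.
-/

namespace Pool.Agent.Helper47.PTwo

open Matrix CosetT

variable {F : Type*} [Field F]

theorem unip_normal (e : SL2 F) (x y z : F) (he : (e : M2 F) = !![1 + x, y; z, 1 - x])
    (hxy : x ^ 2 + y * z = 0) (hne : ¬ (x = 0 ∧ y = 0 ∧ z = 0)) :
    ∃ (k : SL2 F) (b : F), b ≠ 0 ∧ e = k * U b * k⁻¹ := by
  by_cases hz : z = 0
  · have hx : x = 0 := by
      rw [hz, mul_zero, add_zero] at hxy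
      exact pow_eq_zero_iff (two_ne_zero) |>.1 hxy
    have hy : y ≠ 0 := fun hy => hne ⟨hx, hy, hz⟩
    refine ⟨1, y, hy, ?_⟩
    rw [one_mul, inv_one, mul_one]
    apply SL_ext
    rw [he, hx, hz, U_coe, add_zero, sub_zero]
  · have hdk : (!![x, -z⁻¹; z, 0] : M2 F).det = 1 := by
      rw [det_fin_two_of]
      linear_combination inv_mul_cancel₀ hz
    obtain ⟨k, hk⟩ : ∃ k : SL2 F, (k : M2 F) = !![x, -z⁻¹; z, 0] := ⟨⟨_, hdk⟩, rfl⟩
    refine ⟨k, -z⁻¹, neg_ne_zero.2 (inv_ne_zero hz), ?_⟩
    rw [eq_mul_inv_iff_mul_eq]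
    apply SL_ext
    rw [Matrix.SpecialLinearGroup.coe_mul, Matrix.SpecialLinearGroup.coe_mul, he, U_coe, hk]
    ext i j
    rw [Matrix.mul_apply, Matrix.mul_apply, Fin.sum_univ_two, Fin.sum_univ_two]
    fin_cases i <;> fin_cases j
    · simp
      linear_combination hxy
    · simp
      field_simp
      ring
    · simp
      ring
    · simp [hz]

theorem pow_rank_one (N : M2 F) (hd : N.det = 0) (m : ℕ) :
    N ^ (m + 1) = (N.trace ^ m) • N := by
  induction m with
  | zero => rw [zero_add, pow_one, pow_zero, one_smul]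
  | succ m ih =>
    rw [pow_succ, ih, smul_mul_assoc]
    have h2 : N * N = N.trace • N := by
      rw [Matrix.det_fin_two] at hd
      ext i j
      rw [Matrix.mul_apply, Fin.sum_univ_two, Matrix.smul_apply, Matrix.trace_fin_two, smul_eq_mul]
      fin_cases i <;> fin_cases j
      · simp
        linear_combination (-1 : F) * hd
      · simp
        ring
      · simp
        ring
      · simp
        linear_combination (-1 : F) * hd
    rw [h2, smul_smul, pow_succ]

theorem unip_of_pow {p : ℕ} [Fact p.Prime] [CharP F p] (e : SL2 F) (h1 : (e : M2 F) ≠ 1)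
    (hp : (e : M2 F) ^ p = 1) : ∃ (k : SL2 F) (b : F), b ≠ 0 ∧ e = k * U b * k⁻¹ := by
  obtain ⟨N, hN⟩ : ∃ N : M2 F, N = (e : M2 F) - 1 := ⟨_, rfl⟩
  have hpp : p.Prime := Fact.out
  have hNp : N ^ p = 0 := by
    rw [hN, sub_pow_char_of_commute p (Commute.one_right _), hp, one_pow, sub_self]
  have hN0 : N ≠ 0 := by
    intro h
    apply h1
    rw [hN] at h
    exact sub_eq_zero.1 h
  have hdet : N.det = 0 := by
    have h2 : N.det ^ p = 0 := by
      rw [← Matrix.det_pow, hNp, Matrix.det_zero]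
    exact pow_eq_zero_iff hpp.ne_zero |>.1 h2
  have htr : N.trace = 0 := by
    have h3 := pow_rank_one N hdet (p - 1)
    rw [Nat.sub_add_cancel hpp.one_le, hNp] at h3
    have h4 := smul_eq_zero.1 h3.symm
    rcases h4 with h4 | h4
    · have : p - 1 ≠ 0 := by have := hpp.two_le; omega
      exact pow_eq_zero_iff this |>.1 h4
    · exact absurd h4 hN0
  have he : (e : M2 F) = N + 1 := by rw [hN]; abel
  rw [Matrix.trace_fin_two] at htr
  rw [Matrix.det_fin_two] at hdet
  apply unip_normal e (N 0 0) (N 0 1) (N 1 0)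
  · rw [he]
    ext i j
    fin_cases i <;> fin_cases j
    · simp [add_comm]
    · simp
    · simp
    · simp
      linear_combination htr
  · linear_combination N 0 0 * htr - hdet
  · rintro ⟨a1, a2, a3⟩
    apply hN0
    ext i j
    fin_cases i <;> fin_cases j
    · exact a1
    · exact a2
    · exact a3
    · show N 1 1 = 0
      linear_combination htr - a1

theorem unip_of_order {p : ℕ} [Fact p.Prime] [CharP F p] (g : SL2 F) (h1 : mk g ≠ 1)
    (hp : mk g ^ p = 1) : ∃ (k : SL2 F) (b : F), b ≠ 0 ∧ mk g = mk (k * U b * k⁻¹) := by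
  have hpp : p.Prime := Fact.out
  have h2 : mk (g ^ p) = mk (1 : SL2 F) := by
    have e1 : mk (g ^ p) = mk g ^ p := rfl
    rw [e1, hp]; rfl
  have hg1 : ¬ ((g : M2 F) = 1 ∨ (g : M2 F) = -1) := by
    intro h
    apply h1
    have h3 : mk g = mk (1 : SL2 F) := by
      rw [mk_eq_iff, Matrix.SpecialLinearGroup.coe_one]; exact h
    rw [h3]; rfl
  rw [mk_eq_iff, Matrix.SpecialLinearGroup.coe_one, Matrix.SpecialLinearGroup.coe_pow] at h2
  push Not at hg1
  by_cases h3 : (g : M2 F) ^ p = 1
  · obtain ⟨k, b, hb, hk⟩ := unip_of_pow g hg1.1 h3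
    exact ⟨k, b, hb, by rw [← hk]⟩
  · have h4 : (g : M2 F) ^ p = -1 := by
      rcases h2 with h2 | h2
      · exact absurd h2 h3
      · exact h2
    have hodd : Odd p := by
      rcases hpp.eq_two_or_odd' with h5 | h5
      · exfalso
        subst h5
        apply h3
        rw [h4]
        have h6 : (2 : M2 F) = 0 := by
          have := CharP.cast_eq_zero (M2 F) 2
          exact_mod_cast this
        have h7 : (1 : M2 F) + 1 = 0 := by rw [one_add_one_eq_two]; exact h6
        exact (eq_neg_of_add_eq_zero_left h7).symm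
      · exact h5
    obtain ⟨k, b, hb, hk⟩ := unip_of_pow (p := p) (-g)
      (by
        rw [Matrix.SpecialLinearGroup.coe_neg]
        intro h
        apply hg1.2
        rw [← h, neg_neg])
      (by rw [Matrix.SpecialLinearGroup.coe_neg, hodd.neg_pow, h4, neg_neg])
    refine ⟨k, b, hb, ?_⟩
    rw [← hk, mk_eq_iff]
    right
    rw [Matrix.SpecialLinearGroup.coe_neg, neg_neg]

end Pool.Agent.Helper47.PTwo
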