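import Pool.Agent.Helper49.Coset.Main

/-!
Two by two matrices: twisted conjugacy, the normal form with prescribed corner entry, and the
reduction of the statement on automorphisms to a statement on matrices.
-/

namespace Pool.Agent.Helper47.PTwo

open Matrix CosetT
open scoped Pointwise

variable {F : Type*} [Field F]

abbrev M2 (F : Type*) := Matrix (Fin 2) (Fin 2) F

theorem sconj_refl (σ : F ≃+* F) (X : M2 F) : SConj σ X X := by
  refine ⟨1, det_one, ?_⟩
  rw [Matrix.map_one _ (map_zero σ) (map_one σ), mul_one, one_mul]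

theorem sconj_trans {σ : F ≃+* F} {X Y Z : M2 F} (h1 : SConj σ X Y) (h2 : SConj σ Y Z) :
    SConj σ X Z := by
  obtain ⟨a, ha, h1⟩ := h1
  obtain ⟨b, hb, h2⟩ := h2
  refine ⟨a * b, by rw [det_mul, ha, hb, one_mul], ?_⟩
  rw [map_mul', ← mul_assoc, h1, mul_assoc, h2, mul_assoc]

theorem sconj_symm {σ : F ≃+* F} {X Y : M2 F} (h : SConj σ X Y) : SConj σ Y X := by
  obtain ⟨a, ha, h⟩ := h
  have hu : IsUnit a.det := by rw [ha]; exact isUnit_one
  have hus : IsUnit (a.map σ).det := by rw [map_det', ha, map_one]; exact isUnit_one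
  have e1 : (a⁻¹).map σ = (a.map σ)⁻¹ := by
    have h5 : (a⁻¹).map σ * (a.map σ) = 1 := by
      rw [← map_mul', Matrix.nonsing_inv_mul _ hu, Matrix.map_one _ (map_zero σ) (map_one σ)]
    exact (Matrix.inv_eq_left_inv h5).symm
  refine ⟨a⁻¹, by rw [Matrix.det_nonsing_inv, ha, Ring.inverse_one], ?_⟩
  rw [e1]
  have h2 : Y = a⁻¹ * (X * a.map σ) := by
    rw [h, ← mul_assoc, Matrix.nonsing_inv_mul _ hu, one_mul]
  rw [h2, mul_assoc, mul_assoc, Matrix.mul_nonsing_inv _ hus, mul_one]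

/-- twisted conjugacy by entries -/
theorem sconj_mk {σ : F ≃+* F} {X Y : M2 F} (a b c d : F) (hdet : a * d - b * c = 1)
    (h00 : X 0 0 * σ a + X 0 1 * σ c = a * Y 0 0 + b * Y 1 0)
    (h01 : X 0 0 * σ b + X 0 1 * σ d = a * Y 0 1 + b * Y 1 1)
    (h10 : X 1 0 * σ a + X 1 1 * σ c = c * Y 0 0 + d * Y 1 0)
    (h11 : X 1 0 * σ b + X 1 1 * σ d = c * Y 0 1 + d * Y 1 1) : SConj σ X Y := by
  refine ⟨!![a, b; c, d], by rw [Matrix.det_fin_two_of, hdet], ?_⟩
  ext i j
  rw [Matrix.mul_apply, Matrix.mul_apply, Fin.sum_univ_two, Fin.sum_univ_two]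
  fin_cases i <;> fin_cases j
  · simpa using h00
  · simpa using h01
  · simpa using h10
  · simpa using h11

/-- a vector which is moved out of its line -/
theorem exists_moved {τ : F ≃+* F} {B : M2 F} (hB : B.det ≠ 0)
    (h : (∃ z, τ z ≠ z) ∨ ∀ β : F, B ≠ β • (1 : M2 F)) :
    ∃ v1 v2 : F, v1 * (B 1 0 * τ v1 + B 1 1 * τ v2) - v2 * (B 0 0 * τ v1 + B 0 1 * τ v2) ≠ 0 := by
  by_contra hcon
  push Not at hcon
  have h1 := hcon 1 0
  have h2 := hcon 0 1
  have h3 := hcon 1 1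
  simp only [map_zero, map_one, mul_one, mul_zero, zero_mul, one_mul, add_zero, zero_add,
    sub_zero, zero_sub, neg_eq_zero] at h1 h2 h3
  have h5 : B 1 1 = B 0 0 := by linear_combination h3 - h1 + h2
  have h00 : B 0 0 ≠ 0 := by
    intro h0
    apply hB
    rw [Matrix.det_fin_two, h1, h0]; ring
  rcases h with ⟨z, hz⟩ | h
  · have h4 := hcon 1 z
    simp only [map_one, mul_one, one_mul] at h4
    have h6 : B 0 0 * (τ z - z) = 0 := by
      rw [h1, h2, h5] at h4
      linear_combination h4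
    rcases mul_eq_zero.1 h6 with h7 | h7
    · exact h00 h7
    · exact hz (sub_eq_zero.1 h7)
  · apply h (B 0 0)
    ext i j
    fin_cases i <;> fin_cases j
    · simp
    · simpa using h2
    · simpa using h1
    · simpa using h5

/-- the second entries of the normal form -/
noncomputable def nt (τ : F ≃+* F) (c c2 h : F) : F := (c2 - τ h * c) / τ c

/-- **normal form** with respect to a moved vector `v` -/
theorem normal_form {τ : F ≃+* F} {B : M2 F} {v1 v2 w1 w2 u1 u2 c c2 : F}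
    (hw1 : w1 = B 0 0 * τ v1 + B 0 1 * τ v2) (hw2 : w2 = B 1 0 * τ v1 + B 1 1 * τ v2)
    (hu1 : u1 = B 0 0 * τ w1 + B 0 1 * τ w2) (hu2 : u2 = B 1 0 * τ w1 + B 1 1 * τ w2)
    (hc : c = v1 * w2 - v2 * w1) (hc2 : c2 = v1 * u2 - v2 * u1) (hc0 : c ≠ 0) (h : F) :
    SConj τ B !![h, (h * nt τ c c2 h - B.det) / c; c, nt τ c c2 h] := by
  have hτc : τ c ≠ 0 := by simpa using hc0
  have hτc' : τ c = τ v1 * τ w2 - τ v2 * τ w1 := by rw [hc]; simp only [map_sub, map_mul]
  have hwu : w1 * u2 - w2 * u1 = B.det * τ c := by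
    rw [hτc', hu1, hu2, Matrix.det_fin_two]
    have e1 : w1 = B 0 0 * τ v1 + B 0 1 * τ v2 := hw1
    have e2 : w2 = B 1 0 * τ v1 + B 1 1 * τ v2 := hw2
    generalize τ w1 = W1
    generalize τ w2 = W2
    rw [e1, e2]
    ring
  set t := nt τ c c2 h with ht
  have htc : t * τ c = c2 - τ h * c := by
    rw [ht, nt, div_mul_cancel₀ _ hτc]
  apply sconj_mk v1 ((w1 - h * v1) / c) v2 ((w2 - h * v2) / c)
  · field_simp
    rw [hc]; ring
  · simp only [Matrix.of_apply, Matrix.cons_val', Matrix.cons_val_zero, Matrix.cons_val_one,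
      Matrix.cons_val_fin_one]
    rw [← hw1]
    field_simp
    ring
  · simp only [Matrix.of_apply, Matrix.cons_val', Matrix.cons_val_zero, Matrix.cons_val_one,
      Matrix.cons_val_fin_one, map_div₀, map_sub, map_mul]
    have e1 : B 0 0 * ((τ w1 - τ h * τ v1) / τ c) + B 0 1 * ((τ w2 - τ h * τ v2) / τ c) =
        (u1 - τ h * w1) / τ c := by
      rw [hu1, hw1]; field_simp
      simp only [map_add, map_mul]
      ring
    rw [e1, div_eq_iff hτc]
    have e2 : (v1 * ((h * t - B.det) / c) + (w1 - h * v1) / c * t) * τ c =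
        (w1 * (t * τ c) - B.det * τ c * v1) / c := by
      field_simp; ring
    rw [e2, htc, eq_div_iff hc0, ← hwu, hc2, hc]
    ring
  · simp only [Matrix.of_apply, Matrix.cons_val', Matrix.cons_val_zero, Matrix.cons_val_one,
      Matrix.cons_val_fin_one]
    rw [← hw2]
    field_simp
    ring
  · simp only [Matrix.of_apply, Matrix.cons_val', Matrix.cons_val_zero, Matrix.cons_val_one,
      Matrix.cons_val_fin_one, map_div₀, map_sub, map_mul]
    have e1 : B 1 0 * ((τ w1 - τ h * τ v1) / τ c) + B 1 1 * ((τ w2 - τ h * τ v2) / τ c) =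
        (u2 - τ h * w2) / τ c := by
      rw [hu2, hw2]; field_simp
      simp only [map_add, map_mul]
      ring
    rw [e1, div_eq_iff hτc]
    have e2 : (v2 * ((h * t - B.det) / c) + (w2 - h * v2) / c * t) * τ c =
        (w2 * (t * τ c) - B.det * τ c * v2) / c := by
      field_simp; ring
    rw [e2, htc, eq_div_iff hc0, ← hwu, hc2, hc]
    ring

/-- the normal form, short version -/
theorem normal_form' {τ : F ≃+* F} {B : M2 F} (hB : B.det ≠ 0)
    (hm : (∃ z, τ z ≠ z) ∨ ∀ β : F, B ≠ β • (1 : M2 F)) :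
    ∃ c c2 : F, c ≠ 0 ∧ ∀ h : F,
      SConj τ B !![h, (h * nt τ c c2 h - B.det) / c; c, nt τ c c2 h] := by
  obtain ⟨v1, v2, hv⟩ := exists_moved hB hm
  exact ⟨_, _, hv, fun h => normal_form rfl rfl rfl rfl rfl rfl hv h⟩

/-- **Reduction to matrices.** -/
theorem reduce (σ : F ≃+* F) (A : M2 F) (hA : A.det ≠ 0) (α : MulAut (PSLn 2 F))
    (hα : Ind α A σ) (X : M2 F) (μ : F) (hμ0 : μ ≠ 0) (hX : X.det = A.det * μ ^ 2)
    (hML : ∀ B : M2 F, B.det = X.det * σ X.det → ∃ (ε : F) (P Q : M2 F), ε ≠ 0 ∧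
      SConj σ P X ∧ SConj σ Q X ∧ SConj (σ.trans σ) (ε • B) (P * Q.map σ)) :
    ∃ x ∈ coset α, cls x * cls x = coset (α ^ 2) := by
  have hX0 : X.det ≠ 0 := by rw [hX]; exact mul_ne_zero hA (pow_ne_zero 2 hμ0)
  -- the element `w0`
  set W : M2 F := (μ⁻¹ • (A⁻¹ * X)).map σ.symm with hW
  have hWdet : W.det = 1 := by
    rw [hW, map_det', Matrix.det_smul, Matrix.det_mul, Matrix.det_nonsing_inv, hX,
      Fintype.card_fin, Ring.inverse_eq_inv']
    have : μ⁻¹ ^ 2 * (A.det⁻¹ * (A.det * μ ^ 2)) = 1 := by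
      field_simp
    rw [this, map_one]
  have hWσ : A * W.map σ = μ⁻¹ • X := by
    have e1 : W.map σ = μ⁻¹ • (A⁻¹ * X) := by
      ext i j; rw [hW, Matrix.map_apply, Matrix.map_apply, RingEquiv.apply_symm_apply]
    rw [e1, Matrix.mul_smul, ← mul_assoc, Matrix.mul_nonsing_inv _ (isUnit_iff_ne_zero.2 hA), one_mul]
  set w0 : SpecialLinearGroup (Fin 2) F := ⟨W, hWdet⟩ with hw0'
  have hxInd : Ind (α * MulAut.conj (mk w0)) X σ := by
    have h1 := Ind.mul hA (det_one_ne hWdet) hα (ind_conj w0)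
    have h2 := Ind.smul h1 hμ0
    have e1 : μ • (A * (w0 : M2 F).map σ) = X := by
      show μ • (A * W.map σ) = X
      rw [hWσ, smul_smul, mul_inv_cancel₀ hμ0, one_smul]
    have e2 : (RingEquiv.refl F).trans σ = σ := by ext z; rfl
    rw [e1, e2] at h2
    exact h2
  refine ⟨α * MulAut.conj (mk w0), ⟨mk w0, rfl⟩, cls_mul_eq ⟨mk w0, rfl⟩ ?_⟩
  rintro y ⟨g0, rfl⟩
  obtain ⟨g0, rfl⟩ := mk_surj g0
  -- the matrix of `y`
  have h1 := Ind.mul hA hA hα hα
  have hAA : (A * A.map σ).det ≠ 0 := by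
    rw [Matrix.det_mul, map_det']; exact mul_ne_zero hA (by simpa using hA)
  have h2 := Ind.mul hAA (det_one_ne g0.2) h1 (ind_conj g0)
  have hμσ : μ * σ μ ≠ 0 := mul_ne_zero hμ0 (by simpa using hμ0)
  have h3 := Ind.smul h2 hμσ
  have e2 : (RingEquiv.refl F).trans (σ.trans σ) = σ.trans σ := by ext z; rfl
  rw [e2, ← pow_two] at h3
  set B := (μ * σ μ) • (A * A.map σ * (g0 : M2 F).map (σ.trans σ)) with hB
  have hBdet : B.det = X.det * σ X.det := by
    rw [hB, Matrix.det_smul, Matrix.det_mul, Matrix.det_mul, map_det', map_det', g0.2, map_one,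
      mul_one, Fintype.card_fin, hX, map_mul, map_pow]
    ring
  obtain ⟨ε, P, Q, hε, hP, hQ, g, hg, hBg⟩ := hML B hBdet
  exact aut_level hX0 hxInd (Ind.smul h3 hε) hg hP hQ hBg

end Pool.Agent.Helper47.PTwo
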