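import Mathlib

/-!
Cardinality of a finite field with an automorphism, small fixed fields.
-/

namespace Pool.Agent.Helper47.PTwo

variable {F : Type*} [Field F]

/-- the fixed points of `σ` are the fixed points of the subgroup generated by `σ` -/
private theorem fixed_iff (σ : F ≃+* F) (z : F) :
    (∀ g : Subgroup.zpowers σ, g • z = z) ↔ σ z = z := by
  constructor
  · intro h
    exact h ⟨σ, Subgroup.mem_zpowers σ⟩
  · rintro h ⟨g, hg⟩
    have h1 : σ ∈ MulAction.stabilizer (F ≃+* F) z := h
    have h2 : Subgroup.zpowers σ ≤ MulAction.stabilizer (F ≃+* F) z := by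
      rw [Subgroup.zpowers_le]; exact h1
    exact h2 hg

theorem card_eq_pow [Finite F] (σ : F ≃+* F) :
    Nat.card F = Nat.card {z : F // σ z = z} ^ orderOf σ := by
  classical
  have hfin : Finite (F ≃+* F) := Finite.of_injective (fun e : F ≃+* F => (e : F → F))
    (fun a b h => RingEquiv.ext (fun x => congrFun h x))
  have : Fintype (Subgroup.zpowers σ) := Fintype.ofFinite _
  set K := FixedPoints.subfield (Subgroup.zpowers σ) F with hK
  have e : K ≃ {z : F // σ z = z} :=
    Equiv.subtypeEquivRight (fun z => fixed_iff σ z)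
  have h1 : Module.finrank K F = Nat.card (Subgroup.zpowers σ) := by
    rw [FixedPoints.finrank_eq_card (Subgroup.zpowers σ) F, Nat.card_eq_fintype_card]
  have h2 : Nat.card F = Nat.card K ^ Module.finrank K F := Module.natCard_eq_pow_finrank
  rw [h2, h1, Nat.card_congr e, Nat.card_zpowers]

/-- the subfield of fixed points has the characteristic of its cardinality -/
private theorem charP_of_fix [Finite F] (σ : F ≃+* F) {p : ℕ} (hp : p.Prime)
    (h : Nat.card {z : F // σ z = z} = p) : CharP F p := by
  classical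
  set K := FixedPoints.subfield (Subgroup.zpowers σ) F with hK
  have e : K ≃ {z : F // σ z = z} :=
    Equiv.subtypeEquivRight (fun z => fixed_iff σ z)
  have hc : Nat.card K = p := by rw [Nat.card_congr e, h]
  have hpK : (p : K) = 0 := by
    have := Fintype.ofFinite K
    have h3 : ((Nat.card K : ℕ) : K) = 0 := by
      rw [Nat.card_eq_fintype_card]
      exact Nat.cast_card_eq_zero K
    rwa [hc] at h3
  have hpF : (p : F) = 0 := by
    have := congrArg K.subtype hpK
    rwa [map_natCast, map_zero] at this
  have hd := ringChar.dvd hpF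
  rcases (Nat.dvd_prime hp).1 hd with h1 | h1
  · exact absurd h1 CharP.ringChar_ne_one
  · rw [← h1]
    exact ringChar.charP F

theorem fix_two [Finite F] (σ : F ≃+* F) (h : Nat.card {z : F // σ z = z} = 2) :
    CharP F 2 ∧ ∀ z, σ z = z → z = 0 ∨ z = 1 := by
  classical
  have : Fintype F := Fintype.ofFinite F
  refine ⟨charP_of_fix σ Nat.prime_two h, ?_⟩
  have h1 : (Finset.univ.filter (fun z : F => σ z = z)).card = 2 := by
    rw [← h, Nat.card_eq_fintype_card, Fintype.card_subtype]
  have h2 : ({0, 1} : Finset F) ⊆ Finset.univ.filter (fun z : F => σ z = z) := by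
    intro x hx
    simp only [Finset.mem_insert, Finset.mem_singleton] at hx
    rcases hx with rfl | rfl <;> simp
  have h3 := Finset.eq_of_subset_of_card_le h2 (by rw [h1, Finset.card_pair zero_ne_one])
  intro z hz
  have h4 : z ∈ Finset.univ.filter (fun z : F => σ z = z) := by simp [hz]
  rw [← h3] at h4
  simpa using h4

theorem fix_three [Finite F] (σ : F ≃+* F) (h : Nat.card {z : F // σ z = z} = 3) :
    CharP F 3 ∧ ∀ z, σ z = z → z = 0 ∨ z = 1 ∨ z = -1 := by
  classical
  have : Fintype F := Fintype.ofFinite F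
  have hch := charP_of_fix σ Nat.prime_three h
  refine ⟨hch, ?_⟩
  have h1 : (Finset.univ.filter (fun z : F => σ z = z)).card = 3 := by
    rw [← h, Nat.card_eq_fintype_card, Fintype.card_subtype]
  have h2 : ({0, 1, -1} : Finset F) ⊆ Finset.univ.filter (fun z : F => σ z = z) := by
    intro x hx
    simp only [Finset.mem_insert, Finset.mem_singleton] at hx
    rcases hx with rfl | rfl | rfl <;> simp
  have h20 : (2 : F) ≠ 0 := by
    intro h0
    have : (3 : ℕ) ∣ 2 := (CharP.cast_eq_zero_iff F 3 2).1 (by exact_mod_cast h0)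
    omega
  have hne1 : (0 : F) ≠ 1 := zero_ne_one
  have hne2 : (0 : F) ≠ -1 := by
    intro h0
    exact one_ne_zero (neg_eq_zero.1 h0.symm)
  have hne3 : (1 : F) ≠ -1 := by
    intro h0
    apply h20
    linear_combination h0
  have hcard : ({0, 1, -1} : Finset F).card = 3 := by
    rw [Finset.card_insert_of_notMem, Finset.card_pair hne3]
    simp only [Finset.mem_insert, Finset.mem_singleton]
    push Not
    exact ⟨hne1, hne2⟩
  have h3 := Finset.eq_of_subset_of_card_le h2 (by rw [h1, hcard])
  intro z hz
  have h4 : z ∈ Finset.univ.filter (fun z : F => σ z = z) := by simp [hz]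
  rw [← h3] at h4
  simpa using h4

theorem big_three [Finite F] (σ : F ≃+* F) (h : Nat.card {z : F // σ z = z} = 3)
    (hσ : ∃ z, σ (σ z) ≠ z) (h27 : Nat.card F ≠ 27) :
    81 ≤ Nat.card F ∧ ∃ z, σ (σ (σ z)) ≠ z := by
  have hfin : Finite (F ≃+* F) := Finite.of_injective (fun e : F ≃+* F => (e : F → F))
    (fun a b h => RingEquiv.ext (fun x => congrFun h x))
  have hc := card_eq_pow σ
  rw [h] at hc
  have hpos : 0 < orderOf σ := orderOf_pos σ
  have h2 : ¬ orderOf σ ∣ 2 := by
    intro hd
    rw [orderOf_dvd_iff_pow_eq_one] at hd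
    obtain ⟨z, hz⟩ := hσ
    apply hz
    have := DFunLike.congr_fun hd z
    rw [pow_two] at this
    exact this
  have hn1 : orderOf σ ≠ 1 := by
    intro h1; apply h2; rw [h1]; exact one_dvd _
  have hn2 : orderOf σ ≠ 2 := by
    intro h1; apply h2; rw [h1]
  have hn3 : orderOf σ ≠ 3 := by
    intro h1
    apply h27
    rw [hc, h1]; norm_num
  have h4 : 4 ≤ orderOf σ := by omega
  constructor
  · rw [hc]
    calc 81 = 3 ^ 4 := by norm_num
      _ ≤ 3 ^ orderOf σ := Nat.pow_le_pow_right (by norm_num) h4
  · by_contra hcon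
    push Not at hcon
    have h5 : σ ^ 3 = 1 := by
      apply RingEquiv.ext
      intro z
      have : (σ ^ 3) z = σ (σ (σ z)) := by
        rw [pow_succ, pow_two]; rfl
      rw [this, hcon]; rfl
    have h6 := orderOf_dvd_of_pow_eq_one h5
    have := Nat.le_of_dvd (by norm_num) h6
    omega

theorem sq_ratio [Finite F] (σ : F ≃+* F) (z : F) (hz : z ≠ 0) : IsSquare (z / σ z) := by
  classical
  have : Fintype F := Fintype.ofFinite F
  by_cases h2 : ringChar F = 2
  · exact FiniteField.isSquare_of_char_two h2 _
  have hσz : σ z ≠ 0 := by simpa using hz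
  rw [FiniteField.isSquare_iff h2 (div_ne_zero hz hσz), div_pow, ← map_pow]
  rcases FiniteField.pow_dichotomy h2 hz with h | h
  · rw [h, map_one, div_one]
  · rw [h, map_neg, map_one]
    exact div_self (neg_ne_zero.2 one_ne_zero)

end Pool.Agent.Helper47.PTwo
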