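import Pool.Agent.Helper47.PTwo.Base

/-!
A criterion for twisted conjugacy to the matrix `!![0, 1; y, 0]` for an involution `σ` with
`σ y = -y`: the determinant is `-y` and the trace of `P σ(P)` vanishes.
-/

namespace Pool.Agent.Helper47.PTwo

open Matrix CosetT

variable {F : Type*} [Field F]

theorem crit_ell_aux (σ : F ≃+* F) (h2 : ∀ x, σ (σ x) = x)
    (hN : ∀ k, σ k = k → ∃ x, x * σ x = k) (y : F) (hy : σ y = -y) (hy0 : y ≠ 0)
    (hc : (2 : F) ≠ 0) (P : M2 F) (p q r s : F) (hp : P 0 0 = p) (hq : P 0 1 = q)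
    (hr : P 1 0 = r) (hs : P 1 1 = s) (hd : p * s - q * r = -y) (w1 w2 : F)
    (hw : w1 ≠ 0 ∨ w2 ≠ 0)
    (e1 : (p * σ p + q * σ r) * w1 + (p * σ q + q * σ s) * w2 = y * w1)
    (e2 : (r * σ p + s * σ r) * w1 + (r * σ q + s * σ s) * w2 = y * w2) :
    SConj σ P !![0, 1; y, 0] := by
  obtain ⟨u1, hu1⟩ : ∃ u1, u1 = p * σ w1 + q * σ w2 := ⟨_, rfl⟩
  obtain ⟨u2, hu2⟩ : ∃ u2, u2 = r * σ w1 + s * σ w2 := ⟨_, rfl⟩
  have su1 : σ u1 = σ p * w1 + σ q * w2 := by rw [hu1, map_add, map_mul, map_mul, h2, h2]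
  have su2 : σ u2 = σ r * w1 + σ s * w2 := by rw [hu2, map_add, map_mul, map_mul, h2, h2]
  have i1 : p * σ u1 + q * σ u2 = y * w1 := by rw [su1, su2, ← e1]; ring
  have i2 : r * σ u1 + s * σ u2 = y * w2 := by rw [su1, su2, ← e2]; ring
  obtain ⟨δ, hδ⟩ : ∃ δ, δ = u1 * w2 - u2 * w1 := ⟨_, rfl⟩
  have hyy : ∀ l : F, l * σ l = y → False := by
    intro l hl
    have h3 := congrArg σ hl
    rw [map_mul, h2, hy] at h3
    apply hy0
    have h4 : 2 * y = 0 := by linear_combination (-1 : F) * hl + h3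
    rcases mul_eq_zero.1 h4 with h5 | h5
    · exact absurd h5 hc
    · exact h5
  have hδ0 : δ ≠ 0 := by
    intro h0
    rw [h0] at hδ
    have key : ∀ l : F, u1 = l * w1 → u2 = l * w2 → False := by
      intro l hl1 hl2
      have sl1 : σ u1 = σ l * σ w1 := by rw [hl1, map_mul]
      have sl2 : σ u2 = σ l * σ w2 := by rw [hl2, map_mul]
      rcases hw with hw | hw
      · apply hyy l
        have h5 : (l * σ l - y) * w1 = 0 := by
          rw [sl1, sl2] at i1
          linear_combination i1 + σ l * hu1 - σ l * hl1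
        rcases mul_eq_zero.1 h5 with h6 | h6
        · exact sub_eq_zero.1 h6
        · exact absurd h6 hw
      · apply hyy l
        have h5 : (l * σ l - y) * w2 = 0 := by
          rw [sl1, sl2] at i2
          linear_combination i2 + σ l * hu2 - σ l * hl2
        rcases mul_eq_zero.1 h5 with h6 | h6
        · exact sub_eq_zero.1 h6
        · exact absurd h6 hw
    rcases hw with hw1 | hw1
    · apply key (u1 / w1) (by field_simp)
      field_simp
      linear_combination hδ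
    · apply key (u2 / w2) _ (by field_simp)
      field_simp
      linear_combination (-1 : F) * hδ
  have sδ : σ δ = δ := by
    have h3 : σ δ = σ u1 * σ w2 - σ u2 * σ w1 := by rw [hδ, map_sub, map_mul, map_mul]
    have h4 : y * (σ δ - δ) = 0 := by
      have h5 : (p * s - q * r) * (σ u1 * σ w2 - σ u2 * σ w1) = y * w1 * u2 - y * w2 * u1 := by
        rw [← i1, ← i2, hu1, hu2]; ring
      rw [hd, ← h3] at h5
      linear_combination (-1 : F) * h5 - y * hδ
    rcases mul_eq_zero.1 h4 with h5 | h5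
    · exact absurd h5 hy0
    · exact sub_eq_zero.1 h5
  obtain ⟨z, hz⟩ := hN δ⁻¹ (by rw [map_inv₀, sδ])
  have hz1 : z * σ z * δ = 1 := by rw [hz, inv_mul_cancel₀ hδ0]
  apply sconj_mk (σ z * u1) (z * w1) (σ z * u2) (z * w2)
  · rw [hδ] at hz1
    linear_combination hz1
  · simp only [Matrix.of_apply, Matrix.cons_val', Matrix.cons_val_zero, Matrix.cons_val_one,
      Matrix.cons_val_fin_one, hp, hq, map_mul, h2]
    linear_combination z * i1
  · simp only [Matrix.of_apply, Matrix.cons_val', Matrix.cons_val_zero, Matrix.cons_val_one,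
      Matrix.cons_val_fin_one, hp, hq, map_mul]
    linear_combination (-(σ z)) * hu1
  · simp only [Matrix.of_apply, Matrix.cons_val', Matrix.cons_val_zero, Matrix.cons_val_one,
      Matrix.cons_val_fin_one, hr, hs, map_mul, h2]
    linear_combination z * i2
  · simp only [Matrix.of_apply, Matrix.cons_val', Matrix.cons_val_zero, Matrix.cons_val_one,
      Matrix.cons_val_fin_one, hr, hs, map_mul]
    linear_combination (-(σ z)) * hu2

theorem crit_ell (σ : F ≃+* F) (h2 : ∀ x, σ (σ x) = x)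
    (hN : ∀ k, σ k = k → ∃ x, x * σ x = k) (y : F) (hy : σ y = -y) (hy0 : y ≠ 0)
    (hc : (2 : F) ≠ 0) (P : M2 F) (hd : P.det = -y) (ht : (P * P.map σ).trace = 0) :
    CosetT.SConj σ P !![0, 1; y, 0] := by
  obtain ⟨p, hp⟩ : ∃ p, P 0 0 = p := ⟨_, rfl⟩
  obtain ⟨q, hq⟩ : ∃ q, P 0 1 = q := ⟨_, rfl⟩
  obtain ⟨r, hr⟩ : ∃ r, P 1 0 = r := ⟨_, rfl⟩
  obtain ⟨s, hs⟩ : ∃ s, P 1 1 = s := ⟨_, rfl⟩
  have hd' : p * s - q * r = -y := by
    rw [Matrix.det_fin_two, hp, hq, hr, hs] at hd
    exact hd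
  have hdσ : σ p * σ s - σ q * σ r = y := by
    have h3 := congrArg σ hd'
    rw [map_sub, map_mul, map_mul, map_neg, hy, neg_neg] at h3
    exact h3
  have ht' : (p * σ p + q * σ r) + (r * σ q + s * σ s) = 0 := by
    rw [Matrix.trace_fin_two, Matrix.mul_apply, Matrix.mul_apply, Fin.sum_univ_two,
      Fin.sum_univ_two] at ht
    simp only [Matrix.map_apply, hp, hq, hr, hs] at ht
    exact ht
  -- the four entries of `R = P σ(P)`
  obtain ⟨A, hA⟩ : ∃ A, A = p * σ p + q * σ r := ⟨_, rfl⟩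
  obtain ⟨B, hB⟩ : ∃ B, B = p * σ q + q * σ s := ⟨_, rfl⟩
  obtain ⟨C, hC⟩ : ∃ C, C = r * σ p + s * σ r := ⟨_, rfl⟩
  obtain ⟨D, hD⟩ : ∃ D, D = r * σ q + s * σ s := ⟨_, rfl⟩
  have htr : A + D = 0 := by rw [hA, hD]; exact ht'
  have hdet : A * D - B * C = -y ^ 2 := by
    have : A * D - B * C = (p * s - q * r) * (σ p * σ s - σ q * σ r) := by
      rw [hA, hB, hC, hD]; ring
    rw [this, hd', hdσ]; ring
  by_cases h0 : A + y ≠ 0 ∨ C ≠ 0
  · apply crit_ell_aux σ h2 hN y hy hy0 hc P p q r s hp hq hr hs hd' (A + y) C h0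
    · rw [← hA, ← hB]
      linear_combination A * htr - hdet
    · rw [← hC, ← hD]
      linear_combination C * htr
  · push Not at h0
    obtain ⟨hAy, hC0⟩ := h0
    apply crit_ell_aux σ h2 hN y hy hy0 hc P p q r s hp hq hr hs hd' B (D + y)
    · by_contra hcon
      push Not at hcon
      have h5 : 2 * y = 0 := by linear_combination hAy + hcon.2 - htr
      rcases mul_eq_zero.1 h5 with h6 | h6
      · exact hc h6
      · exact hy0 h6
    · rw [← hA, ← hB]
      linear_combination B * htr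
    · rw [← hC, ← hD]
      linear_combination D * htr - hdet

end Pool.Agent.Helper47.PTwo
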