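import Pool.Agent.Helper47.PTwo.Base

/-!
Two matrices of size two over a finite field of odd characteristic with the same determinant and
the same trace are conjugate by a matrix of determinant one, when the discriminant does not vanish.
-/

namespace Pool.Agent.Helper47.PTwo

open Matrix CosetT Polynomial

variable {F : Type*} [Field F]

/-- a non-degenerate binary quadratic form over a finite field represents one -/
theorem form_rep_one [Finite F] (hc : (2 : F) ≠ 0) (a b d : F) (hΔ : b ^ 2 - 4 * a * d ≠ 0) :
    ∃ x y : F, a * x ^ 2 + b * (x * y) + d * y ^ 2 = 1 := by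
  classical
  haveI := Fintype.ofFinite F
  by_cases ha : a = 0
  · have hb : b ≠ 0 := by
      intro hb
      apply hΔ
      rw [ha, hb]; ring
    refine ⟨(1 - d) / b, 1, ?_⟩
    rw [ha]
    field_simp
    ring
  · have hodd : Fintype.card F % 2 = 1 := by
      have h2 : ringChar F ≠ 2 := by
        intro h
        apply hc
        have := ringChar.Nat.cast_ringChar (R := F)
        rw [h] at this
        exact_mod_cast this
      exact FiniteField.odd_card_of_char_ne_two h2
    obtain ⟨X0, y, hXy⟩ := FiniteField.exists_root_sum_quadratic (R := F)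
      (f := X ^ 2 - C (4 * a)) (g := C (-(b ^ 2 - 4 * a * d)) * X ^ 2)
      (degree_X_pow_sub_C (by decide) _)
      (degree_C_mul_X_pow 2 (neg_ne_zero.2 hΔ)) hodd
    simp only [eval_sub, eval_pow, eval_X, eval_C, eval_mul] at hXy
    have h4 : 4 * a ≠ 0 := by
      have : (4 : F) = 2 * 2 := by norm_num
      rw [this]
      exact mul_ne_zero (mul_ne_zero hc hc) ha
    refine ⟨(X0 - b * y) / (2 * a), y, ?_⟩
    have h5 : (4 * a) * (a * ((X0 - b * y) / (2 * a)) ^ 2 + b * ((X0 - b * y) / (2 * a) * y) +
        d * y ^ 2) = (4 * a) * 1 := by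
      have e1 : (4 * a) * (a * ((X0 - b * y) / (2 * a)) ^ 2 + b * ((X0 - b * y) / (2 * a) * y) +
          d * y ^ 2) = X0 ^ 2 - (b ^ 2 - 4 * a * d) * y ^ 2 := by
        field_simp
        ring
      rw [e1]
      linear_combination hXy
    exact mul_left_cancel₀ h4 h5

/-- the normal form with lower left entry one and upper left entry zero -/
theorem conj_companion [Finite F] (hc : (2 : F) ≠ 0) (B : M2 F)
    (hdisc : B.trace ^ 2 ≠ 4 * B.det) :
    SConj (RingEquiv.refl F) B !![0, -B.det; 1, B.trace] := by
  have hΔ : (B 1 1 - B 0 0) ^ 2 - 4 * B 1 0 * (-B 0 1) ≠ 0 := by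
    intro h
    apply hdisc
    rw [Matrix.trace_fin_two, Matrix.det_fin_two]
    linear_combination h
  obtain ⟨x, y, hxy⟩ := form_rep_one hc _ _ _ hΔ
  have h1 := normal_form (τ := RingEquiv.refl F) (B := B) (v1 := x) (v2 := y) (c := 1)
    (c2 := B.trace) rfl rfl rfl rfl
    (by
      simp only [RingEquiv.refl_apply]
      linear_combination -hxy)
    (by
      simp only [RingEquiv.refl_apply]
      rw [Matrix.trace_fin_two]
      linear_combination (-(B 0 0 + B 1 1)) * hxy)
    one_ne_zero 0
  have e1 : nt (RingEquiv.refl F) 1 B.trace 0 = B.trace := by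
    simp [nt]
  rw [e1] at h1
  simpa using h1

theorem conj_of_trace [Finite F] (hc : (2 : F) ≠ 0) (B M : M2 F) (_hB : B.det ≠ 0)
    (hdet : M.det = B.det) (htr : M.trace = B.trace) (hdisc : B.trace ^ 2 ≠ 4 * B.det) :
    CosetT.SConj (RingEquiv.refl F) B M := by
  have h1 := conj_companion hc B hdisc
  have h2 := conj_companion hc M (by rw [hdet, htr]; exact hdisc)
  rw [hdet, htr] at h2
  exact sconj_trans h1 (sconj_symm h2)

end Pool.Agent.Helper47.PTwo
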