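import Pool.Agent.Helper47.PTwo.L2
import Pool.Agent.Helper47.PTwo.L3
import Pool.Agent.Helper47.PTwo.L4

/-!
Products of two elements twisted conjugate to `!![0, 1; y, 0]` (`σ` an involution, `σ y = -y`):
semisimple and central targets.
-/

namespace Pool.Agent.Helper47.PTwo

open Matrix CosetT

variable {F : Type*} [Field F]

/-- two numbers with given norms and given product -/
theorem split_norm (σ : F ≃+* F) (hN : ∀ k, σ k = k → ∃ x, x * σ x = k) (n m a : F)
    (hn : σ n = n) (hm : σ m = m) (h : n * m = a * σ a) :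
    ∃ x z : F, x * σ x = n ∧ z * σ z = m ∧ x * z = a := by
  by_cases ha : a = 0
  · rw [ha, zero_mul] at h
    rcases mul_eq_zero.1 h with h0 | h0
    · obtain ⟨z, hz⟩ := hN m hm
      exact ⟨0, z, by rw [h0, zero_mul], hz, by rw [ha, zero_mul]⟩
    · obtain ⟨x, hx⟩ := hN n hn
      exact ⟨x, 0, hx, by rw [h0, zero_mul], by rw [ha, mul_zero]⟩
  · have hσa : σ a ≠ 0 := by simpa using ha
    have hn0 : n ≠ 0 := by
      rintro rfl
      rw [zero_mul] at h
      exact mul_ne_zero ha hσa h.symm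
    obtain ⟨x, hx⟩ := hN n hn
    have hx0 : x ≠ 0 := by
      rintro rfl
      rw [zero_mul] at hx
      exact hn0 hx.symm
    have hσx : σ x ≠ 0 := by simpa using hx0
    refine ⟨x, a / x, hx, ?_, by field_simp⟩
    rw [map_div₀]
    have h3 : a / x * (σ a / σ x) = (a * σ a) / (x * σ x) := by field_simp
    rw [h3, hx, ← h]
    field_simp

theorem trans_self {σ : F ≃+* F} (h2 : ∀ x, σ (σ x) = x) : σ.trans σ = RingEquiv.refl F := by
  ext z
  exact h2 z

theorem ell_semisimple [Finite F] (σ : F ≃+* F) (h2 : ∀ x, σ (σ x) = x)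
    (hN : ∀ k, σ k = k → ∃ x, x * σ x = k) (y : F) (hy : σ y = -y) (hy0 : y ≠ 0)
    (hc : (2 : F) ≠ 0) (B : M2 F) (hB : B.det = -y ^ 2) (hdisc : B.trace ^ 2 ≠ 4 * B.det) :
    ∃ P Q : M2 F, CosetT.SConj σ P !![0, 1; y, 0] ∧ CosetT.SConj σ Q !![0, 1; y, 0] ∧
      CosetT.SConj (σ.trans σ) B (P * Q.map σ) := by
  have s2 : σ 2 = 2 := map_ofNat σ 2
  obtain ⟨t, ht⟩ : ∃ t, t = B.trace := ⟨_, rfl⟩
  obtain ⟨t0, ht0⟩ : ∃ t0, t0 = (t + σ t) / 2 := ⟨_, rfl⟩
  obtain ⟨t1, ht1⟩ : ∃ t1, t1 = (t - σ t) / (2 * y) := ⟨_, rfl⟩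
  have htt : t = t0 + y * t1 := by
    rw [ht0, ht1]; field_simp; ring
  have s0 : σ t0 = t0 := by
    rw [ht0, map_div₀, map_add, h2, s2, add_comm]
  have s1 : σ t1 = t1 := by
    rw [ht1, map_div₀, map_sub, map_mul, h2, s2, hy]
    field_simp
    ring
  obtain ⟨A, h, l, hh, hl, eh, el⟩ := two_norms σ h2 y hy hy0 hc t0 t1 s0 s1
  have sy2 : σ (y ^ 2) = y ^ 2 := by rw [map_pow, hy]; ring
  obtain ⟨g1, g4, e1, e4, e14⟩ := split_norm σ hN ((h + t1) / 2) ((h - t1) / 2) A
    (by rw [map_div₀, map_add, hh, s1, s2]) (by rw [map_div₀, map_sub, hh, s1, s2])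
    (by field_simp; linear_combination eh)
  obtain ⟨g2, g3, e2, e3, e23⟩ := split_norm σ hN ((t0 + l) / (2 * y ^ 2)) ((l - t0) / 2) (A - 1)
    (by rw [map_div₀, map_add, map_mul, hl, s0, s2, sy2])
    (by rw [map_div₀, map_sub, hl, s0, s2])
    (by field_simp; linear_combination el)
  have hg : g1 * g4 - g2 * g3 = 1 := by rw [e14, e23]; ring
  have hgσ : σ g1 * σ g4 - σ g2 * σ g3 = 1 := by
    rw [← map_mul, ← map_mul, ← map_sub, hg, map_one]
  -- the second factor
  obtain ⟨Q, hQ⟩ : ∃ Q : M2 F, Q = !![-(g1 * σ g3) + y * (g2 * σ g4), g1 * σ g1 - y * (g2 * σ g2);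
    -(g3 * σ g3) + y * (g4 * σ g4), g3 * σ g1 - y * (g4 * σ g2)] := ⟨_, rfl⟩
  have hQX : SConj σ Q !![0, 1; y, 0] := by
    rw [hQ]
    apply sconj_mk g1 g2 g3 g4 hg
    · simp only [Matrix.of_apply, Matrix.cons_val', Matrix.cons_val_zero, Matrix.cons_val_one,
        Matrix.cons_val_fin_one]
      linear_combination (y * g2) * hgσ
    · simp only [Matrix.of_apply, Matrix.cons_val', Matrix.cons_val_zero, Matrix.cons_val_one,
        Matrix.cons_val_fin_one]
      linear_combination g1 * hgσ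
    · simp only [Matrix.of_apply, Matrix.cons_val', Matrix.cons_val_zero, Matrix.cons_val_one,
        Matrix.cons_val_fin_one]
      linear_combination (y * g4) * hgσ
    · simp only [Matrix.of_apply, Matrix.cons_val', Matrix.cons_val_zero, Matrix.cons_val_one,
        Matrix.cons_val_fin_one]
      linear_combination g3 * hgσ
  refine ⟨!![0, 1; y, 0], Q, sconj_refl σ _, hQX, ?_⟩
  rw [trans_self h2]
  have hBd : B.det ≠ 0 := by rw [hB]; exact neg_ne_zero.2 (pow_ne_zero 2 hy0)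
  have hprod : !![0, 1; y, 0] * Q.map σ =
      !![-(σ g3 * g3) - y * (σ g4 * g4), σ g3 * g1 + y * (σ g4 * g2);
        y * (-(σ g1 * g3) - y * (σ g2 * g4)), y * (σ g1 * g1 + y * (σ g2 * g2))] := by
    rw [hQ]
    ext i j
    fin_cases i <;> fin_cases j
    · simp [Matrix.mul_apply, Fin.sum_univ_two, h2, hy]
      ring
    · simp [Matrix.mul_apply, Fin.sum_univ_two, h2, hy]
    · simp [Matrix.mul_apply, Fin.sum_univ_two, h2, hy]
      left
      ring
    · simp [Matrix.mul_apply, Fin.sum_univ_two, h2, hy]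
  apply conj_of_trace hc B _ hBd _ _ hdisc
  · rw [hprod, Matrix.det_fin_two_of, hB]
    linear_combination (-y ^ 2) * (σ g1 * σ g4 - σ g2 * σ g3) * hg - y ^ 2 * hgσ
  · rw [hprod, Matrix.trace_fin_two_of, ← ht, htt]
    have e1' : 2 * (g1 * σ g1) = h + t1 := by rw [e1]; field_simp
    have e4' : 2 * (g4 * σ g4) = h - t1 := by rw [e4]; field_simp
    have e3' : 2 * (g3 * σ g3) = l - t0 := by rw [e3]; field_simp
    have e2' : 2 * (y ^ 2 * (g2 * σ g2)) = t0 + l := by rw [e2]; field_simp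
    apply mul_left_cancel₀ hc
    linear_combination y * e1' - y * e4' - e3' + e2'

theorem ell_central (σ : F ≃+* F) (h2 : ∀ x, σ (σ x) = x)
    (hN : ∀ k, σ k = k → ∃ x, x * σ x = k) (y : F) (hy : σ y = -y) (hy0 : y ≠ 0)
    (hc : (2 : F) ≠ 0) (B : M2 F) (hB : B.det = -y ^ 2) (β : F) (hβ : B = β • (1 : M2 F)) :
    ∃ P Q : M2 F, CosetT.SConj σ P !![0, 1; y, 0] ∧ CosetT.SConj σ Q !![0, 1; y, 0] ∧
      CosetT.SConj (σ.trans σ) B (P * Q.map σ) := by
  have hβ2 : β ^ 2 = -y ^ 2 := by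
    rw [hβ, Matrix.det_smul, Matrix.det_one, Fintype.card_fin, mul_one] at hB
    exact hB
  have hσβ2 : σ β ^ 2 = -y ^ 2 := by
    rw [← map_pow, hβ2, map_neg, map_pow, hy]; ring
  refine ⟨!![0, 1; y, 0], !![0, -(σ β) / y; σ β, 0], sconj_refl σ _, ?_, ?_⟩
  · apply crit_ell σ h2 hN y hy hy0 hc
    · rw [Matrix.det_fin_two_of]
      field_simp
      linear_combination hσβ2
    · rw [Matrix.trace_fin_two]
      simp [Matrix.mul_apply, Fin.sum_univ_two, h2, hy]
      field_simp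
      ring
  · rw [trans_self h2]
    have hprod : !![0, 1; y, 0] * (!![0, -(σ β) / y; σ β, 0] : M2 F).map σ = B := by
      rw [hβ]
      ext i j
      fin_cases i <;> fin_cases j
      · simp [Matrix.mul_apply, Fin.sum_univ_two, h2]
      · simp [Matrix.mul_apply, Fin.sum_univ_two]
      · simp [Matrix.mul_apply, Fin.sum_univ_two]
      · simp [Matrix.mul_apply, Fin.sum_univ_two, h2, hy]
        field_simp
    rw [hprod]
    exact sconj_refl _ B

end Pool.Agent.Helper47.PTwo
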