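import Pool.Agent.Helper47.PTwo.Base
import Pool.Agent.Helper47.PTwo.L3

/-!
The non-scalar matrices with a double eigenvalue as twisted products of two members of the class
of `!![0, 1; y, 0]`.
-/

namespace Pool.Agent.Helper47.PTwo

open Matrix CosetT

variable {F : Type*} [Field F]

/-- the normal form of a non-scalar matrix for `τ = id` -/
theorem conj_corner (B : M2 F) (hB : B.det ≠ 0) (hns : ∀ β : F, B ≠ β • (1 : M2 F)) :
    ∃ c : F, c ≠ 0 ∧ ∀ h : F, SConj (RingEquiv.refl F) B
      !![h, (h * (B.trace - h) - B.det) / c; c, B.trace - h] := by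
  obtain ⟨v1, v2, hv⟩ := exists_moved (τ := RingEquiv.refl F) hB (Or.inr hns)
  refine ⟨_, hv, fun h => ?_⟩
  set c := v1 * (B 1 0 * (RingEquiv.refl F) v1 + B 1 1 * (RingEquiv.refl F) v2) -
    v2 * (B 0 0 * (RingEquiv.refl F) v1 + B 0 1 * (RingEquiv.refl F) v2) with hcdef
  have h1 := normal_form (τ := RingEquiv.refl F) (B := B) (v1 := v1) (v2 := v2) (c := c)
    (c2 := B.trace * c) rfl rfl rfl rfl hcdef
    (by
      rw [hcdef]
      simp only [RingEquiv.refl_apply]
      rw [Matrix.trace_fin_two]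
      ring)
    hv h
  have e1 : nt (RingEquiv.refl F) c (B.trace * c) h = B.trace - h := by
    rw [nt]
    simp only [RingEquiv.refl_apply]
    field_simp
  rw [e1] at h1
  exact h1

theorem ell_unipotent [Finite F] (σ : F ≃+* F) (h2 : ∀ x, σ (σ x) = x)
    (hN : ∀ k, σ k = k → ∃ x, x * σ x = k)
    (hS : ∀ z m, σ m = m → z * σ z = m ^ 2 → IsSquare z) (y : F) (hy : σ y = -y) (hy0 : y ≠ 0)
    (hc : (2 : F) ≠ 0) (B : M2 F) (hB : B.det = -y ^ 2) (hdisc : B.trace ^ 2 = 4 * B.det)
    (hns : ∀ β : F, B ≠ β • (1 : M2 F)) :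
    ∃ P Q : M2 F, CosetT.SConj σ P !![0, 1; y, 0] ∧ CosetT.SConj σ Q !![0, 1; y, 0] ∧
      CosetT.SConj (σ.trans σ) B (P * Q.map σ) := by
  have hBdet : B.det ≠ 0 := by
    rw [hB]; exact neg_ne_zero.2 (pow_ne_zero 2 hy0)
  obtain ⟨c, hc0, hcon⟩ := conj_corner B hBdet hns
  obtain ⟨β, hβt⟩ : ∃ β, B.trace = 2 * β := ⟨B.trace / 2, by field_simp⟩
  have h4 : (4 : F) ≠ 0 := by
    have : (4 : F) = 2 * 2 := by norm_num
    rw [this]; exact mul_ne_zero hc hc
  have hβ2 : β ^ 2 = -y ^ 2 := by
    have h5 : 4 * (β ^ 2 - -y ^ 2) = 0 := by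
      rw [hβt, hB] at hdisc
      linear_combination hdisc
    rcases mul_eq_zero.1 h5 with h6 | h6
    · exact absurd h6 h4
    · exact sub_eq_zero.1 h6
  have hβ0 : β ≠ 0 := by
    intro h
    rw [h] at hβ2
    have : y ^ 2 = 0 := by linear_combination hβ2
    exact hy0 (pow_eq_zero_iff (two_ne_zero) |>.1 this)
  -- `σ β = ε β`
  obtain ⟨ε, hε, hεβ⟩ : ∃ ε : F, ε ^ 2 = 1 ∧ σ β = ε * β := by
    have h5 : (σ β) ^ 2 = β ^ 2 := by
      rw [← map_pow, hβ2, map_neg, map_pow, hy]; ring
    have h6 : (σ β - β) * (σ β + β) = 0 := by linear_combination h5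
    rcases mul_eq_zero.1 h6 with h7 | h7
    · exact ⟨1, by ring, by linear_combination h7⟩
    · exact ⟨-1, by ring, by linear_combination h7⟩
  have hσε : σ ε = ε := by
    have h5 : (ε - 1) * (ε + 1) = 0 := by linear_combination hε
    rcases mul_eq_zero.1 h5 with h7 | h7
    · have : ε = 1 := by linear_combination h7
      rw [this, map_one]
    · have : ε = -1 := by linear_combination h7
      rw [this, map_neg, map_one]
  have hε0 : ε ≠ 0 := by
    intro h
    rw [h] at hε
    simp at hε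
  have hconβ := hcon β
  have e0 : B.trace - β = β := by rw [hβt]; ring
  have e00 : (β * β - B.det) / c = 0 := by
    rw [hB]
    have : β * β - -y ^ 2 = 0 := by linear_combination hβ2
    rw [this, zero_div]
  rw [e0, e00] at hconβ
  -- the parameters
  obtain ⟨a1, ha1⟩ : ∃ a1, a1 = (c * σ c) * (β * σ β) * y ^ 2 := ⟨_, rfl⟩
  have hσa1 : σ a1 = a1 := by
    rw [ha1]
    simp only [map_mul, map_pow, h2, hy]
    ring
  have hσc0 : σ c ≠ 0 := by simpa using hc0
  have ha10 : a1 ≠ 0 := by
    rw [ha1, hεβ]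
    exact mul_ne_zero (mul_ne_zero (mul_ne_zero hc0 hσc0) (mul_ne_zero hβ0 (mul_ne_zero hε0 hβ0)))
      (pow_ne_zero 2 hy0)
  obtain ⟨a, ha⟩ : ∃ a, a = 1 + a1 * y := ⟨_, rfl⟩
  have hσa : σ a = 1 - a1 * y := by
    rw [ha, map_add, map_one, map_mul, hσa1, hy]; ring
  have ha0 : a ≠ 0 := by
    intro h
    have h5 := hσa
    rw [h, map_zero] at h5
    rw [h] at ha
    have : (2 : F) = 0 := by linear_combination (-1 : F) * ha - h5
    exact hc this
  have hσa0 : σ a ≠ 0 := by simpa using ha0
  obtain ⟨w1, hw1⟩ := hN (4 * y ^ 2 * a1 / (a * σ a)) (by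
    rw [map_div₀, map_mul, map_mul, map_mul, map_pow, hσa1, h2, hy, map_ofNat]
    rw [mul_comm (σ a) a]
    ring)
  have hw1' : (w1 * σ w1) * (a * σ a) = 4 * y ^ 2 * a1 := by
    rw [hw1, div_mul_cancel₀ _ (mul_ne_zero ha0 hσa0)]
  have hσw : σ w1 ≠ 0 := by
    intro h
    rw [h, mul_zero, zero_mul] at hw1'
    exact (mul_ne_zero (mul_ne_zero h4 (pow_ne_zero 2 hy0)) ha10) hw1'.symm
  have hw0 : w1 ≠ 0 := by
    intro h
    rw [h, map_zero] at hσw
    exact hσw rfl
  have hσβ0 : σ β ≠ 0 := by simpa using hβ0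
  have key : y * (σ a ^ 2 - a ^ 2) = -(4 * y ^ 2 * a1) := by
    rw [hσa, ha]; ring
  refine ⟨!![0, a; y / a, w1], !![σ (β * w1 / y), y * σ a / σ β; σ β / σ a, 0], ?_, ?_, ?_⟩
  · apply crit_ell σ h2 hN y hy hy0 hc
    · rw [Matrix.det_fin_two_of]
      field_simp
      ring
    · rw [Matrix.trace_fin_two, Matrix.mul_apply, Matrix.mul_apply, Fin.sum_univ_two,
        Fin.sum_univ_two]
      simp only [Matrix.map_apply, Matrix.of_apply, Matrix.cons_val', Matrix.cons_val_zero,
        Matrix.cons_val_one, Matrix.cons_val_fin_one, map_div₀, hy, map_zero]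
      field_simp
      linear_combination hw1' + key
  · apply crit_ell σ h2 hN y hy hy0 hc
    · rw [Matrix.det_fin_two_of]
      field_simp
      ring
    · have q0 : σ (β * w1 / y) = -(ε * β * σ w1) / y := by
        rw [map_div₀, map_mul, hy, hεβ]
        field_simp
      have q1 : -(ε * β * σ w1) / y * (β * w1 / y) = ε * (w1 * σ w1) := by
        field_simp
        linear_combination (-1 : F) * hβ2
      have q2 : y * σ a / (ε * β) * (β / a) = ε * (y * σ a / a) := by
        field_simp
        linear_combination (-1 : F) * hε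
      have q3 : (ε * β) / σ a * (-y * a / β) = -(ε * (y * a / σ a)) := by
        field_simp
      have q4 : w1 * σ w1 + y * σ a / a - y * a / σ a = 0 := by
        field_simp
        linear_combination hw1' + key
      rw [Matrix.trace_fin_two, Matrix.mul_apply, Matrix.mul_apply, Fin.sum_univ_two,
        Fin.sum_univ_two]
      have t1 : σ (σ (β * w1 / y)) = β * w1 / y := h2 _
      have t2 : σ (σ β / σ a) = β / a := by rw [map_div₀, h2, h2]
      have t3 : σ (y * σ a / σ β) = -y * a / β := by rw [map_div₀, map_mul, h2, h2, hy]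
      simp only [Matrix.map_apply, Matrix.of_apply, Matrix.cons_val', Matrix.cons_val_zero,
        Matrix.cons_val_one, Matrix.cons_val_fin_one, map_zero, zero_mul, add_zero]
      rw [t1, t2, t3, q0, hεβ, q1, q2, q3]
      linear_combination ε * q4
  · have e1 : σ.trans σ = RingEquiv.refl F := by
      ext z
      exact h2 z
    rw [e1]
    refine sconj_trans hconβ ?_
    have e2 : (!![0, a; y / a, w1] : M2 F) *
        (!![σ (β * w1 / y), y * σ a / σ β; σ β / σ a, 0] : M2 F).map σ =
        !![β, 0; 2 * β * w1 / a, β] := by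
      ext i j
      rw [Matrix.mul_apply, Fin.sum_univ_two]
      fin_cases i <;> fin_cases j
      · simp [h2]
        field_simp
      · simp [h2]
      · simp [h2]
        field_simp
        ring
      · simp [h2, hy]
        field_simp
        linear_combination -hβ2
    rw [e2]
    obtain ⟨k, hk⟩ := hS (2 * β * w1 / (a * c)) (4 * (β * σ β) * y ^ 2 / (a * σ a)) (by
      simp only [map_div₀, map_mul, map_pow, h2, hy, map_ofNat]
      rw [mul_comm (σ a) a, mul_comm (σ β) β]
      ring) (by
      simp only [map_div₀, map_mul, map_ofNat]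
      field_simp
      linear_combination 4 * hw1' + 16 * y ^ 2 * ha1)
    have hk0 : k ≠ 0 := by
      intro h
      rw [h, mul_zero] at hk
      have : 2 * β * w1 / (a * c) ≠ 0 :=
        div_ne_zero (mul_ne_zero (mul_ne_zero hc hβ0) hw0) (mul_ne_zero ha0 hc0)
      exact this hk
    apply sconj_mk k 0 0 k⁻¹
    · field_simp
      ring
    · simp [mul_comm]
    · simp
    · simp only [Matrix.of_apply, Matrix.cons_val', Matrix.cons_val_zero, Matrix.cons_val_one,
        Matrix.cons_val_fin_one, RingEquiv.refl_apply, zero_mul, mul_zero, zero_add, add_zero]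
      have h5 : 2 * β * w1 / a = c * (k * k) := by
        rw [← hk]; field_simp
      rw [h5]
      field_simp
    · simp [mul_comm]

end Pool.Agent.Helper47.PTwo
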