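import Mathlib

/-!
Involutions of finite fields: surjectivity of the norm, Hilbert 90, squares.
-/

namespace Pool.Agent.Helper47.PTwo

variable {F : Type*} [Field F]

/-- Hilbert 90 for an involution -/
theorem hilb (σ : F ≃+* F) (h2 : ∀ x, σ (σ x) = x) (hne : ∃ z, σ z ≠ z) :
    ∀ x, x * σ x = 1 → ∃ z, z ≠ 0 ∧ z = x * σ z := by
  intro x hx
  have key : ∀ w, w + x * σ w = x * σ (w + x * σ w) := by
    intro w
    rw [map_add, map_mul, h2]
    linear_combination -w * hx
  by_contra hcon
  push Not at hcon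
  have h0 : ∀ w, w + x * σ w = 0 := by
    intro w
    by_contra hw
    exact hcon _ hw (key w)
  have h1 : x = -1 := by
    have := h0 1
    rw [map_one, mul_one] at this
    linear_combination this
  obtain ⟨z, hz⟩ := hne
  apply hz
  have := h0 z
  rw [h1] at this
  linear_combination -this

/-- the norm of an involution of a finite field is surjective onto the fixed field -/
theorem norm_surj [Finite F] (σ : F ≃+* F) (h2 : ∀ x, σ (σ x) = x) (hne : ∃ z, σ z ≠ z) :
    ∀ k, σ k = k → ∃ x, x * σ x = k := by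
  intro k hk
  by_cases hk0 : k = 0
  · exact ⟨0, by rw [zero_mul, hk0]⟩
  let τ : Fˣ →* Fˣ := Units.map (σ : F →* F)
  have hτ : ∀ u : Fˣ, ((τ u : Fˣ) : F) = σ (u : F) := fun u => rfl
  let N : Fˣ →* Fˣ := (MonoidHom.id Fˣ) * τ
  let D : Fˣ →* Fˣ := (MonoidHom.id Fˣ) / τ
  have hN : ∀ u : Fˣ, ((N u : Fˣ) : F) = u * σ (u : F) := fun u => rfl
  have hD : ∀ u : Fˣ, D u = u / τ u := fun u => rfl
  have e1 : D.range = N.ker := by
    apply le_antisymm
    · rintro _ ⟨u, rfl⟩
      rw [MonoidHom.mem_ker]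
      apply Units.ext
      have hu0 : (u : F) ≠ 0 := u.ne_zero
      have hσu0 : σ (u : F) ≠ 0 := by simp
      rw [hN, hD, Units.val_div_eq_div_val, hτ, map_div₀, h2, Units.val_one]
      field_simp
    · intro u hu
      rw [MonoidHom.mem_ker] at hu
      have hu' : (u : F) * σ (u : F) = 1 := by
        rw [← hN, hu, Units.val_one]
      obtain ⟨z, hz0, hz⟩ := hilb σ h2 hne _ hu'
      have hσz0 : σ z ≠ 0 := by simpa using hz0
      refine ⟨Units.mk0 z hz0, ?_⟩
      apply Units.ext
      rw [hD, Units.val_div_eq_div_val, hτ, Units.val_mk0, div_eq_iff hσz0]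
      exact hz
  have e2 : N.range ≤ D.ker := by
    rintro _ ⟨u, rfl⟩
    rw [MonoidHom.mem_ker, hD, div_eq_one]
    apply Units.ext
    rw [hτ, hN, map_mul, h2, mul_comm]
  have c1 : Nat.card N.range * Nat.card N.ker = Nat.card Fˣ := by
    rw [mul_comm, ← Subgroup.index_ker, Subgroup.card_mul_index]
  have c2 : Nat.card D.range * Nat.card D.ker = Nat.card Fˣ := by
    rw [mul_comm, ← Subgroup.index_ker, Subgroup.card_mul_index]
  have c3 : Nat.card D.ker = Nat.card N.range := by
    rw [e1] at c2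
    have h0 : 0 < Nat.card N.ker := Nat.card_pos
    nlinarith
  have e3 : N.range = D.ker := Subgroup.eq_of_le_of_card_ge e2 c3.le
  have hkm : Units.mk0 k hk0 ∈ D.ker := by
    rw [MonoidHom.mem_ker, hD, div_eq_one]
    apply Units.ext
    rw [hτ, Units.val_mk0, hk]
  rw [← e3] at hkm
  obtain ⟨u, hu⟩ := hkm
  exact ⟨u, by rw [← hN, hu, Units.val_mk0]⟩

/-- the product of two nonsquares of the fixed field is a square of the fixed field -/
theorem prod_nonsq [Finite F] (σ : F ≃+* F) (hc : (2 : F) ≠ 0) :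
    ∀ a b, σ a = a → σ b = b → (∀ k, σ k = k → k ^ 2 ≠ a) → (∀ k, σ k = k → k ^ 2 ≠ b) →
      ∃ k, σ k = k ∧ k ^ 2 = a * b := by
  classical
  intro a b ha hb hna hnb
  let K : Subfield F := (σ : F →+* F).eqLocusField (RingHom.id F)
  have hK : ∀ x : F, x ∈ K ↔ σ x = x := fun x => Iff.rfl
  have : Fintype K := Fintype.ofFinite K
  have hK2 : ringChar K ≠ 2 := by
    intro h
    apply hc
    have h1 : (2 : K) = 0 := by
      have := ringChar.spec K 2
      rw [h] at this
      exact_mod_cast this.2 dvd_rfl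
    have h2 := congrArg K.subtype h1
    rwa [map_ofNat, map_zero] at h2
  have key : ∀ c : F, ∀ hcK : σ c = c, (∀ k, σ k = k → k ^ 2 ≠ c) →
      quadraticChar K ⟨c, (hK c).2 hcK⟩ = -1 := by
    intro c hcK hn
    rw [quadraticChar_neg_one_iff_not_isSquare]
    rintro ⟨⟨r, hr⟩, h⟩
    apply hn r ((hK r).1 hr)
    have := congrArg (fun x : K => (x : F)) h
    simp only [MulMemClass.mk_mul_mk] at this
    rw [this]; ring
  have h1 := key a ha hna
  have h2 := key b hb hnb
  have ha0 : a ≠ 0 := by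
    rintro rfl
    exact hna 0 (map_zero σ) (by ring)
  have hb0 : b ≠ 0 := by
    rintro rfl
    exact hnb 0 (map_zero σ) (by ring)
  have h3 : quadraticChar K (⟨a, (hK a).2 ha⟩ * ⟨b, (hK b).2 hb⟩) = 1 := by
    rw [map_mul, h1, h2]; norm_num
  have h4 : (⟨a, (hK a).2 ha⟩ * ⟨b, (hK b).2 hb⟩ : K) ≠ 0 := by
    intro h
    have := congrArg (fun x : K => (x : F)) h
    simp only [MulMemClass.mk_mul_mk, ZeroMemClass.coe_zero] at this
    exact mul_ne_zero ha0 hb0 this
  rw [quadraticChar_one_iff_isSquare h4] at h3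
  obtain ⟨⟨r, hr⟩, h⟩ := h3
  refine ⟨r, (hK r).1 hr, ?_⟩
  have := congrArg (fun x : K => (x : F)) h
  simp only [MulMemClass.mk_mul_mk] at this
  rw [this]; ring

/-- every element of the fixed field is a square -/
theorem isSquare_of_fixed [Finite F] (σ : F ≃+* F) (h2 : ∀ x, σ (σ x) = x)
    (hne : ∃ z, σ z ≠ z) : ∀ k, σ k = k → IsSquare k := by
  classical
  intro k hk
  have : Fintype F := Fintype.ofFinite F
  by_cases hc : (2 : F) = 0
  · apply FiniteField.isSquare_of_char_two
    have h3 : ringChar F ∣ 2 := (ringChar.spec F 2).1 (by exact_mod_cast hc)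
    rcases (Nat.dvd_prime Nat.prime_two).1 h3 with h | h
    · exfalso
      have h4 := ringChar.spec F 1
      rw [h] at h4
      have h5 := h4.2 dvd_rfl
      exact one_ne_zero (by exact_mod_cast h5 : (1 : F) = 0)
    · exact h
  obtain ⟨z, hz⟩ := hne
  set y := z - σ z with hy
  have hy0 : y ≠ 0 := by
    intro h
    exact hz (sub_eq_zero.1 h).symm
  have hσy : σ y = -y := by
    rw [hy, map_sub, h2]; ring
  by_cases hks : ∃ m, σ m = m ∧ m ^ 2 = k
  · obtain ⟨m, -, hm⟩ := hks
    exact ⟨m, by rw [← hm]; ring⟩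
  push Not at hks
  obtain ⟨m, hm, hm2⟩ := prod_nonsq σ hc k (y ^ 2) hk (by rw [map_pow, hσy]; ring) hks (by
    intro m hm h
    have h3 : (m - y) * (m + y) = 0 := by linear_combination h
    rcases mul_eq_zero.1 h3 with h4 | h4
    · have h5 : m = y := sub_eq_zero.1 h4
      rw [h5, hσy] at hm
      exact mul_ne_zero hc hy0 (by linear_combination -hm)
    · have h5 : m = -y := by linear_combination h4
      rw [h5, map_neg, hσy] at hm
      exact mul_ne_zero hc hy0 (by linear_combination hm))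
  refine ⟨m / y, ?_⟩
  field_simp
  linear_combination -hm2

/-- an element whose norm is the square of a fixed element is a square -/
theorem sq_of_norm [Finite F] (σ : F ≃+* F) (h2 : ∀ x, σ (σ x) = x) (hne : ∃ z, σ z ≠ z) :
    ∀ z m, σ m = m → z * σ z = m ^ 2 → IsSquare z := by
  intro z m hm hz
  by_cases hz0 : z = 0
  · rw [hz0]; exact IsSquare.zero
  have hσz0 : σ z ≠ 0 := by simpa using hz0
  have hm0 : m ≠ 0 := by
    rintro rfl
    exact mul_ne_zero hz0 hσz0 (by rw [hz]; ring)
  obtain ⟨x, hx⟩ := norm_surj σ h2 hne m hm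
  have hx0 : x ≠ 0 := by
    rintro rfl
    exact hm0 (by rw [← hx, zero_mul])
  have hσx0 : σ x ≠ 0 := by simpa using hx0
  have h1 : (z / x ^ 2) * σ (z / x ^ 2) = 1 := by
    rw [map_div₀, map_pow]
    field_simp
    rw [hz, ← hx]; ring
  obtain ⟨w, hw0, hw⟩ := hilb σ h2 hne _ h1
  have hσw0 : σ w ≠ 0 := by simpa using hw0
  obtain ⟨r, hr⟩ := isSquare_of_fixed σ h2 hne (w * σ w) (by rw [map_mul, h2, mul_comm])
  have hr0 : r ≠ 0 := by
    rintro rfl
    exact mul_ne_zero hw0 hσw0 (by rw [hr, zero_mul])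
  refine ⟨x * w / r, ?_⟩
  have h3 : z * σ w = w * x ^ 2 := by
    have h4 := hw
    field_simp at h4
    linear_combination -h4
  have h5 : z * (r * r) = (x * w) * (x * w) := by
    rw [← hr]; linear_combination w * h3
  field_simp
  linear_combination h5

end Pool.Agent.Helper47.PTwo
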