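import Mathlib

/-! # Two trace conditions on squares in characteristic 3 -/

set_option autoImplicit false

namespace Pool.Agent.Helper47.PTwo

open Finset

variable {F : Type*} [Field F]

private lemma q1_sum_ne [Fintype F] (ψ : AddChar F ℂ) (hψ : ψ ≠ 1) {a : F} (ha : a ≠ 0) :
    ∑ y : F, ψ (a * y) = 0 := by
  have h1 : ∑ y : F, ψ (a * y) = ∑ y : F, ψ y :=
    Fintype.sum_equiv (Equiv.mulLeft₀ a ha) _ _ (fun y => rfl)
  rw [h1]
  exact AddChar.sum_eq_zero_of_ne_one hψ

private lemma q1_sq [Fintype F] [DecidableEq F] (ψ : AddChar F ℂ) (hψ : ψ ≠ 1) (h2 : (2 : F) ≠ 0)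
    {C : F} (hC : C ≠ 0) : ‖∑ x : F, ψ (C * x ^ 2)‖ ^ 2 = (Fintype.card F : ℝ) := by
  have hkey : (∑ x : F, ψ (C * x ^ 2)) * (starRingEnd ℂ) (∑ x : F, ψ (C * x ^ 2)) =
      (Fintype.card F : ℂ) := by
    rw [map_sum, Finset.sum_mul_sum, Finset.sum_comm]
    have h3 : ∀ y : F, ∑ x : F, ψ (C * x ^ 2) * (starRingEnd ℂ) (ψ (C * y ^ 2)) =
        ∑ u : F, ψ (C * u ^ 2) * ψ ((2 * C * u) * y) := by
      intro y
      refine Fintype.sum_equiv (Equiv.subRight y) _ _ (fun x => ?_)
      rw [← AddChar.map_neg_eq_conj, ← AddChar.map_add_eq_mul, ← AddChar.map_add_eq_mul]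
      congr 1
      simp only [Equiv.subRight_apply]
      ring
    simp only [h3]
    rw [Finset.sum_comm]
    have h4 : ∀ u : F, ∑ y : F, ψ (C * u ^ 2) * ψ ((2 * C * u) * y) =
        if u = 0 then (Fintype.card F : ℂ) else 0 := by
      intro u
      rw [← Finset.mul_sum]
      split_ifs with hu
      · rw [hu]
        simp
      · rw [q1_sum_ne ψ hψ (mul_ne_zero (mul_ne_zero h2 hC) hu), mul_zero]
    simp only [h4]
    simp
  rw [Complex.mul_conj, Complex.normSq_eq_norm_sq] at hkey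
  exact_mod_cast hkey

theorem two_quadr [Fintype F] [CharP F 3] (h81 : 81 ≤ Fintype.card F) (tr : F →+ ZMod 3)
    (htr : Function.Surjective tr) (A B : F) (hA : A ≠ 0) (hB : B ≠ 0) (hAB : A ≠ B) :
    ∃ x : F, tr (A * x ^ 2) = -1 ∧ tr (B * x ^ 2) = 1 := by
  classical
  letI : Algebra (ZMod 3) F := ZMod.algebra F 3
  have h2 : (2 : F) ≠ 0 := by
    intro h
    have h3 : (3 : F) = 0 := by
      have := CharP.cast_eq_zero F 3
      exact_mod_cast this
    have h1 : (1 : F) = 0 := by linear_combination h3 - h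
    exact one_ne_zero h1
  by_contra hcon
  push Not at hcon
  set e : AddChar (ZMod 3) ℂ := ZMod.stdAddChar with he
  have hprim : e.IsPrimitive := ZMod.isPrimitive_stdAddChar 3
  set ψ : AddChar F ℂ := e.compAddMonoidHom tr with hψ
  have hψa : ∀ z, ψ z = e (tr z) := fun z => rfl
  have hψ1 : ψ ≠ 1 := by
    intro h
    obtain ⟨z, hz⟩ := htr 1
    have h1 : ψ z = 1 := by rw [h]; rfl
    rw [hψa, hz] at h1
    have hinj := ZMod.injective_stdAddChar (N := 3)
    have h0 : e 0 = 1 := AddChar.map_zero_eq_one e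
    have : (1 : ZMod 3) = 0 := hinj (by rw [← he]; rw [h1, h0])
    exact absurd this (by decide)
  have horth : ∀ z : ZMod 3, ∑ b : ZMod 3, e (b * z) = if z = 0 then 3 else 0 := by
    intro z
    rw [AddChar.sum_mulShift z hprim]
    simp
  set N : F → ℂ := fun D => ∑ x : F, ψ (D * x ^ 2) with hN
  have hN0 : N 0 = (Fintype.card F : ℂ) := by
    simp [hN]
  have hq : (0 : ℝ) < (Fintype.card F : ℝ) := by
    have : (81 : ℝ) ≤ (Fintype.card F : ℝ) := by exact_mod_cast h81
    linarith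
  have hN1 : ∀ D : F, D ≠ 0 → ‖N D‖ = √(Fintype.card F : ℝ) := by
    intro D hD
    have := q1_sq ψ hψ1 h2 hD
    rw [← this, Real.sqrt_sq (norm_nonneg _)]
  have hsum : ∑ p : ZMod 3 × ZMod 3, e (p.1 - p.2) * N (p.1 • A + p.2 • B) = 0 := by
    have h5 : ∀ p : ZMod 3 × ZMod 3, e (p.1 - p.2) * N (p.1 • A + p.2 • B) =
        ∑ x : F, e (p.1 * (tr (A * x ^ 2) + 1)) * e (p.2 * (tr (B * x ^ 2) - 1)) := by
      rintro ⟨b1, b2⟩
      simp only [hN]
      rw [Finset.mul_sum]
      refine Finset.sum_congr rfl (fun x _ => ?_)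
      rw [hψa, ← AddChar.map_add_eq_mul, ← AddChar.map_add_eq_mul]
      congr 1
      have h6 : (b1 • A + b2 • B) * x ^ 2 = b1 • (A * x ^ 2) + b2 • (B * x ^ 2) := by
        rw [add_mul, smul_mul_assoc, smul_mul_assoc]
      rw [h6, map_add, ZMod.map_smul, ZMod.map_smul, smul_eq_mul, smul_eq_mul]
      ring
    simp only [h5]
    rw [Finset.sum_comm]
    refine Finset.sum_eq_zero (fun x _ => ?_)
    rw [Fintype.sum_prod_type]
    simp only
    have h7 : ∀ b1 : ZMod 3, ∑ b2 : ZMod 3,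
        e (b1 * (tr (A * x ^ 2) + 1)) * e (b2 * (tr (B * x ^ 2) - 1)) =
        e (b1 * (tr (A * x ^ 2) + 1)) * ∑ b2 : ZMod 3, e (b2 * (tr (B * x ^ 2) - 1)) := by
      intro b1
      rw [Finset.mul_sum]
    simp only [h7]
    rw [← Finset.sum_mul, horth, horth]
    by_cases hx : tr (A * x ^ 2) = -1
    · have := hcon x hx
      rw [if_neg (c := tr (B * x ^ 2) - 1 = 0)]
      · ring
      · intro h
        exact this (by linear_combination h)
    · rw [if_neg (c := tr (A * x ^ 2) + 1 = 0)]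
      · ring
      · intro h
        exact hx (by linear_combination h)
  -- the vanishing pairs
  have hdiag : ∀ p : ZMod 3 × ZMod 3, p.1 • A + p.2 • B = 0 → p.1 = p.2 := by
    rintro ⟨b1, b2⟩ h
    simp only at h ⊢
    have h3 : (3 : F) = 0 := by
      have := CharP.cast_eq_zero F 3
      exact_mod_cast this
    simp only [Algebra.smul_def] at h
    have c0 : algebraMap (ZMod 3) F 0 = 0 := map_zero _
    have c1 : algebraMap (ZMod 3) F 1 = 1 := map_one _
    have c2 : algebraMap (ZMod 3) F 2 = 2 := by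
      have : (2 : ZMod 3) = 1 + 1 := by decide
      rw [this, map_add, map_one]; norm_num
    have hb : ∀ b : ZMod 3, b = 0 ∨ b = 1 ∨ b = 2 := by decide
    rcases hb b1 with rfl | rfl | rfl <;> rcases hb b2 with rfl | rfl | rfl <;>
      simp only [c0, c1, c2, zero_mul, one_mul, add_zero, zero_add] at h ⊢
    · exact absurd h hB
    · exact absurd ((mul_eq_zero.1 h).resolve_left h2) hB
    · exact absurd h hA
    · exfalso
      apply hAB
      linear_combination h - B * h3
    · exact absurd ((mul_eq_zero.1 h).resolve_left h2) hA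
    · exfalso
      apply hAB
      linear_combination (-1 : F) * h + A * h3
  have hre : ∀ p : ZMod 3 × ZMod 3, p ≠ 0 →
      -√(Fintype.card F : ℝ) ≤ (e (p.1 - p.2) * N (p.1 • A + p.2 • B)).re := by
    intro p _
    have hs : 0 ≤ √(Fintype.card F : ℝ) := Real.sqrt_nonneg _
    by_cases hD : p.1 • A + p.2 • B = 0
    · rw [hD, hN0, hdiag p hD, sub_self, AddChar.map_zero_eq_one, one_mul]
      simp only [Complex.natCast_re]
      linarith
    · have h8 : ‖e (p.1 - p.2) * N (p.1 • A + p.2 • B)‖ = √(Fintype.card F : ℝ) := by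
        rw [norm_mul, hN1 _ hD, AddChar.norm_apply, one_mul]
      rw [← h8]
      have := (abs_le.1 (Complex.abs_re_le_norm (e (p.1 - p.2) * N (p.1 • A + p.2 • B)))).1
      exact this
  have htot := congrArg Complex.re hsum
  rw [Complex.re_sum, Complex.zero_re, ← Finset.add_sum_erase _ _ (Finset.mem_univ (0 : ZMod 3 × ZMod 3))] at htot
  have h0 : (e ((0 : ZMod 3 × ZMod 3).1 - (0 : ZMod 3 × ZMod 3).2) *
      N ((0 : ZMod 3 × ZMod 3).1 • A + (0 : ZMod 3 × ZMod 3).2 • B)).re = (Fintype.card F : ℝ) := by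
    simp only [Prod.fst_zero, Prod.snd_zero, sub_self, zero_smul, add_zero, hN0]
    rw [AddChar.map_zero_eq_one, one_mul]
    simp
  rw [h0] at htot
  have hcard : ((Finset.univ : Finset (ZMod 3 × ZMod 3)).erase 0).card = 8 := by decide
  have hlow := Finset.card_nsmul_le_sum ((Finset.univ : Finset (ZMod 3 × ZMod 3)).erase 0)
    (fun p => (e (p.1 - p.2) * N (p.1 • A + p.2 • B)).re) (-√(Fintype.card F : ℝ))
    (fun p hp => hre p (Finset.ne_of_mem_erase hp))
  rw [hcard, nsmul_eq_mul] at hlow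
  have h9 : (Fintype.card F : ℝ) ≤ 8 * √(Fintype.card F : ℝ) := by
    push_cast at hlow
    linarith
  have h10 : √(Fintype.card F : ℝ) ^ 2 = (Fintype.card F : ℝ) := Real.sq_sqrt hq.le
  have h11 : (9 : ℝ) ≤ √(Fintype.card F : ℝ) := by
    rw [show (9 : ℝ) = √81 by rw [show (81 : ℝ) = 9 ^ 2 by norm_num]; rw [Real.sqrt_sq (by norm_num)]]
    exact Real.sqrt_le_sqrt (by exact_mod_cast h81)
  nlinarith

end Pool.Agent.Helper47.PTwo
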