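import Mathlib

/-! # One trace condition on squares in characteristic 3: many solutions -/

set_option autoImplicit false

namespace Pool.Agent.Helper47.PTwo

open Finset

variable {F : Type*} [Field F]

private lemma q1b_sum_ne [Fintype F] (ψ : AddChar F ℂ) (hψ : ψ ≠ 1) {a : F} (ha : a ≠ 0) :
    ∑ y : F, ψ (a * y) = 0 := by
  have h1 : ∑ y : F, ψ (a * y) = ∑ y : F, ψ y :=
    Fintype.sum_equiv (Equiv.mulLeft₀ a ha) _ _ (fun y => rfl)
  rw [h1]
  exact AddChar.sum_eq_zero_of_ne_one hψ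

private lemma q1b_sq [Fintype F] [DecidableEq F] (ψ : AddChar F ℂ) (hψ : ψ ≠ 1)
    (h2 : (2 : F) ≠ 0) {C : F} (hC : C ≠ 0) :
    ‖∑ x : F, ψ (C * x ^ 2)‖ ^ 2 = (Fintype.card F : ℝ) := by
  have hkey : (∑ x : F, ψ (C * x ^ 2)) * (starRingEnd ℂ) (∑ x : F, ψ (C * x ^ 2)) =
      (Fintype.card F : ℂ) := by
    rw [map_sum, Finset.sum_mul_sum, Finset.sum_comm]
    have h3 : ∀ y : F, ∑ x : F, ψ (C * x ^ 2) * (starRingEnd ℂ) (ψ (C * y ^ 2)) =
        ∑ u : F, ψ (C * u ^ 2) * ψ ((2 * C * u) * y) := by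
      intro y
      refine Fintype.sum_equiv (Equiv.subRight y) _ _ (fun x => ?_)
      rw [← AddChar.map_neg_eq_conj, ← AddChar.map_add_eq_mul, ← AddChar.map_add_eq_mul]
      congr 1
      simp only [Equiv.subRight_apply]
      ring
    simp only [h3]
    rw [Finset.sum_comm]
    have h4 : ∀ u : F, ∑ y : F, ψ (C * u ^ 2) * ψ ((2 * C * u) * y) =
        if u = 0 then (Fintype.card F : ℂ) else 0 := by
      intro u
      rw [← Finset.mul_sum]
      split_ifs with hu
      · rw [hu]
        simp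
      · rw [q1b_sum_ne ψ hψ (mul_ne_zero (mul_ne_zero h2 hC) hu), mul_zero]
    simp only [h4]
    simp
  rw [Complex.mul_conj, Complex.normSq_eq_norm_sq] at hkey
  exact_mod_cast hkey

theorem many_quadr [Fintype F] [CharP F 3] (h27 : 27 ≤ Fintype.card F) (tr : F →+ ZMod 3)
    (htr : Function.Surjective tr) (A : F) (hA : A ≠ 0) (e : ZMod 3) :
    ∃ x y : F, tr (A * x ^ 2) = e ∧ tr (A * y ^ 2) = e ∧ x ^ 2 ≠ y ^ 2 := by
  classical
  letI : Algebra (ZMod 3) F := ZMod.algebra F 3
  have h2 : (2 : F) ≠ 0 := by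
    intro h
    have h3 : (3 : F) = 0 := by
      have := CharP.cast_eq_zero F 3
      exact_mod_cast this
    have h1 : (1 : F) = 0 := by linear_combination h3 - h
    exact one_ne_zero h1
  by_contra hcon
  push Not at hcon
  set f : AddChar (ZMod 3) ℂ := ZMod.stdAddChar with hf
  have hprim : f.IsPrimitive := ZMod.isPrimitive_stdAddChar 3
  set ψ : AddChar F ℂ := f.compAddMonoidHom tr with hψ
  have hψa : ∀ z, ψ z = f (tr z) := fun z => rfl
  have hψ1 : ψ ≠ 1 := by
    intro h
    obtain ⟨z, hz⟩ := htr 1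
    have h1 : ψ z = 1 := by rw [h]; rfl
    rw [hψa, hz] at h1
    have hinj := ZMod.injective_stdAddChar (N := 3)
    have h0 : f 0 = 1 := AddChar.map_zero_eq_one f
    have : (1 : ZMod 3) = 0 := hinj (by rw [← hf]; rw [h1, h0])
    exact absurd this (by decide)
  have horth : ∀ z : ZMod 3, ∑ b : ZMod 3, f (b * z) = if z = 0 then 3 else 0 := by
    intro z
    rw [AddChar.sum_mulShift z hprim]
    simp
  set N : F → ℂ := fun D => ∑ x : F, ψ (D * x ^ 2) with hN
  have hN0 : N 0 = (Fintype.card F : ℂ) := by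
    simp [hN]
  have hN1 : ∀ D : F, D ≠ 0 → ‖N D‖ = √(Fintype.card F : ℝ) := by
    intro D hD
    have := q1b_sq ψ hψ1 h2 hD
    rw [← this, Real.sqrt_sq (norm_nonneg _)]
  set S : Finset F := Finset.univ.filter (fun x => tr (A * x ^ 2) = e) with hS
  have hScard : S.card ≤ 2 := by
    by_cases hne : S.Nonempty
    · obtain ⟨x0, hx0⟩ := hne
      have hx0' : tr (A * x0 ^ 2) = e := (Finset.mem_filter.1 hx0).2
      have hsub : S ⊆ {x0, -x0} := by
        intro y hy
        have hy' : tr (A * y ^ 2) = e := (Finset.mem_filter.1 hy).2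
        have := hcon y x0 hy' hx0'
        rw [Finset.mem_insert, Finset.mem_singleton]
        exact sq_eq_sq_iff_eq_or_eq_neg.1 this
      exact le_trans (Finset.card_le_card hsub) Finset.card_le_two
    · rw [Finset.not_nonempty_iff_eq_empty] at hne
      rw [hne]
      simp
  have hsum : ∑ b : ZMod 3, f (-(b * e)) * N (b • A) = 3 * (S.card : ℂ) := by
    have h5 : ∀ b : ZMod 3, f (-(b * e)) * N (b • A) =
        ∑ x : F, f (b * (tr (A * x ^ 2) - e)) := by
      intro b
      simp only [hN]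
      rw [Finset.mul_sum]
      refine Finset.sum_congr rfl (fun x _ => ?_)
      rw [hψa, ← AddChar.map_add_eq_mul]
      congr 1
      rw [smul_mul_assoc, ZMod.map_smul, smul_eq_mul]
      ring
    simp only [h5]
    rw [Finset.sum_comm]
    simp only [horth, sub_eq_zero]
    rw [← Finset.sum_filter, Finset.sum_const, nsmul_eq_mul, mul_comm]
  have hre : ∀ b : ZMod 3, b ≠ 0 →
      -√(Fintype.card F : ℝ) ≤ (f (-(b * e)) * N (b • A)).re := by
    intro b hb
    have hD : b • A ≠ 0 := smul_ne_zero hb hA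
    have h8 : ‖f (-(b * e)) * N (b • A)‖ = √(Fintype.card F : ℝ) := by
      rw [norm_mul, hN1 _ hD, AddChar.norm_apply, one_mul]
    rw [← h8]
    exact (abs_le.1 (Complex.abs_re_le_norm (f (-(b * e)) * N (b • A)))).1
  have htot := congrArg Complex.re hsum
  rw [Complex.re_sum, ← Finset.add_sum_erase _ _ (Finset.mem_univ (0 : ZMod 3))] at htot
  have h0 : (f (-((0 : ZMod 3) * e)) * N ((0 : ZMod 3) • A)).re = (Fintype.card F : ℝ) := by
    rw [zero_mul, neg_zero, zero_smul, hN0, AddChar.map_zero_eq_one, one_mul]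
    simp
  rw [h0] at htot
  have hcard : ((Finset.univ : Finset (ZMod 3)).erase 0).card = 2 := by decide
  have hlow := Finset.card_nsmul_le_sum ((Finset.univ : Finset (ZMod 3)).erase 0)
    (fun b => (f (-(b * e)) * N (b • A)).re) (-√(Fintype.card F : ℝ))
    (fun b hb => hre b (Finset.ne_of_mem_erase hb))
  rw [hcard, nsmul_eq_mul] at hlow
  have h12 : (3 * (S.card : ℂ)).re = 3 * (S.card : ℝ) := by
    simp
  rw [h12] at htot
  have hS2 : (S.card : ℝ) ≤ 2 := by exact_mod_cast hScard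
  have hq : (27 : ℝ) ≤ (Fintype.card F : ℝ) := by exact_mod_cast h27
  have h10 : √(Fintype.card F : ℝ) ^ 2 = (Fintype.card F : ℝ) := Real.sq_sqrt (by linarith)
  have h11 : (5 : ℝ) ≤ √(Fintype.card F : ℝ) := by
    rw [show (5 : ℝ) = √25 by
      rw [show (25 : ℝ) = 5 ^ 2 by norm_num]; rw [Real.sqrt_sq (by norm_num)]]
    exact Real.sqrt_le_sqrt (by linarith)
  push_cast at hlow
  nlinarith

end Pool.Agent.Helper47.PTwo
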