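import Mathlib

/-!
# Two norm equations with fixed right hand sides (Chevalley-Warning)
-/

namespace Pool.Agent.Helper47.PTwo

open MvPolynomial

theorem two_norms {F : Type*} [Field F] [Finite F] (σ : F ≃+* F) (_h2 : ∀ x, σ (σ x) = x)
    (y : F) (hy : σ y = -y) (hy0 : y ≠ 0) (hc : (2 : F) ≠ 0) (t0 t1 : F)
    (ht0 : σ t0 = t0) (ht1 : σ t1 = t1) :
    ∃ A h l : F, σ h = h ∧ σ l = l ∧ h ^ 2 = t1 ^ 2 + 4 * (A * σ A) ∧
      l ^ 2 = t0 ^ 2 + 4 * y ^ 2 * ((A - 1) * σ (A - 1)) := by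
  classical
  set K : Subfield F := RingHom.eqLocusField (σ : F →+* F) (RingHom.id F) with hK
  have hm : ∀ x : F, x ∈ K ↔ σ x = x := fun x => Iff.rfl
  have : Fintype K := Fintype.ofFinite K
  obtain ⟨p, hp⟩ := CharP.exists K
  have := hp
  have hyK : y ^ 2 ∈ K := (hm _).2 (by rw [map_pow, hy]; ring)
  let Y : K := ⟨y ^ 2, hyK⟩
  let T0 : K := ⟨t0, (hm _).2 ht0⟩
  let T1 : K := ⟨t1, (hm _).2 ht1⟩
  let f1 : MvPolynomial (Fin 5) K :=
    X 0 ^ 2 - C Y * X 1 ^ 2 + C (T1 ^ 2) * X 2 ^ 2 - X 3 ^ 2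
  let f2 : MvPolynomial (Fin 5) K :=
    C Y * ((X 0 - C 2 * X 2) ^ 2 - C Y * X 1 ^ 2) + C (T0 ^ 2) * X 2 ^ 2 - X 4 ^ 2
  have dX : ∀ i : Fin 5, (X i ^ 2 : MvPolynomial (Fin 5) K).totalDegree ≤ 2 := fun i => by
    refine (totalDegree_pow _ _).trans ?_
    rw [totalDegree_X]
  have dC : ∀ (c : K) (P : MvPolynomial (Fin 5) K), P.totalDegree ≤ 2 →
      (C c * P).totalDegree ≤ 2 := fun c P hP => by
    refine (totalDegree_mul _ _).trans ?_
    rw [totalDegree_C, zero_add]; exact hP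
  have dA : ∀ (P Q : MvPolynomial (Fin 5) K), P.totalDegree ≤ 2 → Q.totalDegree ≤ 2 →
      (P + Q).totalDegree ≤ 2 := fun P Q hP hQ =>
    (totalDegree_add _ _).trans (max_le hP hQ)
  have dS : ∀ (P Q : MvPolynomial (Fin 5) K), P.totalDegree ≤ 2 → Q.totalDegree ≤ 2 →
      (P - Q).totalDegree ≤ 2 := fun P Q hP hQ =>
    (totalDegree_sub _ _).trans (max_le hP hQ)
  have dL : ((X 0 - C 2 * X 2) ^ 2 : MvPolynomial (Fin 5) K).totalDegree ≤ 2 := by
    refine (totalDegree_pow _ _).trans ?_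
    have : (X 0 - C 2 * X 2 : MvPolynomial (Fin 5) K).totalDegree ≤ 1 := by
      refine (totalDegree_sub _ _).trans (max_le (by rw [totalDegree_X]) ?_)
      refine (totalDegree_mul _ _).trans ?_
      rw [totalDegree_C, totalDegree_X]
    omega
  have hd1 : f1.totalDegree ≤ 2 :=
    dS _ _ (dA _ _ (dS _ _ (dX 0) (dC _ _ (dX 1))) (dC _ _ (dX 2))) (dX 3)
  have hd2 : f2.totalDegree ≤ 2 :=
    dS _ _ (dA _ _ (dC _ _ (dS _ _ dL (dC _ _ (dX 1)))) (dC _ _ (dX 2))) (dX 4)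
  have hdvd := char_dvd_card_solutions_of_add_lt (K := K) (σ := Fin 5) p (f₁ := f1) (f₂ := f2)
    (by rw [Fintype.card_fin]; omega)
  have hp1 : p ≠ 1 := CharP.char_ne_one K p
  have h0 : eval (0 : Fin 5 → K) f1 = 0 ∧ eval (0 : Fin 5 → K) f2 = 0 := by
    constructor <;> simp [f1, f2]
  obtain ⟨v, hv, hv1, hv2⟩ : ∃ v : Fin 5 → K, v ≠ 0 ∧ eval v f1 = 0 ∧ eval v f2 = 0 := by
    by_contra hcon
    push Not at hcon
    have hone : Fintype.card { x : Fin 5 → K // eval x f1 = 0 ∧ eval x f2 = 0 } = 1 := by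
      rw [Fintype.card_eq_one_iff]
      refine ⟨⟨0, h0⟩, ?_⟩
      rintro ⟨w, hw1, hw2⟩
      by_contra hne
      have hw : w ≠ 0 := fun h => hne (by subst h; rfl)
      exact hcon w hw hw1 hw2
    rw [hone] at hdvd
    exact hp1 (Nat.dvd_one.1 hdvd)
  have e1 : ((v 0 : F)) ^ 2 - y ^ 2 * (v 1 : F) ^ 2 + t1 ^ 2 * (v 2 : F) ^ 2 - (v 3 : F) ^ 2 = 0 := by
    have := congrArg (fun z : K => (z : F)) hv1
    simpa [f1, Y, T1] using this
  have e2 : y ^ 2 * (((v 0 : F) - 2 * (v 2 : F)) ^ 2 - y ^ 2 * (v 1 : F) ^ 2)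
      + t0 ^ 2 * (v 2 : F) ^ 2 - (v 4 : F) ^ 2 = 0 := by
    have := congrArg (fun z : K => (z : F)) hv2
    have h2K : ((2 : K) : F) = 2 := map_ofNat K.subtype 2
    simpa [f2, Y, T0, h2K] using this
  have hfix : ∀ i, σ (v i : F) = (v i : F) := fun i => (hm _).1 (v i).2
  have hyn : ∀ a b : F, σ a = a → σ b = b → a ^ 2 = y ^ 2 * b ^ 2 → a = 0 ∧ b = 0 := by
    intro a b ha hb hab
    have hfac : (a - y * b) * (a + y * b) = 0 := by linear_combination hab
    have hyb : y * b = 0 → a = 0 ∧ b = 0 := fun h => by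
      have hb0 : b = 0 := (mul_eq_zero.1 h).resolve_left hy0
      refine ⟨?_, hb0⟩
      rw [hb0] at hab
      have : a ^ 2 = 0 := by rw [hab]; ring
      exact pow_eq_zero_iff (two_ne_zero) |>.1 this
    rcases mul_eq_zero.1 hfac with h | h
    · have h' : a = y * b := by linear_combination h
      have hs : σ a = -(y * b) := by rw [h', map_mul, hy, hb]; ring
      have : (2 : F) * (y * b) = 0 := by linear_combination hs - ha - h'
      exact hyb ((mul_eq_zero.1 this).resolve_left hc)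
    · have h' : a = -(y * b) := by linear_combination h
      have hs : σ a = y * b := by rw [h', map_neg, map_mul, hy, hb]; ring
      have : (2 : F) * (y * b) = 0 := by linear_combination h' - hs + ha
      exact hyb ((mul_eq_zero.1 this).resolve_left hc)
  have hz : (v 2 : F) ≠ 0 := by
    intro hz
    rw [hz] at e1 e2
    have hH : (v 4 : F) = 0 ∧ (v 3 : F) = 0 := by
      apply hyn _ _ (hfix 4) (hfix 3)
      linear_combination (-1 : F) * e2 + y ^ 2 * e1
    have hX : (v 0 : F) = 0 ∧ (v 1 : F) = 0 := by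
      apply hyn _ _ (hfix 0) (hfix 1)
      rw [hH.2] at e1
      linear_combination e1
    apply hv
    funext i
    apply Subtype.ext
    fin_cases i
    · exact hX.1
    · exact hX.2
    · exact hz
    · exact hH.2
    · exact hH.1
  have h2z : (2 : F) * (v 2 : F) ≠ 0 := mul_ne_zero hc hz
  have hσ2 : σ (2 : F) = 2 := map_ofNat σ 2
  refine ⟨((v 0 : F) + (v 1 : F) * y) / (2 * (v 2 : F)), (v 3 : F) / (v 2 : F),
    (v 4 : F) / (v 2 : F), ?_, ?_, ?_, ?_⟩
  · rw [map_div₀, hfix 3, hfix 2]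
  · rw [map_div₀, hfix 4, hfix 2]
  · rw [map_div₀, map_add, map_mul, map_mul, hfix 0, hfix 1, hfix 2, hy, hσ2]
    field_simp
    linear_combination (-4 : F) * e1
  · rw [map_sub, map_one, map_div₀, map_add, map_mul, map_mul, hfix 0, hfix 1, hfix 2, hy, hσ2]
    field_simp
    linear_combination (-4 : F) * e2

end Pool.Agent.Helper47.PTwo
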