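import Pool.Agent.Helper47.PTwo.Uni
import Pool.Agent.Helper47.PTwo.L1b

/-!
The class of a unipotent element `!![1, e; 0, 1]`, the field of order `27`.
-/

namespace Pool.Agent.Helper47.PTwo

open Matrix CosetT

variable {F : Type*} [Field F]

theorem nf_scale {τ : F ≃+* F} {B : M2 F} {c c2 D x : F} (hc : c ≠ 0) (hx : x ≠ 0)
    (hf : ∀ h : F, SConj τ B !![h, (h * nt τ c c2 h - D) / c; c, nt τ c c2 h]) (h : F) :
    SConj τ B !![h, (h * nt τ (c * (x * τ x)) (c2 * (x * τ (τ x))) h - D) / (c * (x * τ x));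
      c * (x * τ x), nt τ (c * (x * τ x)) (c2 * (x * τ (τ x))) h] := by
  have hτx : τ x ≠ 0 := by simpa using hx
  have hττx : τ (τ x) ≠ 0 := by simpa using hx
  have hτc : τ c ≠ 0 := by simpa using hc
  refine sconj_trans (hf (h * x / τ x)) ?_
  have e1 : nt τ c c2 (h * x / τ x) * x =
      nt τ (c * (x * τ x)) (c2 * (x * τ (τ x))) h * τ x := by
    simp only [nt, map_mul, map_div₀]
    field_simp
  generalize nt τ (c * (x * τ x)) (c2 * (x * τ (τ x))) h = t' at e1 ⊢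
  apply sconj_mk x 0 0 x⁻¹
  · field_simp; ring
  · simp
    field_simp
  · simp
    field_simp
    linear_combination h * e1
  · simp
    field_simp
  · simp
    field_simp
    linear_combination e1

theorem zmod3_cases : ∀ z : ZMod 3, z = 0 ∨ z = 1 ∨ z = -1 := by decide

theorem zmod3_a : (1 : ZMod 3) + -1 = 0 := by decide

/-- the trace function is the sum of the conjugates -/
theorem exists_tr_three [Finite F] [CharP F 3] (σ : F ≃+* F)
    (hfix : ∀ z, σ z = z → z = 0 ∨ z = 1 ∨ z = -1) (h3 : ∀ z, σ (σ (σ z)) = z)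
    (hne : ∃ z, σ z ≠ z) :
    ∃ tr : F →+ ZMod 3, Function.Surjective tr ∧ (∀ z, tr (σ z) = tr z) ∧
      (∀ z, tr z = 0 → ∃ a, σ a - a = z) ∧
      ∀ z, (tr z = 0 ∧ z + σ z + σ (σ z) = 0) ∨ (tr z = 1 ∧ z + σ z + σ (σ z) = 1) ∨
        (tr z = -1 ∧ z + σ z + σ (σ z) = -1) := by
  have : Fact (Nat.Prime 3) := ⟨Nat.prime_three⟩
  obtain ⟨tr, hsurj, hinv, hker⟩ := exists_tr 3 σ hfix
  obtain ⟨e, he⟩ := hsurj 1
  have hT0 : ∀ z, tr z = 0 → z + σ z + σ (σ z) = 0 := by
    intro z hz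
    obtain ⟨a, rfl⟩ := hker z hz
    simp only [map_sub, h3]
    ring
  have hT1 : ∀ z, tr z = 1 → z + σ z + σ (σ z) = e + σ e + σ (σ e) := by
    intro z hz
    have := hT0 (z - e) (by rw [map_sub, hz, he, sub_self])
    simp only [map_sub] at this
    linear_combination this
  have hT2 : ∀ z, tr z = -1 → z + σ z + σ (σ z) = -(e + σ e + σ (σ e)) := by
    intro z hz
    have := hT0 (z + e) (by rw [map_add, hz, he, neg_add_cancel])
    simp only [map_add] at this
    linear_combination this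
  have hfe : σ (e + σ e + σ (σ e)) = e + σ e + σ (σ e) := by
    simp only [map_add, h3]; ring
  rcases hfix _ hfe with h | h | h
  · exfalso
    have hT : ∀ z, z + σ z + σ (σ z) = 0 := by
      intro z
      rcases zmod3_cases (tr z) with h5 | h5 | h5
      · exact hT0 z h5
      · rw [hT1 z h5, h]
      · rw [hT2 z h5, h, neg_zero]
    obtain ⟨z, hz⟩ := hne
    have hz2 : σ (σ z) ≠ z := by
      intro h6
      apply hz
      have := congrArg σ h6
      rw [h3] at this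
      exact this.symm
    have e1 := hT (z * z)
    have e2 := hT z
    have e3 := hT 1
    simp only [map_mul, map_one] at e1 e3
    have : (z - σ z) * (z - σ (σ z)) = 0 := by
      linear_combination e1 - (σ z + σ (σ z)) * e2 + (σ z * σ (σ z)) * e3
    rcases mul_eq_zero.1 this with h7 | h7
    · exact hz (sub_eq_zero.1 h7).symm
    · exact hz2 (sub_eq_zero.1 h7).symm
  · refine ⟨tr, hsurj, hinv, hker, ?_⟩
    intro z
    rcases zmod3_cases (tr z) with h5 | h5 | h5
    · exact Or.inl ⟨h5, hT0 z h5⟩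
    · exact Or.inr (Or.inl ⟨h5, by rw [hT1 z h5, h]⟩)
    · exact Or.inr (Or.inr ⟨h5, by rw [hT2 z h5, h]⟩)
  · refine ⟨-tr, ?_, ?_, ?_, ?_⟩
    · intro n
      obtain ⟨z, hz⟩ := hsurj (-n)
      exact ⟨z, by rw [AddMonoidHom.neg_apply, hz, neg_neg]⟩
    · intro z
      rw [AddMonoidHom.neg_apply, AddMonoidHom.neg_apply, hinv]
    · intro z hz
      rw [AddMonoidHom.neg_apply, neg_eq_zero] at hz
      exact hker z hz
    · intro z
      rw [AddMonoidHom.neg_apply]
      rcases zmod3_cases (tr z) with h5 | h5 | h5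
      · exact Or.inl ⟨by rw [h5, neg_zero], hT0 z h5⟩
      · exact Or.inr (Or.inr ⟨by rw [h5], by rw [hT1 z h5, h]⟩)
      · exact Or.inr (Or.inl ⟨by rw [h5, neg_neg], by rw [hT2 z h5, h, neg_neg]⟩)

/-- The class of `!![1, e; 0, 1]`, `σ` of order three with fixed field of order three. -/
theorem tool_uni_27 [Finite F] [CharP F 3] {σ : F ≃+* F}
    (hfix : ∀ z, σ z = z → z = 0 ∨ z = 1 ∨ z = -1) (h27 : 27 ≤ Nat.card F)
    (h3 : ∀ z, σ (σ (σ z)) = z) (hne : ∃ z, σ z ≠ z) :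
    ∃ e : F, ∀ B : M2 F, B.det = 1 → ∃ P Q : M2 F, SConj σ P !![1, e; 0, 1] ∧
      SConj σ Q !![1, e; 0, 1] ∧ SConj (σ.trans σ) B (P * Q.map σ) := by
  obtain ⟨tr, hsurj, hinv, hker, hT⟩ := exists_tr_three σ hfix h3 hne
  obtain ⟨e, he⟩ := hsurj 1
  refine ⟨e, ?_⟩
  intro B hB
  have hsy : ∀ z, σ.symm z = σ (σ z) := by
    intro z
    rw [RingEquiv.symm_apply_eq, h3]
  obtain ⟨c0, c20, hc0, hf0⟩ := normal_form' (τ := σ.trans σ) (by rw [hB]; exact one_ne_zero)
    (Or.inl (by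
      obtain ⟨z, hz⟩ := hne
      refine ⟨z, fun h => hz ?_⟩
      have h' : σ (σ z) = z := h
      have := congrArg σ h'
      rw [h3] at this
      exact this.symm) :
      (∃ z, (σ.trans σ) z ≠ z) ∨ ∀ β : F, B ≠ β • (1 : M2 F))
  rw [hB] at hf0
  have hσc0 : σ c0 ≠ 0 := by simpa using hc0
  have hττc0 : σ (σ c0) ≠ 0 := by simpa using hc0
  -- `c = N(c0) = ±1`
  obtain ⟨c, c2, hc1, hσc, hf⟩ : ∃ c c2 : F, (c = 1 ∨ c = -1) ∧ σ c = c ∧ ∀ h : F,
      SConj (σ.trans σ) B !![h, (h * nt (σ.trans σ) c c2 h - 1) / c; c,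
        nt (σ.trans σ) c c2 h] := by
    have h5 := nf_scale hc0 hττc0 hf0
    have h6 : c0 * (σ (σ c0) * (σ.trans σ) (σ (σ c0))) = c0 * σ c0 * σ (σ c0) := by
      simp only [RingEquiv.coe_trans, Function.comp_apply, h3]; ring
    rw [h6] at h5
    have h7 : σ (c0 * σ c0 * σ (σ c0)) = c0 * σ c0 * σ (σ c0) := by
      simp only [map_mul, h3]; ring
    refine ⟨_, _, ?_, h7, h5⟩
    rcases hfix _ h7 with h | h | h
    · exact absurd h (mul_ne_zero (mul_ne_zero hc0 hσc0) hττc0)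
    · exact Or.inl h
    · exact Or.inr h
  have hcc : c * c = 1 := by rcases hc1 with rfl | rfl <;> ring
  have hc : c ≠ 0 := by rintro rfl; rw [zero_mul] at hcc; exact zero_ne_one hcc
  let _ : Fintype F := Fintype.ofFinite F
  have h27' : 27 ≤ Fintype.card F := by rw [← Nat.card_eq_fintype_card]; exact h27
  -- the square `v = b ^ 2`
  obtain ⟨b, hb1, hb2⟩ : ∃ b : F, tr (c * b ^ 2) = -1 ∧ (c2 + c) * b ^ 2 + 1 ≠ 0 := by
    obtain ⟨x, y, hx, hy, hxy⟩ := many_quadr h27' tr hsurj c hc (-1)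
    by_cases h5 : (c2 + c) * x ^ 2 + 1 = 0
    · refine ⟨y, hy, ?_⟩
      intro h6
      have h7 : (c2 + c) * (x ^ 2 - y ^ 2) = 0 := by linear_combination h5 - h6
      rcases mul_eq_zero.1 h7 with h8 | h8
      · rw [h8, zero_mul, zero_add] at h5
        exact one_ne_zero h5
      · exact hxy (sub_eq_zero.1 h8)
    · exact ⟨x, hx, h5⟩
  obtain ⟨a, -, ha, -, -⟩ := many_quadr h27' tr hsurj ((c2 + c) * b ^ 2 + 1) hb2 1
  have ha0 : a ≠ 0 := by
    rintro rfl
    rw [zero_pow (by norm_num), mul_zero, map_zero] at ha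
    exact zero_ne_one ha
  have hb0 : b ≠ 0 := by
    rintro rfl
    rw [zero_pow (by norm_num), mul_zero, map_zero] at hb1
    exact absurd hb1 (by decide)
  have hσa : σ a ≠ 0 := by simpa using ha0
  have hσσa : σ (σ a) ≠ 0 := by simpa using ha0
  have hσb : σ b ≠ 0 := by simpa using hb0
  set u := a ^ 2 with hu
  set v := b ^ 2 with hv
  have hu0 : u ≠ 0 := pow_ne_zero 2 ha0
  have hσu : σ u ≠ 0 := by simpa using hu0
  have hσσu : σ (σ u) ≠ 0 := by simpa using hu0
  have hNu : u * σ u * σ (σ u) = 1 := by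
    have h7 : σ (a * σ a * σ (σ a)) = a * σ a * σ (σ a) := by
      simp only [map_mul, h3]; ring
    have h8 : u * σ u * σ (σ u) = (a * σ a * σ (σ a)) ^ 2 := by
      rw [hu, map_pow, map_pow]; ring
    rcases hfix _ h7 with h | h | h
    · exact absurd h (mul_ne_zero (mul_ne_zero ha0 hσa) hσσa)
    · rw [h8, h]; ring
    · rw [h8, h]; ring
  set h := u / σ u with hh
  have hh0 : h ≠ 0 := div_ne_zero hu0 hσu
  have hfh := hf h
  obtain ⟨t, ht⟩ : ∃ t, t = nt (σ.trans σ) c c2 h := ⟨_, rfl⟩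
  rw [← ht] at hfh
  obtain ⟨r, hr⟩ : ∃ r, r = (h * t - 1) / c := ⟨_, rfl⟩
  rw [← hr] at hfh
  have E1 : r * c = h * t - 1 := by rw [hr]; field_simp
  have E3 : h * σ u = u := by rw [hh]; field_simp
  have E2 : t * c * u = c2 * u - σ (σ u) * c := by
    rw [ht, nt, hh]
    simp only [RingEquiv.coe_trans, Function.comp_apply, map_div₀, h3, hσc]
    field_simp
  have hR : r / h * (u * v) = (c2 + c) * (u * v) - c * (u + σ u + σ (σ u)) * v := by
    rw [div_mul_eq_mul_div, div_eq_iff hh0]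
    apply mul_right_cancel₀ (mul_ne_zero hc hσu)
    linear_combination (u * v * σ u) * E1 +
      (u * v * t - ((c2 + c) * (u * v) - c * (u + σ u + σ (σ u)) * v) * c) * E3 +
      (u * v * c) * E2 - (u * v * (t * u - σ u)) * hcc
  have hw : u⁻¹ ≠ 0 := inv_ne_zero hu0
  have hy : σ (a * b) ≠ 0 := by simpa using And.intro ha0 hb0
  have hy2 : σ (a * b) ^ 2 = σ u * σ v := by rw [hu, hv, map_mul, map_pow, map_pow]; ring
  refine uni_core (w := u⁻¹) (y := σ (a * b)) hinv hker he hfh (by rw [E1]; ring) hw ?_ hy ?_ ?_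
  · rw [hh, map_inv₀]; field_simp
  · have e1 : σ.symm (c / (u⁻¹ * σ u⁻¹)) * σ (a * b) ^ 2 = σ (c * v) := by
      rw [hsy, hy2, map_inv₀, map_div₀, map_mul, map_inv₀, map_inv₀, map_div₀, map_mul, map_inv₀,
        map_inv₀, h3, hσc, hσc, map_mul, hσc]
      field_simp
      linear_combination (σ v) * hNu
    rw [e1, hinv, hb1]
  · have e1 : σ.symm (σ.symm (r / h)) * σ (a * b) ^ 2 = σ (r / h * (u * v)) := by
      rw [hsy, hsy, h3, hy2, map_mul σ (r / h), map_mul σ u]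
    rw [e1, hinv, hR, map_sub]
    have e2 : tr ((c2 + c) * (u * v)) + tr u = 1 := by
      rw [← ha, ← map_add]; congr 1; ring
    rcases hT u with ⟨h5, h6⟩ | ⟨h5, h6⟩ | ⟨h5, h6⟩
    · rw [h6, mul_zero, zero_mul, map_zero, sub_zero]
      rw [h5, add_zero] at e2; exact e2
    · rw [h6, mul_one, hb1, sub_neg_eq_add]
      rw [h5] at e2; exact e2
    · rw [h6, mul_neg_one, neg_mul, map_neg, hb1, neg_neg]
      rw [h5] at e2
      rw [sub_eq_add_neg]; exact e2

end Pool.Agent.Helper47.PTwo
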