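import Mathlib

/-! A quadratic map in characteristic three (helper14 for helper47). -/

set_option autoImplicit false

namespace Pool.Agent.Helper47.PTwo

variable {F : Type*} [Field F]

theorem four_indep (σ : F ≃+* F) (h1 : ∃ z, σ z ≠ z) (h2 : ∃ z, σ (σ z) ≠ z)
    (h3 : ∃ z, σ (σ (σ z)) ≠ z) (a b c d : F)
    (h : ∀ v, a * v + b * σ v + c * σ (σ v) + d * σ (σ (σ v)) = 0) : a = 0 := by
  classical
  let s : F →* F := (σ : F →+* F)
  have hs : ∀ v, s v = σ v := fun v => rfl
  let φ : Fin 4 → (F →* F) := ![MonoidHom.id F, s, s.comp s, s.comp (s.comp s)]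
  obtain ⟨z1, hz1⟩ := h1
  obtain ⟨z2, hz2⟩ := h2
  obtain ⟨z3, hz3⟩ := h3
  have e01 : MonoidHom.id F ≠ s := fun e => hz1 (by
    have := DFunLike.congr_fun e z1
    simpa [hs] using this.symm)
  have e02 : MonoidHom.id F ≠ s.comp s := fun e => hz2 (by
    have := DFunLike.congr_fun e z2
    simpa [hs] using this.symm)
  have e03 : MonoidHom.id F ≠ s.comp (s.comp s) := fun e => hz3 (by
    have := DFunLike.congr_fun e z3
    simpa [hs] using this.symm)
  have e12 : s ≠ s.comp s := fun e => hz1 (by
    have := DFunLike.congr_fun e z1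
    simp only [MonoidHom.comp_apply, hs] at this
    exact (σ.injective this).symm)
  have e13 : s ≠ s.comp (s.comp s) := fun e => hz2 (by
    have := DFunLike.congr_fun e z2
    simp only [MonoidHom.comp_apply, hs] at this
    exact (σ.injective this).symm)
  have e23 : s.comp s ≠ s.comp (s.comp s) := fun e => hz1 (by
    have := DFunLike.congr_fun e z1
    simp only [MonoidHom.comp_apply, hs] at this
    exact (σ.injective (σ.injective this)).symm)
  have hinj : Function.Injective φ := by
    intro i j hij
    fin_cases i <;> fin_cases j <;> simp [φ] at hij ⊢ <;> first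
      | exact e01 hij | exact e02 hij | exact e03 hij | exact e12 hij | exact e13 hij
      | exact e23 hij | exact e01 hij.symm | exact e02 hij.symm | exact e03 hij.symm
      | exact e12 hij.symm | exact e13 hij.symm | exact e23 hij.symm
  have hli := (linearIndependent_monoidHom F F).comp φ hinj
  have h0 := Fintype.linearIndependent_iff.1 hli ![a, b, c, d] (by
    funext v
    have := h v
    simp [Fin.sum_univ_four, φ, hs]
    linear_combination this) 0
  simpa using h0

theorem exists_w3 [Finite F] [CharP F 3] (σ : F ≃+* F) (h1 : ∃ z, σ z ≠ z)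
    (h2 : ∃ z, σ (σ z) ≠ z) (h3 : ∃ z, σ (σ (σ z)) ≠ z) (h9 : 9 ≤ Nat.card F) (c θ : F)
    (hc : c ≠ 0) : ∃ w : F, w ≠ 0 ∧
      θ * (σ w * σ (σ w)) - σ w * σ (σ (σ w)) / σ (σ c) - w * σ (σ w) / c ≠ 0 ∧
      θ * (σ w * σ (σ w)) - σ w * σ (σ (σ w)) / σ (σ c) - w * σ (σ w) / c ≠ σ c := by
  classical
  by_contra hcon
  push Not at hcon
  have hk : σ c ≠ 0 := (map_ne_zero σ).2 hc
  have h3' : (3 : F) = 0 := by
    have := CharP.cast_eq_zero F 3
    exact_mod_cast this
  set Q : F → F := fun w => θ * (σ w * σ (σ w)) - σ w * σ (σ (σ w)) / σ (σ c)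
    - w * σ (σ w) / c with hQ
  have hQ0 : Q 0 = 0 := by simp [hQ]
  have hQv : ∀ w, Q w = 0 ∨ Q w = σ c := by
    intro w
    by_cases hw : w = 0
    · left; rw [hw]; exact hQ0
    · by_cases h : Q w = 0
      · exact Or.inl h
      · exact Or.inr (hcon w hw h)
  have hpar : ∀ u v, Q (u + v) + Q (u - v) = 2 * Q u + 2 * Q v := by
    intro u v
    simp only [hQ, map_add, map_sub]
    ring
  have h2k : (2 : F) * σ c ≠ 0 := by
    intro h
    apply hk
    linear_combination (σ c) * h3' - h
  have hinv : ∀ u, Q u = 0 → ∀ v, Q (u + v) = Q v := by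
    intro u hu v
    have hp := hpar u v
    rw [hu] at hp
    rcases hQv v with hv | hv
    · rw [hv] at hp ⊢
      rcases hQv (u + v) with ha | ha
      · exact ha
      · exfalso
        rw [ha] at hp
        rcases hQv (u - v) with hb | hb
        · rw [hb] at hp; apply hk; linear_combination hp
        · rw [hb] at hp; apply h2k; linear_combination hp
    · rw [hv] at hp ⊢
      rcases hQv (u + v) with ha | ha
      · exfalso
        rw [ha] at hp
        rcases hQv (u - v) with hb | hb
        · rw [hb] at hp; apply h2k; linear_combination -hp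
        · rw [hb] at hp; apply hk; linear_combination -hp
      · exact ha
  -- a nonzero zero
  obtain ⟨u, hu0, hu⟩ : ∃ u, u ≠ 0 ∧ Q u = 0 := by
    have hcard : ∃ v : F, v ∉ ({0, 1, -1} : Finset F) := by
      by_contra hno
      push Not at hno
      have : Nat.card F ≤ 3 := by
        have : Fintype F := Fintype.ofFinite F
        rw [Nat.card_eq_fintype_card]
        calc Fintype.card F = (Finset.univ : Finset F).card := rfl
          _ ≤ ({0, 1, -1} : Finset F).card := Finset.card_le_card (fun x _ => hno x)
          _ ≤ 3 := Finset.card_le_three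
      omega
    obtain ⟨v, hv⟩ := hcard
    simp only [Finset.mem_insert, Finset.mem_singleton, not_or] at hv
    obtain ⟨hv0, hv1, hv2⟩ := hv
    rcases hQv 1 with ha | ha
    · exact ⟨1, one_ne_zero, ha⟩
    · rcases hQv v with hb | hb
      · exact ⟨v, hv0, hb⟩
      · have hp := hpar 1 v
        rw [ha, hb] at hp
        rcases hQv (1 + v) with hx | hx
        · exact ⟨1 + v, fun h => hv2 (by linear_combination h), hx⟩
        · rcases hQv (1 - v) with hy | hy
          · exact ⟨1 - v, fun h => hv1 (by linear_combination -h), hy⟩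
          · exfalso
            rw [hx, hy] at hp
            apply h2k
            linear_combination -hp
  have hpol : ∀ v, (-(σ (σ u) / c)) * v + (θ * σ (σ u) - σ (σ (σ u)) / σ (σ c)) * σ v +
      (θ * σ u - u / c) * σ (σ v) + (-(σ u / σ (σ c))) * σ (σ (σ v)) = 0 := by
    intro v
    have h := hinv u hu v
    have e : Q (u + v) - Q u - Q v = 0 := by rw [h, hu]; ring
    simp only [hQ, map_add] at e
    linear_combination e
  have hz := four_indep σ h1 h2 h3 _ _ _ _ hpol
  rw [neg_eq_zero, div_eq_zero_iff] at hz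
  rcases hz with hz | hz
  · exact hu0 ((map_eq_zero σ).1 ((map_eq_zero σ).1 hz))
  · exact hc hz

end Pool.Agent.Helper47.PTwo
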