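import Pool.Agent.Helper47.PTwo.Uni
import Pool.Agent.Helper47.PTwo.L1
import Pool.Agent.Helper47.PTwo.Quad3

/-!
The class of a unipotent element `!![1, e; 0, 1]`, characteristic three.
-/

namespace Pool.Agent.Helper47.PTwo

open Matrix CosetT

variable {F : Type*} [Field F]

/-- The class of `!![1, e; 0, 1]`, characteristic three. -/
theorem tool_uni_three [Finite F] [CharP F 3] {σ : F ≃+* F}
    (hfix : ∀ z, σ z = z → z = 0 ∨ z = 1 ∨ z = -1) (h81 : 81 ≤ Nat.card F)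
    (h2 : ∃ z, σ (σ z) ≠ z) (h3 : ∃ z, σ (σ (σ z)) ≠ z) :
    ∃ e : F, ∀ B : M2 F, B.det = 1 → ∃ P Q : M2 F, SConj σ P !![1, e; 0, 1] ∧
      SConj σ Q !![1, e; 0, 1] ∧ SConj (σ.trans σ) B (P * Q.map σ) := by
  have : Fact (Nat.Prime 3) := ⟨Nat.prime_three⟩
  obtain ⟨tr, hsurj, hinv, hker⟩ := exists_tr 3 σ hfix
  obtain ⟨e, he⟩ := hsurj 1
  have h1 : ∃ z, σ z ≠ z := by
    obtain ⟨z, hz⟩ := h2
    by_contra hcon
    push Not at hcon
    exact hz (by rw [hcon, hcon])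
  refine ⟨e, ?_⟩
  intro B hB
  obtain ⟨c, c2, hc, hf⟩ := normal_form' (by rw [hB]; exact one_ne_zero)
    (Or.inl (by obtain ⟨z, hz⟩ := h2; exact ⟨z, hz⟩) :
      (∃ z, (σ.trans σ) z ≠ z) ∨ ∀ β : F, B ≠ β • (1 : M2 F))
  have hσc : σ c ≠ 0 := by simpa using hc
  have hτc : σ (σ c) ≠ 0 := by simpa using hc
  obtain ⟨w, hw0, hw1, hw2⟩ := exists_w3 σ h1 h2 h3 (by omega) c (c2 / (c * σ (σ c))) hc
  have hσw : σ w ≠ 0 := by simpa using hw0
  have hτw : σ (σ w) ≠ 0 := by simpa using hw0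
  set h := σ w / w with hh
  have hh0 : h ≠ 0 := div_ne_zero hσw hw0
  have hf := hf h
  rw [hB] at hf
  set t := nt (σ.trans σ) c c2 h with ht
  set r := (h * t - 1) / c with hr
  have hdet : h * t - r * c = 1 := by rw [hr]; field_simp; ring
  have hQ : c2 / (c * σ (σ c)) * (σ w * σ (σ w)) - σ w * σ (σ (σ w)) / σ (σ c) -
      w * σ (σ w) / c = r / h * (σ w * σ (σ w)) := by
    rw [hr, ht, nt, hh]
    simp only [RingEquiv.coe_trans, Function.comp_apply, map_div₀]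
    field_simp
  rw [hQ] at hw1 hw2
  set A1 := σ.symm (c / (w * σ w)) with hA1
  set A2 := σ.symm (σ.symm (r / h)) with hA2
  have hA1' : A1 ≠ 0 := by
    rw [hA1]; simp [hc, hw0]
  have hA2' : A2 ≠ 0 := by
    intro h0
    rw [hA2] at h0
    have : r / h = 0 := by simpa using h0
    rw [this, zero_mul] at hw1
    exact hw1 rfl
  have hA12 : A1 ≠ A2 := by
    intro h0
    apply hw2
    have e1 := congrArg (fun z => σ (σ z)) h0
    simp only [hA1, hA2, RingEquiv.apply_symm_apply] at e1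
    rw [← e1, map_div₀, map_mul]
    field_simp
  let _ : Fintype F := Fintype.ofFinite F
  obtain ⟨y, hy1, hy2⟩ := two_quadr (by rw [← Nat.card_eq_fintype_card]; exact h81) tr hsurj
    A1 A2 hA1' hA2' hA12
  have hy0 : y ≠ 0 := by
    rintro rfl
    rw [zero_pow (by norm_num), mul_zero, map_zero] at hy2
    exact zero_ne_one hy2
  exact uni_core hinv hker he hf hdet hw0 (by rw [hh]; field_simp) hy0 hy1 hy2

end Pool.Agent.Helper47.PTwo
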