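import Pool.Agent.Helper47.PTwo.Split
import Pool.Agent.Helper47.PTwo.Uni3
import Pool.Agent.Helper47.PTwo.Uni27
import Pool.Agent.Helper47.PTwo.Card
import Pool.Agent.Helper47.PTwo.L0
import Pool.Agent.Helper47.PTwo.Ell1
import Pool.Agent.Helper47.PTwo.Ell2

/-!
The theorem for every coset of `PSL_2(F)`, `F` a finite field with at least four elements.
-/

namespace Pool.Agent.Helper47.PTwo

open Matrix CosetT
open scoped Pointwise

variable {F : Type*} [Field F]

theorem two_le_fix [Finite F] (σ : F ≃+* F) : 2 ≤ Nat.card {z : F // σ z = z} := by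
  have : Nontrivial {z : F // σ z = z} :=
    ⟨⟨0, map_zero σ⟩, ⟨1, map_one σ⟩, fun h => zero_ne_one (congrArg Subtype.val h)⟩
  exact Finite.one_lt_card

/-- `reduce` for a class with the product property for all targets -/
theorem reduce' (σ : F ≃+* F) (A : M2 F) (hA : A.det ≠ 0) (α : MulAut (PSLn 2 F))
    (hα : Ind α A σ) (X : M2 F) (μ : F) (hμ0 : μ ≠ 0) (hX : X.det = A.det * μ ^ 2)
    (hML : ∀ B : M2 F, B.det = X.det * σ X.det → ∃ P Q : M2 F,
      SConj σ P X ∧ SConj σ Q X ∧ SConj (σ.trans σ) B (P * Q.map σ)) :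
    ∃ x ∈ coset α, cls x * cls x = coset (α ^ 2) := by
  apply reduce σ A hA α hα X μ hμ0 hX
  intro B hB
  obtain ⟨P, Q, hP, hQ, h⟩ := hML B hB
  exact ⟨1, P, Q, one_ne_zero, hP, hQ, by rw [one_smul]; exact h⟩

/-- the unipotent class -/
theorem reduce_uni (σ : F ≃+* F) (A : M2 F) (hA : A.det ≠ 0) (α : MulAut (PSLn 2 F))
    (hα : Ind α A σ) (hsq : IsSquare A.det)
    (hML : ∃ e : F, ∀ B : M2 F, B.det = 1 → ∃ P Q : M2 F, SConj σ P !![1, e; 0, 1] ∧
      SConj σ Q !![1, e; 0, 1] ∧ SConj (σ.trans σ) B (P * Q.map σ)) :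
    ∃ x ∈ coset α, cls x * cls x = coset (α ^ 2) := by
  obtain ⟨a, ha⟩ := hsq
  have ha0 : a ≠ 0 := by rintro rfl; exact hA (by rw [ha, mul_zero])
  obtain ⟨e, he⟩ := hML
  have hdet : (!![1, e; 0, 1] : M2 F).det = 1 := by
    rw [Matrix.det_fin_two_of]; ring
  apply reduce' σ A hA α hα !![1, e; 0, 1] a⁻¹ (inv_ne_zero ha0)
  · rw [hdet, ha]; field_simp
  · intro B hB
    rw [hdet, map_one, mul_one] at hB
    exact he B hB

theorem det_diag (s1 s2 : F) : (!![s1, 0; 0, s2] : M2 F).det = s1 * s2 := by
  rw [Matrix.det_fin_two_of]; ring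

/-- **Case A**: `σ² ≠ 1` -/
theorem case_A [Finite F] (σ : F ≃+* F) (hσ : ∃ z, σ (σ z) ≠ z)
    (A : M2 F) (hA : A.det ≠ 0) (α : MulAut (PSLn 2 F)) (hα : Ind α A σ) :
    ∃ x ∈ coset α, cls x * cls x = coset (α ^ 2) := by
  have hmov : ∃ z, (σ.trans σ) z ≠ z := by obtain ⟨z, hz⟩ := hσ; exact ⟨z, hz⟩
  by_cases hf4 : 4 ≤ Nat.card {z : F // σ z = z}
  · exact main_linear σ hσ (Or.inl ⟨rfl, hf4⟩) A hA α hα
  have hf2 := two_le_fix σ
  have hf : Nat.card {z : F // σ z = z} = 2 ∨ Nat.card {z : F // σ z = z} = 3 := by omega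
  rcases hf with hf | hf
  · -- fixed field of order two
    obtain ⟨hch, hfix⟩ := fix_two σ hf
    have : Fintype F := Fintype.ofFinite F
    have hsq : IsSquare A.det := FiniteField.isSquare_of_char_two (by
      exact ringChar.eq F 2 ▸ rfl) _
    apply reduce_uni σ A hA α hα hsq
    apply tool_uni_two hfix
    obtain ⟨z, hz⟩ := hσ
    refine ⟨z, ?_, ?_⟩
    · rintro rfl; exact hz (by rw [map_zero, map_zero])
    · rintro rfl; exact hz (by rw [map_one, map_one])
  · obtain ⟨hch, hfix⟩ := fix_three σ hf
    by_cases hsq : IsSquare A.det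
    · apply reduce_uni σ A hA α hα hsq
      by_cases h27 : Nat.card F = 27
      · refine tool_uni_27 hfix h27.ge ?_ (by
          obtain ⟨z, hz⟩ := hσ
          by_contra hcon
          push Not at hcon
          exact hz (by rw [hcon, hcon]))
        have hc := card_eq_pow σ
        rw [hf, h27] at hc
        have ho : orderOf σ = 3 := by
          have h5 : (3 : ℕ) ^ orderOf σ = 3 ^ 3 := by rw [← hc]; norm_num
          exact Nat.pow_right_injective (by norm_num : 2 ≤ 3) h5
        intro z
        have h5 : σ ^ 3 = 1 := by rw [← ho]; exact pow_orderOf_eq_one σ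
        have := DFunLike.congr_fun h5 z
        rw [pow_succ, pow_two] at this
        exact this
      · obtain ⟨h81, h3⟩ := big_three σ hf hσ h27
        exact tool_uni_three hfix h81 hσ h3
    · -- non-square determinant
      have hsep : ∀ z : F, z ≠ 0 → 1 * z ≠ A.det * σ z := by
        intro z hz h
        apply hsq
        have hσz : σ z ≠ 0 := by simpa using hz
        have : A.det = z / σ z := by rw [eq_div_iff hσz, ← h, one_mul]
        rw [this]
        exact sq_ratio σ z hz
      apply reduce' σ A hA α hα !![1, 0; 0, A.det] 1 one_ne_zero (by rw [det_diag]; ring)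
      intro B hB
      rw [det_diag] at hB
      exact split_moved one_ne_zero hA hsep hB (Or.inl hmov)

/-- **Case C**: `σ = 1` -/
theorem case_C [Finite F] (h4 : 4 ≤ Nat.card F)
    (A : M2 F) (hA : A.det ≠ 0) (α : MulAut (PSLn 2 F)) (hα : Ind α A (RingEquiv.refl F)) :
    ∃ x ∈ coset α, cls x * cls x = coset (α ^ 2) := by
  -- the general statement for a split element
  have key : ∀ s1 s2 μ : F, s1 ≠ 0 → s2 ≠ 0 → s1 ≠ s2 → μ ≠ 0 → s1 * s2 = A.det * μ ^ 2 →
      ∃ x ∈ coset α, cls x * cls x = coset (α ^ 2) := by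
    intro s1 s2 μ h1 h2 h12 hμ hdet
    apply reduce (RingEquiv.refl F) A hA α hα !![s1, 0; 0, s2] μ hμ (by rw [det_diag, hdet])
    intro B hB
    rw [det_diag] at hB
    by_cases hs : ∀ β : F, B ≠ β • (1 : M2 F)
    · have hsep : ∀ z : F, z ≠ 0 → s1 * z ≠ s2 * (RingEquiv.refl F) z := by
        intro z hz h
        exact h12 (mul_right_cancel₀ hz h)
      obtain ⟨P, Q, hP, hQ, h⟩ := split_moved (σ := RingEquiv.refl F) h1 h2 hsep hB (Or.inr hs)
      exact ⟨1, P, Q, one_ne_zero, hP, hQ, by rw [one_smul]; exact h⟩
    · push Not at hs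
      obtain ⟨β, rfl⟩ := hs
      have hβ : β ≠ 0 := by
        rintro rfl
        rw [zero_smul, Matrix.det_zero] at hB
        have : s1 * s2 * (RingEquiv.refl F) (s1 * s2) ≠ 0 :=
          mul_ne_zero (mul_ne_zero h1 h2) (mul_ne_zero h1 h2)
        exact this hB.symm
      exact split_central_one hβ h1 h2
  by_cases hsq : IsSquare A.det
  · obtain ⟨a, ha⟩ := hsq
    have ha0 : a ≠ 0 := by rintro rfl; exact hA (by rw [ha, mul_zero])
    obtain ⟨s, hs0, hs1, hs2⟩ : ∃ s : F, s ≠ 0 ∧ s ≠ 1 ∧ s ≠ -1 := by
      classical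
      by_contra hcon
      push Not at hcon
      have : Fintype F := Fintype.ofFinite F
      have hsub : (Finset.univ : Finset F) ⊆ {0, 1, -1} := by
        intro s _
        simp only [Finset.mem_insert, Finset.mem_singleton]
        by_cases h0 : s = 0
        · exact Or.inl h0
        · by_cases h1 : s = 1
          · exact Or.inr (Or.inl h1)
          · exact Or.inr (Or.inr (hcon s h0 h1))
      have h5 := Finset.card_le_card hsub
      rw [Finset.card_univ, ← Nat.card_eq_fintype_card] at h5
      have h6 : ({0, 1, -1} : Finset F).card ≤ 3 := Finset.card_le_three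
      omega
    apply key s s⁻¹ a⁻¹ hs0 (inv_ne_zero hs0)
    · intro h
      have : (s - 1) * (s + 1) = 0 := by
        have : s * s = 1 := by
          nth_rewrite 2 [h]
          exact mul_inv_cancel₀ hs0
        linear_combination this
      rcases mul_eq_zero.1 this with h | h
      · exact hs1 (sub_eq_zero.1 h)
      · exact hs2 (eq_neg_of_add_eq_zero_left h)
    · exact inv_ne_zero ha0
    · rw [ha]; field_simp
  · apply key 1 A.det 1 one_ne_zero hA
    · intro h
      apply hsq
      rw [← h]; exact ⟨1, by ring⟩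
    · exact one_ne_zero
    · ring

/-- **Case B**: `σ` of order two -/
theorem case_B [Finite F] (σ : F ≃+* F) (h2 : ∀ x, σ (σ x) = x) (hne : ∃ z, σ z ≠ z)
    (A : M2 F) (hA : A.det ≠ 0) (α : MulAut (PSLn 2 F)) (hα : Ind α A σ) :
    ∃ x ∈ coset α, cls x * cls x = coset (α ^ 2) := by
  have hN := norm_surj σ h2 hne
  have hil := hilb σ h2 hne
  -- the general statement for a split element
  have key : ∀ s1 s2 μ : F, s1 ≠ 0 → s2 ≠ 0 → (∀ z, z ≠ 0 → s1 * z ≠ s2 * σ z) → μ ≠ 0 →
      s1 * s2 = A.det * μ ^ 2 →
      (∀ β, β ^ 2 = (s1 * s2) * σ (s1 * s2) → β * σ β = (s1 * σ s1) ^ 2 ∨ σ β = β) →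
      ∃ x ∈ coset α, cls x * cls x = coset (α ^ 2) := by
    intro s1 s2 μ h1 h2' hsep hμ hdet hβ
    apply reduce' σ A hA α hα !![s1, 0; 0, s2] μ hμ (by rw [det_diag, hdet])
    intro B hB
    rw [det_diag] at hB
    by_cases hs : ∀ β : F, B ≠ β • (1 : M2 F)
    · exact split_moved h1 h2' hsep hB (Or.inr hs)
    · push Not at hs
      obtain ⟨β, rfl⟩ := hs
      rw [Matrix.det_smul, Matrix.det_one, mul_one, Fintype.card_fin] at hB
      exact split_central_two h2 hil h1 h2' hB (hβ β hB)
  by_cases hc : (2 : F) = 0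
  · -- characteristic two
    have hch : CharP F 2 := CharTwo.of_one_ne_zero_of_two_eq_zero one_ne_zero hc
    have : Fintype F := Fintype.ofFinite F
    have hsq : IsSquare A.det := FiniteField.isSquare_of_char_two (by
      exact ringChar.eq F 2 ▸ rfl) _
    by_cases hf : Nat.card {z : F // σ z = z} = 2
    · obtain ⟨-, hfix⟩ := fix_two σ hf
      apply reduce_uni σ A hA α hα hsq
      apply tool_uni_two hfix
      obtain ⟨z, hz⟩ := hne
      refine ⟨z, ?_, ?_⟩
      · rintro rfl; exact hz (by rw [map_zero])
      · rintro rfl; exact hz (by rw [map_one])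
    · have hf2 := two_le_fix σ
      obtain ⟨s, hσs, hs0, hs1⟩ : ∃ s : F, σ s = s ∧ s ≠ 0 ∧ s ≠ 1 := by
        by_contra hcon
        push Not at hcon
        have hsub : Nat.card {z : F // σ z = z} ≤ Nat.card Bool := by
          classical
          apply Nat.card_le_card_of_injective
            (fun z : {z : F // σ z = z} => if (z : F) = 0 then true else false)
          intro a b hab
          simp only at hab
          by_cases ha : (a : F) = 0 <;> by_cases hb : (b : F) = 0
          · exact Subtype.ext (ha.trans hb.symm)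
          · simp [ha, hb] at hab
          · simp [ha, hb] at hab
          · exact Subtype.ext ((hcon a a.2 ha).trans (hcon b b.2 hb).symm)
        have : Nat.card Bool = 2 := by simp
        omega
      obtain ⟨a, ha⟩ := hsq
      have ha0 : a ≠ 0 := by rintro rfl; exact hA (by rw [ha, mul_zero])
      apply key s s⁻¹ a⁻¹ hs0 (inv_ne_zero hs0)
      · intro z hz h
        have hσz : σ z ≠ 0 := by simpa using hz
        have e1 : s ^ 2 * z = σ z := by
          rw [pow_two, mul_assoc, h]; field_simp
        have e2 : s ^ 2 * σ z = z := by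
          have := congrArg σ e1
          rw [map_mul, map_pow, hσs, h2] at this
          exact this
        have e3 : (s - 1) ^ 4 = 0 := by
          have : (s ^ 4 - 1) * z = 0 := by linear_combination s ^ 2 * e1 + e2
          rcases mul_eq_zero.1 this with h | h
          · linear_combination h + (-2 * s ^ 3 + 3 * s ^ 2 - 2 * s + 1) * hc
          · exact absurd h hz
        exact hs1 (sub_eq_zero.1 (pow_eq_zero_iff (by norm_num) |>.1 e3))
      · exact inv_ne_zero ha0
      · rw [ha]; field_simp
      · intro β hβ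
        right
        rw [mul_inv_cancel₀ hs0, map_one, mul_one] at hβ
        have : (β - 1) ^ 2 = 0 := by linear_combination hβ - (β - 1) * hc
        have h5 := sub_eq_zero.1 (pow_eq_zero_iff (by norm_num) |>.1 this)
        rw [h5, map_one]
  · -- odd characteristic
    have hS := sq_of_norm σ h2 hne
    obtain ⟨y, hy, hy0⟩ : ∃ y, σ y = -y ∧ y ≠ 0 := by
      obtain ⟨z, hz⟩ := hne
      refine ⟨z - σ z, ?_, fun h => hz (sub_eq_zero.1 h).symm⟩
      rw [map_sub, h2]; ring
    by_cases hsq : IsSquare (-y * A.det)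
    · obtain ⟨m, hm⟩ := hsq
      have hm0 : m ≠ 0 := by
        rintro rfl
        rw [mul_zero] at hm
        rcases mul_eq_zero.1 hm with h | h
        · exact hy0 (neg_eq_zero.1 h)
        · exact hA h
      have hXd : (!![0, 1; y, 0] : M2 F).det = -y := by rw [Matrix.det_fin_two_of]; ring
      apply reduce' σ A hA α hα !![0, 1; y, 0] (m / A.det) (div_ne_zero hm0 hA)
      · rw [hXd]
        field_simp
        linear_combination hm
      · intro B hB
        rw [hXd, map_neg, hy] at hB
        have hB' : B.det = -y ^ 2 := by rw [hB]; ring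
        by_cases hs : ∀ β : F, B ≠ β • (1 : M2 F)
        · by_cases hd : B.trace ^ 2 = 4 * B.det
          · exact ell_unipotent σ h2 hN hS y hy hy0 hc B hB' hd hs
          · exact ell_semisimple σ h2 hN y hy hy0 hc B hB' hd
        · push Not at hs
          obtain ⟨β, hβ⟩ := hs
          exact ell_central σ h2 hN y hy hy0 hc B hB' β hβ
    · -- `-N(det A)` is a square in the fixed field
      obtain ⟨k, hk, hk2⟩ : ∃ k, σ k = k ∧ k ^ 2 = (y ^ 2 * -(A.det * σ A.det)) * y ^ 2 := by
        apply prod_nonsq σ hc
        · simp only [map_mul, map_neg, map_pow, hy, h2]; ring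
        · rw [map_pow, hy]; ring
        · intro k hk h
          apply hsq
          apply hS _ k hk
          rw [map_mul, map_neg, hy, h]; ring
        · intro k hk h
          have : (k - y) * (k + y) = 0 := by linear_combination h
          rcases mul_eq_zero.1 this with h | h
          · have h5 : k = y := sub_eq_zero.1 h
            rw [h5, hy] at hk
            have : 2 * y = 0 := by linear_combination -hk
            rcases mul_eq_zero.1 this with h | h
            · exact hc h
            · exact hy0 h
          · have h5 : k = -y := eq_neg_of_add_eq_zero_left h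
            rw [h5, map_neg, hy] at hk
            have : 2 * y = 0 := by linear_combination hk
            rcases mul_eq_zero.1 this with h | h
            · exact hc h
            · exact hy0 h
      set k' := k / y ^ 2 with hk'
      have hσk' : σ k' = k' := by
        rw [hk', map_div₀, map_pow, hy, hk, neg_sq]
      have hk2' : k' ^ 2 = -(A.det * σ A.det) := by
        rw [hk', div_pow, hk2]; field_simp
      have hσA : σ A.det ≠ 0 := by simpa using hA
      have hk0 : k' ≠ 0 := by
        intro h
        rw [h, zero_pow (by norm_num)] at hk2'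
        exact mul_ne_zero hA hσA (neg_eq_zero.1 hk2'.symm)
      obtain ⟨s1, hs1⟩ := hN k' hσk'
      have hs10 : s1 ≠ 0 := by rintro rfl; rw [zero_mul] at hs1; exact hk0 hs1.symm
      have hσs1 : σ s1 ≠ 0 := by simpa using hs10
      apply key s1 (A.det / s1) 1 hs10 (div_ne_zero hA hs10)
      · intro z hz h
        have hσz : σ z ≠ 0 := by simpa using hz
        have e1 : s1 ^ 2 * z = A.det * σ z := by
          field_simp at h; linear_combination h
        have e2 : σ s1 ^ 2 * σ z = σ A.det * z := by
          have := congrArg σ e1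
          rw [map_mul, map_pow, map_mul, h2] at this
          exact this
        have e3 : (2 * k' ^ 2) * (z * σ z) = 0 := by
          have : (s1 * σ s1) ^ 2 * (z * σ z) = A.det * σ A.det * (z * σ z) := by
            linear_combination (σ s1 ^ 2 * σ z) * e1 + A.det * σ z * e2
          rw [hs1] at this
          linear_combination this + (z * σ z) * hk2'
        rcases mul_eq_zero.1 e3 with h | h
        · exact (mul_ne_zero hc (pow_ne_zero 2 hk0)) h
        · exact (mul_ne_zero hz hσz) h
      · exact one_ne_zero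
      · field_simp
      · intro β hβ
        rw [mul_div_cancel₀ _ hs10] at hβ
        have e1 : σ β ^ 2 = β ^ 2 := by
          have := congrArg σ hβ
          rw [map_pow, map_mul, h2] at this
          rw [this, hβ]; ring
        have : (σ β - β) * (σ β + β) = 0 := by linear_combination e1
        rcases mul_eq_zero.1 this with h | h
        · right; exact sub_eq_zero.1 h
        · left
          have h5 : σ β = -β := eq_neg_of_add_eq_zero_left h
          rw [hs1, h5, hk2']
          linear_combination -hβ

/-- **The theorem.** -/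
theorem psl_two [Finite F] (h4 : 4 ≤ Nat.card F) (σ : F ≃+* F)
    (A : M2 F) (hA : A.det ≠ 0) (α : MulAut (PSLn 2 F)) (hα : Ind α A σ) :
    ∃ x ∈ coset α, cls x * cls x = coset (α ^ 2) := by
  by_cases hσ : ∃ z, σ (σ z) ≠ z
  · exact case_A σ hσ A hA α hα
  · push Not at hσ
    by_cases hne : ∃ z, σ z ≠ z
    · exact case_B σ hσ hne A hA α hα
    · push Not at hne
      have : σ = RingEquiv.refl F := RingEquiv.ext hne
      subst this
      exact case_C h4 A hA α hα

end Pool.Agent.Helper47.PTwo
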