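import Pool.Agent.Helper47.PTwo.Base

/-!
The class of a split torus element `diag(s₁, s₂)`.
-/

namespace Pool.Agent.Helper47.PTwo

open Matrix CosetT

variable {F : Type*} [Field F]

theorem split_lower [Finite F] {σ : F ≃+* F} {s1 s2 : F} (h1 : s1 ≠ 0)
    (hsep : ∀ z, z ≠ 0 → s1 * z ≠ s2 * σ z) (l : F) :
    SConj σ !![s1, 0; l, s2] !![s1, 0; 0, s2] := by
  obtain ⟨z, hz⟩ := surj_twist σ (κ := s2 / s1) (by
    intro z hz h
    apply hsep z hz
    field_simp at h
    rw [h]) (-(l / s1))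
  have hz' : s1 * z - s2 * σ z = l := by
    field_simp at hz
    linear_combination -hz
  apply sconj_mk 1 0 z 1
  · ring
  · simp
  · simp
  · simp; linear_combination -hz'
  · simp

theorem split_upper [Finite F] {σ : F ≃+* F} {s1 s2 : F} (h2 : s2 ≠ 0)
    (hsep : ∀ z, z ≠ 0 → s1 * z ≠ s2 * σ z) (u : F) :
    SConj σ !![s1, u; 0, s2] !![s1, 0; 0, s2] := by
  obtain ⟨z, hz⟩ := surj_twist σ (κ := s1 / s2) (by
    intro z hz h
    apply hsep z⁻¹ (inv_ne_zero hz)
    have hσz : σ z ≠ 0 := by simpa using hz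
    rw [map_inv₀]
    field_simp
    field_simp at h
    linear_combination h) (-(u / s2))
  have hz' : s2 * z - s1 * σ z = u := by
    field_simp at hz
    linear_combination -hz
  apply sconj_mk 1 z 0 1
  · ring
  · simp
  · simp; linear_combination -hz'
  · simp
  · simp

/-- the non-central part -/
theorem split_moved [Finite F] {σ : F ≃+* F} {s1 s2 : F} (h1 : s1 ≠ 0) (h2 : s2 ≠ 0)
    (hsep : ∀ z, z ≠ 0 → s1 * z ≠ s2 * σ z) {B : M2 F}
    (hB : B.det = (s1 * s2) * σ (s1 * s2))
    (hm : (∃ z, (σ.trans σ) z ≠ z) ∨ ∀ β : F, B ≠ β • (1 : M2 F)) :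
    ∃ P Q : M2 F, SConj σ P !![s1, 0; 0, s2] ∧ SConj σ Q !![s1, 0; 0, s2] ∧
      SConj (σ.trans σ) B (P * Q.map σ) := by
  have hσ1 : σ s1 ≠ 0 := by simpa using h1
  have hσ2 : σ s2 ≠ 0 := by simpa using h2
  have hB0 : B.det ≠ 0 := by
    rw [hB, map_mul]; exact mul_ne_zero (mul_ne_zero h1 h2) (mul_ne_zero hσ1 hσ2)
  obtain ⟨c, c2, hc, hf⟩ := normal_form' hB0 hm
  have hf := hf (s1 * σ s1)
  set t := nt (σ.trans σ) c c2 (s1 * σ s1) with ht
  set r := (s1 * σ s1 * t - B.det) / c with hr
  have hrt : s1 * σ s1 * t - r * c = B.det := by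
    rw [hr]; field_simp; ring
  refine ⟨!![s1, 0; c / σ s1, s2], !![s1, σ.symm (r / s1); 0, s2],
    split_lower h1 hsep _, split_upper h2 hsep _, ?_⟩
  convert! hf using 1
  ext i j
  rw [Matrix.mul_apply, Fin.sum_univ_two]
  fin_cases i <;> fin_cases j
  · simp
  · simp
    field_simp
  · simp
    field_simp
  · simp
    field_simp
    rw [hB] at hrt
    rw [map_mul] at hrt
    linear_combination -hrt

/-- the central part, `σ = 1` -/
theorem split_central_one {s1 s2 β : F} (hβ : β ≠ 0) (h1 : s1 ≠ 0) (h2 : s2 ≠ 0) :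
    ∃ (ε : F) (P Q : M2 F), ε ≠ 0 ∧ SConj (RingEquiv.refl F) P !![s1, 0; 0, s2] ∧
      SConj (RingEquiv.refl F) Q !![s1, 0; 0, s2] ∧
      SConj ((RingEquiv.refl F).trans (RingEquiv.refl F)) (ε • (β • (1 : M2 F)))
        (P * Q.map (RingEquiv.refl F)) := by
  refine ⟨s1 * s2 / β, !![s1, 0; 0, s2], !![s2, 0; 0, s1],
    div_ne_zero (mul_ne_zero h1 h2) hβ, sconj_refl _ _, ?_, ?_⟩
  · apply sconj_mk 0 1 (-1) 0
    · ring
    · simp
    · simp
    · simp
    · simp
  · convert! sconj_refl _ _ using 1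
    ext i j
    rw [Matrix.mul_apply, Fin.sum_univ_two]
    fin_cases i <;> fin_cases j
    · simp; field_simp
    · simp
    · simp
    · simp; field_simp

/-- the central part, `σ` of order two -/
theorem split_central_two {σ : F ≃+* F} (hs : ∀ x, σ (σ x) = x)
    (hil : ∀ x, x * σ x = 1 → ∃ z, z ≠ 0 ∧ z = x * σ z) {s1 s2 β : F} (h1 : s1 ≠ 0) (h2 : s2 ≠ 0)
    (hβ : β ^ 2 = (s1 * s2) * σ (s1 * s2))
    (hcase : β * σ β = (s1 * σ s1) ^ 2 ∨ σ β = β) :
    ∃ P Q : M2 F, SConj σ P !![s1, 0; 0, s2] ∧ SConj σ Q !![s1, 0; 0, s2] ∧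
      SConj (σ.trans σ) (β • (1 : M2 F)) (P * Q.map σ) := by
  have hσ1 : σ s1 ≠ 0 := by simpa using h1
  have hσ2 : σ s2 ≠ 0 := by simpa using h2
  have hβ0 : β ≠ 0 := by
    intro h; rw [h, map_mul] at hβ
    have : (s1 * s2) * (σ s1 * σ s2) ≠ 0 := mul_ne_zero (mul_ne_zero h1 h2) (mul_ne_zero hσ1 hσ2)
    apply this; rw [← hβ]; ring
  have hσβ0 : σ β ≠ 0 := by simpa using hβ0
  have hβ' : σ β ^ 2 = s1 * s2 * (σ s1 * σ s2) := by
    have := congrArg σ hβ
    simp only [map_pow, map_mul, hs] at this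
    rw [this]; ring
  rw [map_mul] at hβ
  refine ⟨!![s1, 0; 0, s2], !![σ β / σ s1, 0; 0, σ β / σ s2], sconj_refl _ _, ?_, ?_⟩
  · rcases hcase with hcase | hcase
    · obtain ⟨z, hz0, hz⟩ := hil (σ β / (s1 * σ s1)) (by
        rw [map_div₀, map_mul, hs, hs]
        field_simp
        linear_combination hcase)
      have hσz : σ z ≠ 0 := by simpa using hz0
      have hz' : z * (s1 * σ s1) = σ β * σ z := by
        field_simp at hz
        linear_combination hz
      have hz2 : z * σ β = s2 * σ s2 * σ z := by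
        have : s1 * σ s1 * (z * σ β) = s1 * σ s1 * (s2 * σ s2 * σ z) := by
          linear_combination σ β * hz' + σ z * hβ'
        exact mul_left_cancel₀ (mul_ne_zero h1 hσ1) this
      apply sconj_mk z 0 0 z⁻¹
      · field_simp; ring
      · simp
        field_simp
        linear_combination -hz'
      · simp
      · simp
      · simp
        field_simp
        linear_combination hz2
    · rw [hcase]
      obtain ⟨z, hz0, hz⟩ := hil (β / (σ s1 * s2)) (by
        rw [map_div₀, map_mul, hs, hcase]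
        field_simp
        linear_combination hβ)
      have hσz : σ z ≠ 0 := by simpa using hz0
      have hz' : z * (σ s1 * s2) = β * σ z := by
        field_simp at hz
        linear_combination hz
      have hz2 : z * β = s1 * σ s2 * σ z := by
        have : (σ s1 * s2) * (z * β) = (σ s1 * s2) * (s1 * σ s2 * σ z) := by
          linear_combination β * hz' + σ z * hβ
        exact mul_left_cancel₀ (mul_ne_zero hσ1 h2) this
      apply sconj_mk 0 z (-z⁻¹) 0
      · field_simp; ring
      · simp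
      · simp
        field_simp
        linear_combination -hz'
      · simp
        field_simp
        linear_combination hz2
      · simp
  · convert! sconj_refl _ _ using 1
    ext i j
    rw [Matrix.mul_apply, Fin.sum_univ_two]
    fin_cases i <;> fin_cases j
    · simp [hs]; field_simp
    · simp
    · simp
    · simp [hs]; field_simp

end Pool.Agent.Helper47.PTwo
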