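import Pool.Agent.Helper47.PTwo.Base

/-!
The class of a unipotent element `!![1, e; 0, 1]` when the fixed field of `σ` is the prime field of
order `2` or `3`.
-/

namespace Pool.Agent.Helper47.PTwo

open Matrix CosetT

variable {F : Type*} [Field F]

/-- a trace function with values in the prime field -/
theorem exists_tr [Finite F] (p : ℕ) [Fact p.Prime] [CharP F p] (σ : F ≃+* F)
    (hfix : ∀ z, σ z = z → z = 0 ∨ z = 1 ∨ z = -1) :
    ∃ tr : F →+ ZMod p, Function.Surjective tr ∧ (∀ z, tr (σ z) = tr z) ∧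
      ∀ z, tr z = 0 → ∃ a, σ a - a = z := by
  let _ : Algebra (ZMod p) F := ZMod.algebra F p
  let σ' : F ≃ₐ[ZMod p] F := AlgEquiv.ofRingEquiv (f := σ) (by
    intro r
    obtain ⟨n, rfl⟩ := ZMod.natCast_zmod_surjective r
    rw [map_natCast, map_natCast])
  let tr : F →+ ZMod p := (Algebra.trace (ZMod p) F).toAddMonoidHom
  have htr : ∀ z, tr z = Algebra.trace (ZMod p) F z := fun z => rfl
  have hsurj : Function.Surjective tr := Algebra.trace_surjective (ZMod p) F
  have hinv : ∀ z, tr (σ z) = tr z := by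
    intro z
    rw [htr, htr]
    exact (Algebra.trace_eq_of_algEquiv σ' z)
  refine ⟨tr, hsurj, hinv, ?_⟩
  intro z hz
  obtain ⟨e, he⟩ := hsurj 1
  have heD : e ∉ D σ := by
    intro h
    obtain ⟨a, rfl⟩ := mem_D.1 h
    rw [map_sub, hinv, sub_self] at he
    exact zero_ne_one he
  obtain ⟨a, c, hc, rfl⟩ := decomp σ heD z
  rcases hfix c hc with rfl | rfl | rfl
  · exact ⟨a, by ring⟩
  · exfalso
    rw [one_mul, map_add, map_sub, hinv, sub_self, zero_add, he] at hz
    exact one_ne_zero hz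
  · exfalso
    rw [neg_one_mul, map_add, map_sub, hinv, sub_self, zero_add, map_neg, he] at hz
    exact one_ne_zero (neg_eq_zero.1 hz)

theorem uni_conj {σ : F ≃+* F} {a e z : F} (h : σ z - z = e - a) :
    SConj σ !![1, a; 0, 1] !![1, e; 0, 1] := by
  apply sconj_mk 1 z 0 1
  · ring
  · simp
  · simp; linear_combination h
  · simp
  · simp

theorem lower_conj {σ : F ≃+* F} {h c w : F} (hw : w ≠ 0) (hh : h * w = σ w) :
    SConj σ !![h, 0; c, h⁻¹] !![1, -(c / (w * σ w)); 0, 1] := by
  have hσ : σ w ≠ 0 := by simpa using hw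
  have hh0 : h ≠ 0 := by rintro rfl; exact hσ (by rw [← hh, zero_mul])
  apply sconj_mk 0 w⁻¹ (-w) 0
  · field_simp; ring
  · simp
  · simp
    field_simp
    linear_combination hh
  · simp
    field_simp
    linear_combination -hh
  · simp
    field_simp


/-- the product of a lower and an upper triangular element -/
theorem uni_core {σ : F ≃+* F} {p : ℕ} {tr : F →+ ZMod p} {e : F}
    (hinv : ∀ z, tr (σ z) = tr z) (hker : ∀ z, tr z = 0 → ∃ a, σ a - a = z) (he : tr e = 1)
    {B : M2 F} {h r c t w y : F} (hB : SConj (σ.trans σ) B !![h, r; c, t])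
    (hdet : h * t - r * c = 1) (hw : w ≠ 0) (hh : h * w = σ w) (hy : y ≠ 0)
    (h1 : tr (σ.symm (c / (w * σ w)) * y ^ 2) = -1)
    (h2 : tr (σ.symm (σ.symm (r / h)) * y ^ 2) = 1) :
    ∃ P Q : M2 F, SConj σ P !![1, e; 0, 1] ∧ SConj σ Q !![1, e; 0, 1] ∧
      SConj (σ.trans σ) B (P * Q.map σ) := by
  have hσ : σ w ≠ 0 := by simpa using hw
  have hσy : σ y ≠ 0 := by simpa using hy
  have hσσy : σ (σ y) ≠ 0 := by simpa using hσy
  have hh0 : h ≠ 0 := by rintro rfl; exact hσ (by rw [← hh, zero_mul])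
  have hk : ∀ a, tr a = 1 → SConj σ !![1, a; 0, 1] !![1, e; 0, 1] := by
    intro a ha
    obtain ⟨z, hz⟩ := hker (e - a) (by rw [map_sub, ha, he, sub_self])
    exact uni_conj hz
  -- scaled data
  set h' := h * y / σ (σ y) with hh'
  set c' := c / (y * σ (σ y)) with hc'
  set w' := w / (y * σ y) with hw'
  set r' := r * (y * σ (σ y)) with hr'
  set t' := t * σ (σ y) / y with ht'
  have hw0' : w' ≠ 0 := div_ne_zero hw (mul_ne_zero hy hσy)
  have hhw' : h' * w' = σ w' := by
    rw [hh', hw', map_div₀, map_mul, ← hh]; field_simp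
  have hh0' : h' ≠ 0 := div_ne_zero (mul_ne_zero hh0 hy) hσσy
  have hdet' : h' * t' - r' * c' = 1 := by
    rw [hh', ht', hr', hc', ← hdet]; field_simp
  refine ⟨!![h', 0; c', h'⁻¹], !![1, σ.symm (r' / h'); 0, 1], ?_, ?_, ?_⟩
  · refine sconj_trans (lower_conj hw0' hhw') (hk _ ?_)
    have e1 : c' / (w' * σ w') = c / (w * σ w) * σ y ^ 2 := by
      rw [hc', hw', map_div₀, map_mul]; field_simp
    rw [map_neg, e1, ← hinv, neg_eq_iff_eq_neg]
    have e2 : tr (σ (σ.symm (c / (w * σ w)) * y ^ 2)) = -1 := by rw [hinv, h1]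
    rw [map_mul, RingEquiv.apply_symm_apply, map_pow] at e2
    rw [hinv]; exact e2
  · apply hk
    have e1 : r' / h' = r / h * σ (σ y) ^ 2 := by
      rw [hr', hh']; field_simp
    rw [e1, ← hinv, RingEquiv.apply_symm_apply]
    have e2 : tr (σ (σ (σ.symm (σ.symm (r / h)) * y ^ 2))) = 1 := by rw [hinv, hinv, h2]
    rw [map_mul, map_mul, RingEquiv.apply_symm_apply, RingEquiv.apply_symm_apply, map_pow,
      map_pow] at e2
    exact e2
  · refine sconj_trans hB ?_
    have e3 : (!![h', 0; c', h'⁻¹] : M2 F) * (!![1, σ.symm (r' / h'); 0, 1] : M2 F).map σ =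
        !![h', r'; c', t'] := by
      ext i j
      rw [Matrix.mul_apply, Fin.sum_univ_two]
      fin_cases i <;> fin_cases j
      · simp
      · simp
        field_simp
      · simp
      · simp
        field_simp
        linear_combination -hdet'
    rw [e3]
    apply sconj_mk y⁻¹ 0 0 y
    · field_simp; ring
    · simp
      rw [hh']; field_simp
    · simp
      rw [hr']; field_simp
    · simp
      rw [hc']; field_simp
    · simp
      rw [ht']; field_simp

/-- characteristic two: a good first entry -/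
theorem good_two [Finite F] [CharP F 2] {σ : F ≃+* F} (hfix : ∀ z, σ z = z → z = 0 ∨ z = 1)
    (hm : ∃ m : F, m ≠ 0 ∧ m ≠ 1) {c : F} (hc : c ≠ 0) (c2 : F) :
    ∃ h : F, h ≠ 0 ∧ h * nt (σ.trans σ) c c2 h ≠ 1 := by
  by_contra hcon
  push Not at hcon
  have h2 : (2 : F) = 0 := CharTwo.two_eq_zero
  have hτc : σ (σ c) ≠ 0 := by simpa using hc
  have hE : ∀ h : F, h ≠ 0 → h * (c2 - σ (σ h) * c) = σ (σ c) := by
    intro h hh
    have := hcon h hh
    rw [nt] at this
    simp only [RingEquiv.coe_trans, Function.comp_apply] at this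
    field_simp at this
    exact this
  have hE1 := hE 1 one_ne_zero
  simp only [map_one, one_mul] at hE1
  have hEm : ∀ m : F, m ≠ 0 → m ≠ 1 → σ (σ m) * σ (σ c) = (m + 1) * c := by
    intro m hm0 hm1
    have hτm : σ (σ m) ≠ 0 := by simpa using hm0
    have h3 : (m + 1) / m ≠ 0 := by
      apply div_ne_zero _ hm0
      intro h4
      apply hm1
      linear_combination h4 - h2
    have h5 := hE _ h3
    rw [map_div₀, map_div₀, map_add, map_add, map_one, map_one] at h5
    field_simp at h5
    linear_combination h5 - (m + 1) * (σ (σ m)) * hE1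
  have hne : ∀ m : F, m ≠ 0 → m ≠ 1 → m + 1 ≠ 0 ∧ m + 1 ≠ 1 := by
    intro m hm0 hm1
    refine ⟨fun h => hm1 (by linear_combination h - h2), fun h => hm0 (by linear_combination h)⟩
  obtain ⟨m, hm0, hm1⟩ := hm
  have hcc : σ (σ c) = c := by
    have e1 := hEm m hm0 hm1
    have e2 := hEm (m + 1) (hne m hm0 hm1).1 (hne m hm0 hm1).2
    rw [map_add, map_add, map_one, map_one] at e2
    linear_combination e2 - e1
  have hT : ∀ m : F, m ≠ 0 → m ≠ 1 → σ (σ m) = m + 1 := by
    intro m hm0 hm1
    have e1 := hEm m hm0 hm1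
    rw [hcc] at e1
    exact mul_right_cancel₀ hc e1
  have e1 := hT m hm0 hm1
  have hs0 : σ m ≠ 0 := by simpa using hm0
  have hs1 : σ m ≠ 1 := fun h => hm1 (σ.injective (by rw [h, map_one]))
  have e2 := hT (σ m) hs0 hs1
  by_cases h3 : m + σ m = 0
  · have h4 : σ m = m := by linear_combination h3 - m * h2
    rcases hfix m h4 with h | h
    · exact hm0 h
    · exact hm1 h
  · by_cases h5 : m + σ m = 1
    · have h6 : σ m = m + 1 := by linear_combination h5 - m * h2
      rw [h6, map_add, map_one, h6] at e1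
      apply one_ne_zero (α := F)
      linear_combination e1
    · have h7 := hT _ h3 h5
      rw [map_add, map_add, e2, e1] at h7
      apply one_ne_zero (α := F)
      linear_combination h7

theorem zmod2_cases : ∀ z : ZMod 2, z = 0 ∨ z = 1 := by decide

theorem zmod2_one : (1 : ZMod 2) = -1 := by decide

theorem zmod2_sub : (1 : ZMod 2) - -1 = 0 := by decide

/-- The class of `!![1, e; 0, 1]`, characteristic two. -/
theorem tool_uni_two [Finite F] [CharP F 2] {σ : F ≃+* F} (hfix : ∀ z, σ z = z → z = 0 ∨ z = 1)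
    (hm : ∃ m : F, m ≠ 0 ∧ m ≠ 1) :
    ∃ e : F, ∀ B : M2 F, B.det = 1 → ∃ P Q : M2 F, SConj σ P !![1, e; 0, 1] ∧
      SConj σ Q !![1, e; 0, 1] ∧ SConj (σ.trans σ) B (P * Q.map σ) := by
  have : Fact (Nat.Prime 2) := ⟨Nat.prime_two⟩
  obtain ⟨tr, hsurj, hinv, hker⟩ := exists_tr 2 σ (fun z hz => by
    rcases hfix z hz with h | h
    · exact Or.inl h
    · exact Or.inr (Or.inl h))
  obtain ⟨e, he⟩ := hsurj 1
  refine ⟨e, ?_⟩
  intro B hB
  by_cases hmov : (∃ z, (σ.trans σ) z ≠ z) ∨ ∀ β : F, B ≠ β • (1 : M2 F)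
  · obtain ⟨c, c2, hc, hf⟩ := normal_form' (by rw [hB]; exact one_ne_zero) hmov
    obtain ⟨h, hh0, hh1⟩ := good_two hfix hm hc c2
    have hf := hf h
    rw [hB] at hf
    set t := nt (σ.trans σ) c c2 h with ht
    set r := (h * t - 1) / c with hr
    have hr0 : r ≠ 0 := div_ne_zero (sub_ne_zero.2 hh1) hc
    have hdet : h * t - r * c = 1 := by rw [hr]; field_simp; ring
    -- the element `w`
    obtain ⟨w, hw⟩ : ∃ w : Fˣ, σ w = h * w := by
      let f : Fˣ →* Fˣ := Units.map (σ : F →* F) / MonoidHom.id Fˣ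
      have hf1 : ∀ w, f w = Units.map (σ : F →* F) w / w := fun w => rfl
      have hi : Function.Injective f := by
        rw [injective_iff_map_eq_one]
        intro w hw
        rw [hf1, div_eq_one] at hw
        have hw' : σ (w : F) = w := by
          have := congrArg (Units.val) hw
          simpa using this
        rcases hfix _ hw' with h | h
        · exact absurd h (Units.ne_zero w)
        · exact Units.ext h
      obtain ⟨w, hw⟩ := (Finite.injective_iff_surjective.1 hi) (Units.mk0 h hh0)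
      refine ⟨w, ?_⟩
      rw [hf1, div_eq_iff_eq_mul] at hw
      have := congrArg (Units.val) hw
      simpa using this
    have hw0 : (w : F) ≠ 0 := Units.ne_zero w
    have hσw : σ (w : F) ≠ 0 := by simp
    set A1 := σ.symm (c / (w * σ w)) with hA1
    set A2 := σ.symm (σ.symm (r / h)) with hA2
    have hA1' : A1 ≠ 0 := by
      rw [hA1]; simp [hc, hw0]
    have hA2' : A2 ≠ 0 := by
      rw [hA2]; simp [hr0, hh0]
    -- the scaling
    obtain ⟨C, hC1, hC2⟩ : ∃ C, tr (A1 * C) = 1 ∧ tr (A2 * C) = 1 := by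
      have k1 : tr (A1 * (e / A1)) = 1 := by rw [mul_div_cancel₀ _ hA1', he]
      have k2 : tr (A2 * (e / A2)) = 1 := by rw [mul_div_cancel₀ _ hA2', he]
      rcases zmod2_cases (tr (A2 * (e / A1))) with k3 | k3
      · rcases zmod2_cases (tr (A1 * (e / A2))) with k4 | k4
        · refine ⟨e / A1 + e / A2, ?_, ?_⟩
          · rw [mul_add, map_add, k1, k4, add_zero]
          · rw [mul_add, map_add, k2, k3, zero_add]
        · exact ⟨_, k4, k2⟩
      · exact ⟨_, k1, k3⟩
    obtain ⟨y, rfl⟩ : ∃ y, y ^ 2 = C := by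
      have := (frobenius_inj F 2)
      obtain ⟨y, hy⟩ := (Finite.injective_iff_surjective.1 this) C
      exact ⟨y, hy⟩
    have hy0 : y ≠ 0 := by
      rintro rfl
      rw [zero_pow (by norm_num), mul_zero, map_zero] at hC1
      exact zero_ne_one hC1
    exact uni_core hinv hker he hf hdet hw0 hw.symm hy0 (by rw [hC1]; exact zmod2_one) hC2
  · push Not at hmov
    obtain ⟨hτ, β, rfl⟩ := hmov
    have hβ : β = 1 := by
      rw [Matrix.det_smul, Matrix.det_one, mul_one, Fintype.card_fin] at hB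
      have h2 : (2 : F) = 0 := CharTwo.two_eq_zero
      have : (β - 1) ^ 2 = 0 := by linear_combination hB - (β - 1) * h2
      exact sub_eq_zero.1 (pow_eq_zero_iff (by norm_num) |>.1 this)
    subst hβ
    refine ⟨!![1, e; 0, 1], !![1, σ.symm (-e); 0, 1], sconj_refl _ _, ?_, ?_⟩
    · obtain ⟨z, hz⟩ := hker (e - σ.symm (-e)) (by
        rw [map_sub, ← hinv (σ.symm (-e)), RingEquiv.apply_symm_apply, map_neg, he]
        exact zmod2_sub)
      exact uni_conj hz
    · convert! sconj_refl _ _ using 1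
      ext i j
      rw [Matrix.mul_apply, Fin.sum_univ_two]
      fin_cases i <;> fin_cases j
      · simp
      · simp
      · simp
      · simp

end Pool.Agent.Helper47.PTwo
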